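import Pool.Agent.Work.MP_26c40d_31.Interface

/-!
# Block ALG (helper44)
-/

set_option autoImplicit false

namespace Pool.BenStar

open Module

namespace ALG

variable {k T Γ : Type} [Field k] [AddCommGroup T] [Module k T]

theorem com_mul {r : Γ → Module.End k T} {X Y : Module.End k T} (hX : Com r X) (hY : Com r Y) :
    Com r (X * Y) := by
  intro γ
  rw [mul_assoc, hY γ, ← mul_assoc, hX γ, mul_assoc]

theorem com_sub {r : Γ → Module.End k T} {X Y : Module.End k T} (hX : Com r X) (hY : Com r Y) :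
    Com r (X - Y) := by
  intro γ
  rw [sub_mul, mul_sub, hX γ, hY γ]

theorem com_add {r : Γ → Module.End k T} {X Y : Module.End k T} (hX : Com r X) (hY : Com r Y) :
    Com r (X + Y) := by
  intro γ
  rw [add_mul, mul_add, hX γ, hY γ]

theorem com_one {r : Γ → Module.End k T} : Com r (1 : Module.End k T) := by
  intro γ
  rw [one_mul, mul_one]

theorem com_zero {r : Γ → Module.End k T} : Com r (0 : Module.End k T) := by
  intro γ
  rw [zero_mul, mul_zero]

theorem com_adjoin {r : Γ → Module.End k T} {Y W : Module.End k T} (hY : Com r Y)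
    (hW : W ∈ Algebra.adjoin k {Y}) : Com r W := by
  induction hW using Algebra.adjoin_induction with
  | mem x hx => rw [Set.mem_singleton_iff.1 hx]; exact hY
  | algebraMap c => intro γ; exact Algebra.commutes c (r γ)
  | add x y _ _ hx hy => exact com_add hx hy
  | mul x y _ _ hx hy => exact com_mul hx hy

theorem comm_adjoin {Y W : Module.End k T} (hW : W ∈ Algebra.adjoin k {Y}) : W * Y = Y * W := by
  induction hW using Algebra.adjoin_induction with
  | mem x hx => rw [Set.mem_singleton_iff.1 hx]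
  | algebraMap c => exact Algebra.commutes c Y
  | add x y _ _ hx hy => rw [add_mul, mul_add, hx, hy]
  | mul x y _ _ hx hy => rw [mul_assoc, hy, ← mul_assoc, hx, mul_assoc]

/-- the left ideal -/
def Jb (r : Γ → Module.End k T) (b : Γ → T) (Y : Module.End k T) : Prop :=
  Com r Y ∧ ∃ y : T, ∀ γ, Y (b γ) = r γ y + y

/-- the right ideal -/
def Ja (r : Γ → Module.End k T) (a : Γ → T →ₗ[k] k) (Y : Module.End k T) : Prop :=
  Com r Y ∧ ∃ x : T →ₗ[k] k, ∀ γ t, a γ (Y t) = x (r γ t) + x t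

theorem Jb_mul {r : Γ → Module.End k T} {b : Γ → T} {X Y : Module.End k T} (hX : Com r X)
    (hY : Jb r b Y) : Jb r b (X * Y) := by
  obtain ⟨hc, y, hy⟩ := hY
  refine ⟨com_mul hX hc, X y, fun γ => ?_⟩
  have h : X (r γ y) = r γ (X y) := LinearMap.congr_fun (hX γ) y
  rw [Module.End.mul_apply, hy, map_add, h]

theorem Jb_sub {r : Γ → Module.End k T} {b : Γ → T} {X Y : Module.End k T} (hX : Jb r b X)
    (hY : Jb r b Y) : Jb r b (X - Y) := by
  obtain ⟨hc, y, hy⟩ := hY
  obtain ⟨hc', y', hy'⟩ := hX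
  refine ⟨com_sub hc' hc, y' - y, fun γ => ?_⟩
  rw [LinearMap.sub_apply, hy, hy', map_sub]
  abel

theorem Jb_add {r : Γ → Module.End k T} {b : Γ → T} {X Y : Module.End k T} (hX : Jb r b X)
    (hY : Jb r b Y) : Jb r b (X + Y) := by
  obtain ⟨hc, y, hy⟩ := hY
  obtain ⟨hc', y', hy'⟩ := hX
  refine ⟨com_add hc' hc, y' + y, fun γ => ?_⟩
  rw [LinearMap.add_apply, hy, hy', map_add]
  abel

theorem Jb_zero {r : Γ → Module.End k T} {b : Γ → T} : Jb r b (0 : Module.End k T) :=
  ⟨com_zero, 0, fun γ => by simp⟩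

theorem Ja_mul {r : Γ → Module.End k T} {a : Γ → T →ₗ[k] k} {X Y : Module.End k T}
    (hX : Com r X) (hY : Ja r a Y) : Ja r a (Y * X) := by
  obtain ⟨hc, x, hx⟩ := hY
  refine ⟨com_mul hc hX, x ∘ₗ X, fun γ t => ?_⟩
  have h : X (r γ t) = r γ (X t) := LinearMap.congr_fun (hX γ) t
  rw [Module.End.mul_apply, hx, LinearMap.comp_apply, LinearMap.comp_apply, h]

theorem range_lt {e f : Module.End k T} (he : e * e = e) (hf : f * f = f) (hef : e * f = 0)
    (hfe : f * e = 0) (hf0 : f ≠ 0) : LinearMap.range e < LinearMap.range (e + f) := by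
  have h1 : LinearMap.range e ≤ LinearMap.range (e + f) := by
    rintro _ ⟨v, rfl⟩
    refine ⟨e v, ?_⟩
    have : (e + f) * e = e := by rw [add_mul, he, hfe, add_zero]
    exact LinearMap.congr_fun this v
  refine lt_of_le_of_ne h1 fun h => hf0 ?_
  ext v
  have hv : f v ∈ LinearMap.range (e + f) := by
    refine ⟨f v, ?_⟩
    have : (e + f) * f = f := by rw [add_mul, hf, hef, zero_add]
    exact LinearMap.congr_fun this v
  rw [← h] at hv
  obtain ⟨w, hw⟩ := hv
  have h2 : e (f v) = f v := by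
    rw [← hw]
    exact LinearMap.congr_fun he w
  have h3 : e (f v) = 0 := LinearMap.congr_fun hef v
  rw [← h2, h3]
  rfl

theorem trace_zero [FiniteDimensional k T] {Y : Module.End k T} (h : IsNilpotent Y) :
    LinearMap.trace k T Y = 0 :=
  (LinearMap.isNilpotent_trace_of_isNilpotent h).eq_zero

end ALG

open ALG in
theorem stmt_ALG (hIDEM : Stmt_IDEM) (hPRIM : Stmt_PRIM) : Stmt_ALG := by
  intro k T Γ _ _ _ _ _ r b a Q N hnil hN hQ hQb hQa hNb hNa hsym
  -- an idempotent of maximal rank in the left ideal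
  have hex : ∃ e : Module.End k T, (Jb r b e ∧ e * e = e) ∧
      ∀ f : Module.End k T, Jb r b f → f * f = f →
        finrank k (LinearMap.range f) ≤ finrank k (LinearMap.range e) := by
    let P : ℕ → Prop := fun m => ∃ e : Module.End k T, (Jb r b e ∧ e * e = e) ∧
      finrank k (LinearMap.range e) = m
    have hP0 : ∃ m, P m := ⟨_, 0, ⟨Jb_zero, by rw [mul_zero]⟩, rfl⟩
    have hPb : ∀ m, P m → m ≤ finrank k T := by
      rintro m ⟨e, -, rfl⟩
      exact Submodule.finrank_le _
    classical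
    obtain ⟨m0, hm0⟩ := hP0
    have h1 : P (Nat.findGreatest P (finrank k T)) :=
      Nat.findGreatest_spec (hPb m0 hm0) hm0
    obtain ⟨e, he, her⟩ := h1
    refine ⟨e, he, fun f hf hff => ?_⟩
    rw [her]
    have hPf : P (finrank k (LinearMap.range f)) := ⟨f, ⟨hf, hff⟩, rfl⟩
    exact Nat.le_findGreatest (hPb _ hPf) hPf
  obtain ⟨e, ⟨heJ, hee⟩, hmax⟩ := hex
  have he'e : (1 - e) * e = 0 := by rw [sub_mul, one_mul, hee, sub_self]
  have hee' : e * (1 - e) = 0 := by rw [mul_sub, mul_one, hee, sub_self]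
  have he'e' : (1 - e) * (1 - e) = 1 - e := by rw [mul_sub, mul_one, he'e, sub_zero]
  have hce : Com r e := heJ.1
  have hce' : Com r (1 - e) := com_sub com_one hce
  -- (1)
  have key1 : ∀ Y : Module.End k T, Jb r b Y → (1 - e) * Y = Y → Y * (1 - e) = Y →
      IsNilpotent Y := by
    intro Y hY h1 h2
    by_contra hn
    obtain ⟨W, hW, hidem, hne⟩ := hIDEM k T Y hn
    have heY : e * Y = 0 := by rw [← h1, ← mul_assoc, hee', zero_mul]
    have hYe : Y * e = 0 := by rw [← h2, mul_assoc, he'e, mul_zero]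
    have hcW : W * Y = Y * W := comm_adjoin hW
    have hef : e * (W * Y) = 0 := by rw [hcW, ← mul_assoc, heY, zero_mul]
    have hfe : (W * Y) * e = 0 := by rw [mul_assoc, hYe, mul_zero]
    have hJ : Jb r b (W * Y) := Jb_mul (com_adjoin hY.1 hW) hY
    have hid : (e + W * Y) * (e + W * Y) = e + W * Y := by
      rw [add_mul, mul_add, mul_add, hee, hef, hfe, hidem, add_zero, zero_add]
    have h3 := hmax (e + W * Y) (Jb_add heJ hJ) hid
    have h4 := Submodule.finrank_lt_finrank_of_lt (range_lt hee hidem hef hfe hne)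
    omega
  -- (2)
  have key2 : ∀ Y ε : Module.End k T, Jb r b Y → Com r ε → (1 - e) * ε = ε → ε * (1 - e) = ε →
      LinearMap.trace k T (Y * ε) = 0 := by
    intro Y ε hY hε h1 h2
    have hJ : Jb r b (ε * (Y * (1 - e))) := by
      refine Jb_mul hε ?_
      rw [mul_sub, mul_one]
      exact Jb_sub hY (Jb_mul hY.1 heJ)
    have hn := key1 _ hJ (by rw [← mul_assoc, h1]) (by
      rw [mul_assoc, mul_assoc, he'e'])
    have ht := trace_zero hn
    rw [LinearMap.trace_mul_comm, mul_assoc, h1] at ht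
    exact ht
  -- (3)
  have key3 : ∀ Y ε : Module.End k T, Ja r a Y → Com r ε → ε * e = ε →
      LinearMap.trace k T (Y * ε) = 0 := by
    intro Y ε hY hε h1
    have hJa : Ja r a (Y * ε) := Ja_mul hε hY
    have hJb : Jb r b (Y * ε) := by
      refine Jb_mul hY.1 ?_
      rw [← h1]
      exact Jb_mul hε heJ
    exact trace_zero (hnil _ hJa.1 hJb.2 hJa.2)
  -- the decompositions
  obtain ⟨n0, ε0, hp0, ho0, hs0⟩ := hPRIM k T Γ r e hce hee
  obtain ⟨n1, ε1, hp1, ho1, hs1⟩ := hPRIM k T Γ r (1 - e) hce' he'e'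
  have hl0 : ∀ i, e * ε0 i = ε0 i := by
    intro i
    rw [← hs0, Finset.sum_mul, Finset.sum_eq_single i]
    · exact (hp0 i).2.1
    · intro j _ hj
      exact ho0 j i hj
    · intro h
      exact absurd (Finset.mem_univ i) h
  have hr0 : ∀ i, ε0 i * e = ε0 i := by
    intro i
    conv_lhs => rw [← hs0]
    rw [Finset.mul_sum, Finset.sum_eq_single i]
    · exact (hp0 i).2.1
    · intro j _ hj
      exact ho0 i j hj.symm
    · intro h
      exact absurd (Finset.mem_univ i) h
  have hl1 : ∀ i, (1 - e) * ε1 i = ε1 i := by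
    intro i
    rw [← hs1, Finset.sum_mul, Finset.sum_eq_single i]
    · exact (hp1 i).2.1
    · intro j _ hj
      exact ho1 j i hj
    · intro h
      exact absurd (Finset.mem_univ i) h
  have hr1 : ∀ i, ε1 i * (1 - e) = ε1 i := by
    intro i
    conv_lhs => rw [← hs1]
    rw [Finset.mul_sum, Finset.sum_eq_single i]
    · exact (hp1 i).2.1
    · intro j _ hj
      exact ho1 i j hj.symm
    · intro h
      exact absurd (Finset.mem_univ i) h
  have h01 : ∀ i j, ε0 i * ε1 j = 0 := by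
    intro i j
    rw [← hr0 i, ← hl1 j, mul_assoc, ← mul_assoc e, hee', zero_mul, mul_zero]
  have h10 : ∀ i j, ε1 i * ε0 j = 0 := by
    intro i j
    rw [← hr1 i, ← hl0 j, mul_assoc, ← mul_assoc (1 - e), he'e, zero_mul, mul_zero]
  have hNJb : Jb r b N := ⟨hN, hNb⟩
  have hNJa : Ja r a N := ⟨hN, hNa⟩
  have tN0 : ∀ i, LinearMap.trace k T (N * ε0 i) = 0 := fun i =>
    key3 N _ hNJa (hp0 i).1 (hr0 i)
  have tN1 : ∀ i, LinearMap.trace k T (N * ε1 i) = 0 := fun i =>
    key2 N _ hNJb (hp1 i).1 (hl1 i) (hr1 i)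
  -- (5)
  have key5 : ∀ (ε : Module.End k T) (j : Fin n1), Com r ε → LinearMap.trace k T (N * ε) = 0 →
      ε * ε1 j = 0 → LinearMap.trace k T (Q ε * ε1 j) = 0 := by
    intro ε j hε ht ho
    obtain ⟨u, hu⟩ := hQb ε hε
    have hJ : Jb r b (Q ε - N * ε) := by
      refine ⟨com_sub (hQ ε hε) (com_mul hN hε), u, fun γ => ?_⟩
      rw [LinearMap.sub_apply, hu, ht, zero_smul, zero_add, Module.End.mul_apply]
      abel
    have h1 := key2 _ _ hJ (hp1 j).1 (hl1 j) (hr1 j)
    rw [sub_mul, map_sub, mul_assoc, ho, mul_zero, map_zero, sub_zero] at h1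
    exact h1
  -- (6)
  have key6 : ∀ (ε : Module.End k T) (j : Fin n0), Com r ε → LinearMap.trace k T (N * ε) = 0 →
      ε0 j * ε = 0 → LinearMap.trace k T (Q ε * ε0 j) = 0 := by
    intro ε j hε ht ho
    obtain ⟨x, hx⟩ := hQa ε hε
    have hJ : Ja r a (Q ε - ε * N) := by
      refine ⟨com_sub (hQ ε hε) (com_mul hε hN), x, fun γ t => ?_⟩
      rw [LinearMap.sub_apply, map_sub, hx, ht, zero_mul, zero_add, Module.End.mul_apply]
      ring
    have h1 := key3 _ _ hJ (hp0 j).1 (hr0 j)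
    have h2 : LinearMap.trace k T (ε * N * ε0 j) = 0 := by
      rw [mul_assoc, LinearMap.trace_mul_comm, mul_assoc, ho, mul_zero, map_zero]
    rw [sub_mul, map_sub, h2, sub_zero] at h1
    exact h1
  -- assembly
  let E : Fin n0 ⊕ Fin n1 → Module.End k T := Sum.elim ε0 ε1
  have hE1 : ∀ s, Prim r (E s) := by
    rintro (i | i)
    · exact hp0 i
    · exact hp1 i
  have hE2 : ∀ s t, s ≠ t → E s * E t = 0 := by
    rintro (i | i) (j | j) hst
    · exact ho0 i j fun h => hst (by rw [h])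
    · exact h01 i j
    · exact h10 i j
    · exact ho1 i j fun h => hst (by rw [h])
  have hE3 : ∑ s, E s = 1 := by
    rw [Fintype.sum_sum_type]
    change ∑ i, ε0 i + ∑ i, ε1 i = 1
    rw [hs0, hs1]
    abel
  have hE4 : ∀ s t, s ≠ t → LinearMap.trace k T (Q (E s) * E t) = 0 := by
    rintro (i | i) (j | j) hst
    · exact key6 _ j (hp0 i).1 (tN0 i) (ho0 j i fun h => hst (by rw [h]))
    · exact key5 _ j (hp0 i).1 (tN0 i) (h01 i j)
    · rw [hsym]
      exact key5 _ i (hp0 j).1 (tN0 j) (h01 j i)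
    · exact key5 _ j (hp1 i).1 (tN1 i) (ho1 i j fun h => hst (by rw [h]))
  refine ⟨n0 + n1, fun i => E (finSumFinEquiv.symm i), fun i => hE1 _, fun i j hij => ?_, ?_,
    fun i j hij => ?_⟩
  · exact hE2 _ _ fun h => hij (finSumFinEquiv.symm.injective h)
  · rw [← hE3]
    exact finSumFinEquiv.symm.sum_comp E
  · exact hE4 _ _ fun h => hij (finSumFinEquiv.symm.injective h)

end Pool.BenStar
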