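import Pool.Agent.Work.MP_26c40d_31.Interface

/-!
# Block CENT: a nontrivial representation of a 2-group has a central involution in its image
-/

set_option autoImplicit false

namespace Pool.BenStar

theorem stmt_CENT : Stmt_CENT := by
  intro k G V _ _ _ _ _ ρ hG hne
  let φ : G →* (V →ₗ[k] V)ˣ := ρ.asGroupHom
  have hφ : ∀ g, ((φ g : (V →ₗ[k] V)ˣ) : V →ₗ[k] V) = ρ g := fun g => ρ.asGroupHom_apply g
  let H : Subgroup (V →ₗ[k] V)ˣ := φ.range
  have hH : IsPGroup 2 H := hG.of_surjective φ.rangeRestrict φ.rangeRestrict_surjective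
  have hfin : Finite H := Finite.of_surjective φ.rangeRestrict φ.rangeRestrict_surjective
  obtain ⟨g0, hg0⟩ := hne
  have hnt : Nontrivial H := by
    refine ⟨⟨⟨φ g0, ⟨g0, rfl⟩⟩, 1, ?_⟩⟩
    intro h
    apply hg0
    have h1 : φ g0 = 1 := congrArg Subtype.val h
    rw [← hφ g0, h1]
    rfl
  have hc : Nontrivial (Subgroup.center H) := hH.center_nontrivial
  obtain ⟨c, hc1⟩ := exists_ne (1 : Subgroup.center H)
  have hpow : ∃ n : ℕ, (c : H) ^ (2 ^ n) = 1 := hH (c : H)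
  classical
  have hmin := Nat.find_spec hpow
  set n := Nat.find hpow with hn
  have hn0 : n ≠ 0 := by
    intro h0
    rw [h0] at hmin
    apply hc1
    have : (c : H) = 1 := by simpa using hmin
    exact Subtype.ext this
  obtain ⟨m, hm⟩ : ∃ m, n = m + 1 := ⟨n - 1, by omega⟩
  have hlt : ¬ (c : H) ^ (2 ^ m) = 1 := Nat.find_min hpow (by omega)
  let y : H := (c : H) ^ (2 ^ m)
  have hy2 : y * y = 1 := by
    change (c : H) ^ (2 ^ m) * (c : H) ^ (2 ^ m) = 1
    rw [← pow_add]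
    have : 2 ^ m + 2 ^ m = 2 ^ n := by rw [hm, pow_succ]; ring
    rw [this]
    exact hmin
  have hycen : ∀ h : H, y * h = h * y := by
    intro h
    have h1 : (c : H) ∈ Subgroup.center H := c.2
    have h2 : y ∈ Subgroup.center H := Subgroup.pow_mem _ h1 _
    exact (Subgroup.mem_center_iff.mp h2 h).symm
  obtain ⟨z, hz⟩ := y.2
  have hz' : ρ z = ((y : (V →ₗ[k] V)ˣ) : V →ₗ[k] V) := by
    rw [← hφ z, hz]
  refine ⟨z, ⟨?_, ?_⟩, ?_⟩
  · intro g
    have h1 := hycen ⟨φ g, ⟨g, rfl⟩⟩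
    have h2 : (y : (V →ₗ[k] V)ˣ) * φ g = φ g * y := congrArg Subtype.val h1
    have h3 := congrArg (fun u : (V →ₗ[k] V)ˣ => (u : V →ₗ[k] V)) h2
    simp only [Units.val_mul, hφ] at h3
    rw [hz']
    exact h3
  · have h2 : (y : (V →ₗ[k] V)ˣ) * y = 1 := congrArg Subtype.val hy2
    have h3 := congrArg (fun u : (V →ₗ[k] V)ˣ => (u : V →ₗ[k] V)) h2
    simp only [Units.val_mul, Units.val_one] at h3
    rw [hz']
    exact h3
  · intro h1
    apply hlt
    rw [hz'] at h1
    have h2 : (y : (V →ₗ[k] V)ˣ) = 1 := Units.ext h1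
    exact Subtype.ext h2

end Pool.BenStar
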