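import Pool.Agent.Work.MP_26c40d_31.ConvProj

/-!
# MP_26c40d_al: CONV (helper22)
-/

set_option autoImplicit false

namespace Pool.BenStar

open Module TensorProduct

open CONV in
/-- CONV, from PRIM. -/
theorem stmt_CONV (hPRIM : Stmt_PRIM) : Stmt_CONV := by
  intro k G V _ _ _ _ _ _ ρ hodd hstar
  classical
  set σ : G → Module.End k (V ⊗[k] Module.Dual k V) := fun g => (ρ.tprod ρ.dual) g with hσ
  set b : Basis (Fin (finrank k V)) k V := Module.finBasis k V with hb
  set o : V ⊗[k] Module.Dual k V := one b with ho
  have hcast : ∀ n : ℕ, (n : k) = 0 ↔ Even n := fun n => by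
    rw [CharP.cast_eq_zero_iff k 2, even_iff_two_dvd]
  have hpo : pair o = 1 := by
    have h1 : pair o = ((finrank k V : ℕ) : k) := by
      rw [ho, one, map_sum]
      simp
    rw [h1]
    obtain ⟨r, hr⟩ := hodd
    rw [hr]
    push_cast
    have h2 : (2 : k) = 0 := by
      have := (hcast 2).2 (by decide)
      exact_mod_cast this
    rw [h2, zero_mul, zero_add]
  have hone : (1 : k) ≠ 0 := one_ne_zero
  have ho0 : o ≠ 0 := by
    intro h
    rw [h, map_zero] at hpo
    exact hone hpo.symm
  have hact : ∀ g, σ g o = o := fun g => one_act ρ b g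
  have hpair : ∀ g m, pair (σ g m) = pair m := fun g m => pair_act ρ g m
  -- the projection onto `k o`
  set e0 : Module.End k (V ⊗[k] Module.Dual k V) := pair.smulRight o with he0
  have e0_apply : ∀ m, e0 m = pair m • o := fun m => rfl
  have e0_com : Com σ e0 := by
    intro g
    refine LinearMap.ext fun m => ?_
    rw [Module.End.mul_apply, Module.End.mul_apply, e0_apply, e0_apply, hpair, map_smul, hact]
  have e0_id : e0 * e0 = e0 := by
    refine LinearMap.ext fun m => ?_
    rw [Module.End.mul_apply, e0_apply, e0_apply, map_smul, hpo, smul_eq_mul, mul_one]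
  have e0_ne : e0 ≠ 0 := by
    intro h
    have h1 := congrArg (fun f : Module.End k (V ⊗[k] Module.Dual k V) => f o) h
    simp only [e0_apply, hpo, one_smul, LinearMap.zero_apply] at h1
    exact ho0 h1
  have e0_prim : Prim σ e0 := by
    refine ⟨e0_com, e0_id, e0_ne, ?_⟩
    intro f _ hff hef hfe
    have h1 : f o = pair (f o) • o := by
      conv_lhs => rw [← hef]
      rfl
    set c := pair (f o) with hc
    have h2 : ∀ m, f m = (pair m * c) • o := by
      intro m
      conv_lhs => rw [← hfe]
      rw [Module.End.mul_apply, e0_apply, map_smul, h1, smul_smul]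
    have h3 : c * c = c := by
      have h4 : f (f o) = f o := by rw [← Module.End.mul_apply, hff]
      rw [h1, map_smul, h1] at h4
      have h5 := congrArg pair h4
      simp only [map_smul, hpo, smul_eq_mul, mul_one] at h5
      exact h5
    rcases mul_eq_zero.1 (show c * (c - 1) = 0 by rw [mul_sub, h3, mul_one, sub_self]) with h | h
    · left
      refine LinearMap.ext fun m => ?_
      rw [h2, h, mul_zero, zero_smul]
      rfl
    · right
      refine LinearMap.ext fun m => ?_
      rw [h2, sub_eq_zero.1 h, mul_one, e0_apply]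
  have e_com : Com σ (1 - e0) := by
    intro g
    rw [sub_mul, mul_sub, one_mul, mul_one, e0_com g]
  have e_id : (1 - e0) * (1 - e0) = 1 - e0 := by
    rw [sub_mul, one_mul, mul_sub, mul_one, e0_id, sub_self, sub_zero]
  obtain ⟨n, ε, hprim, hor, hsum⟩ := hPRIM k _ G σ (1 - e0) e_com e_id
  have hεe : ∀ i, ε i * (1 - e0) = ε i := by
    intro i
    rw [← hsum, Finset.mul_sum, Finset.sum_eq_single i]
    · exact (hprim i).2.1
    · intro j _ hj
      exact hor i j hj.symm
    · intro h
      exact absurd (Finset.mem_univ i) h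
  have heε : ∀ i, (1 - e0) * ε i = ε i := by
    intro i
    rw [← hsum, Finset.sum_mul, Finset.sum_eq_single i]
    · exact (hprim i).2.1
    · intro j _ hj
      exact hor j i hj
    · intro h
      exact absurd (Finset.mem_univ i) h
  have hε0 : ∀ i, ε i * e0 = 0 := by
    intro i
    have := hεe i
    rw [mul_sub, mul_one, sub_eq_self] at this
    exact this
  have h0ε : ∀ i, e0 * ε i = 0 := by
    intro i
    have := heε i
    rw [sub_mul, one_mul, sub_eq_self] at this
    exact this
  set ε' : Fin (n + 1) → Module.End k (V ⊗[k] Module.Dual k V) := Fin.cons e0 ε with hε'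
  have c0 : ε' 0 = e0 := rfl
  have cs : ∀ i : Fin n, ε' i.succ = ε i := fun i => rfl
  have hprim' : ∀ i, Prim σ (ε' i) := by
    intro i
    refine Fin.cases ?_ (fun i => ?_) i
    · rw [c0]; exact e0_prim
    · rw [cs]; exact hprim i
  have hor' : ∀ i j, i ≠ j → ε' i * ε' j = 0 := by
    intro i j
    refine Fin.cases ?_ (fun i => ?_) i
    · refine Fin.cases ?_ (fun j => ?_) j
      · intro h; exact absurd rfl h
      · intro _; rw [c0, cs]; exact h0ε j
    · refine Fin.cases ?_ (fun j => ?_) j
      · intro _; rw [c0, cs]; exact hε0 i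
      · intro h; rw [cs, cs]; exact hor i j fun h' => h (by rw [h'])
  have hsum' : ∑ i, ε' i = 1 := by
    rw [Fin.sum_univ_succ, c0]
    simp only [cs]
    rw [hsum]
    abel
  refine ⟨n, fun i => LinearMap.range (ε' i), internal ε' (fun i => (hprim' i).2.1) hor' hsum',
    ?_, ?_, ?_, ?_, ?_⟩
  · rintro i g _ ⟨y, rfl⟩
    have h1 := congrArg (fun f : Module.End k (V ⊗[k] Module.Dual k V) => f y) ((hprim' i).1 g)
    simp only [Module.End.mul_apply] at h1
    exact ⟨σ g y, h1⟩
  · intro i
    refine ⟨fun h => (hprim' i).2.2.1 (LinearMap.range_eq_bot.1 h), ?_⟩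
    intro A B hA hB hAe hBe hd hs
    exact indec_of_prim σ (hprim' i) A B hA hB hAe hBe hd hs
  · have h1 : LinearMap.range (ε' 0) = Submodule.span k {o} := by
      rw [c0]
      apply le_antisymm
      · rintro _ ⟨y, rfl⟩
        rw [e0_apply]
        exact Submodule.smul_mem _ _ (Submodule.mem_span_singleton_self o)
      · rw [Submodule.span_singleton_le_iff_mem]
        exact ⟨o, by rw [e0_apply, hpo, one_smul]⟩
    change finrank k (LinearMap.range (ε' 0)) = 1
    rw [h1]
    exact finrank_span_singleton ho0
  · rintro _ ⟨y, rfl⟩ g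
    rw [c0, e0_apply]
    change σ g _ = _
    rw [map_smul, hact]
  · intro i hi
    obtain ⟨j, rfl⟩ := Fin.exists_succ_eq.2 hi
    have h1 := hstar (Fin (finrank k V)) b (form (ε j)) (fun g => form_inv ρ (ε j) (hprim j).1 g)
    rw [TR_form] at h1
    have h2 : pair (ε j o) = 0 := by
      have h3 := congrArg (fun f : Module.End k (V ⊗[k] Module.Dual k V) => f o) (h0ε j)
      simp only [Module.End.mul_apply, LinearMap.zero_apply, e0_apply] at h3
      exact (smul_eq_zero.1 h3).resolve_right ho0
    change pair (ε j o) + _ = 0 at h1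
    rw [h2, zero_add, trace_idem (hprim j).2.1] at h1
    change Even (finrank k (LinearMap.range (ε' j.succ)))
    rw [cs]
    exact (hcast _).1 h1

end Pool.BenStar
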