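import Pool.Agent.Work.MP_26c40d_31.ConvProj

/-!
# MP_26c40d_al: CONV2 (helper22)
-/

set_option autoImplicit false

namespace Pool.BenStar

open Module TensorProduct

namespace CONV

variable {k M Γ : Type} [Field k] [AddCommGroup M] [Module k M] (σ : Γ → Module.End k M)

theorem com_apply {f : Module.End k M} (h : Com σ f) (g : Γ) (x : M) :
    f (σ g x) = σ g (f x) :=
  congrArg (fun f : Module.End k M => f x) (h g)

theorem com_mul {f f' : Module.End k M} (h : Com σ f) (h' : Com σ f') : Com σ (f * f') := by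
  intro g
  rw [mul_assoc, h' g, ← mul_assoc, h g, mul_assoc]

/-- In the corner of a primitive idempotent of even rank all traces vanish. -/
theorem trace_corner [FiniteDimensional k M] [IsAlgClosed k] [CharP k 2] (hLOC : Stmt_LOC)
    {e : Module.End k M} (he : Prim σ e) (hev : Even (finrank k (LinearMap.range e)))
    {A : Module.End k M} (hA : Com σ A) : LinearMap.trace k M (A * e) = 0 := by
  obtain ⟨μ, hμ⟩ := hLOC k M Γ σ e A he hA
  have h1 := LinearMap.isNilpotent_trace_of_isNilpotent hμ
  have h2 : LinearMap.trace k M (e * A * e - μ • e) = 0 := h1.eq_zero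
  rw [map_sub, map_smul, trace_idem he.2.1] at h2
  have h3 : ((finrank k (LinearMap.range e) : ℕ) : k) = 0 := by
    rw [CharP.cast_eq_zero_iff k 2]
    exact even_iff_two_dvd.1 hev
  rw [h3, smul_zero, sub_zero] at h2
  rw [← h2, mul_assoc, LinearMap.trace_mul_comm k e (A * e), mul_assoc, he.2.1]

/-- An invariant functional and an invariant vector do not meet in an even part. -/
theorem inv_meet [FiniteDimensional k M] [IsAlgClosed k] [CharP k 2] (hLOC : Stmt_LOC)
    {e : Module.End k M} (he : Prim σ e) (hev : Even (finrank k (LinearMap.range e)))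
    (s : M →ₗ[k] k) (hs : ∀ g x, s (σ g x) = s x) (m : M) (hm : ∀ g, σ g m = m) :
    s (e m) = 0 := by
  have hA : Com σ (s.smulRight m) := by
    intro g
    refine LinearMap.ext fun x => ?_
    rw [Module.End.mul_apply, Module.End.mul_apply, LinearMap.smulRight_apply,
      LinearMap.smulRight_apply, hs, map_smul, hm]
  have h1 := trace_corner σ hLOC he hev hA
  have h2 : (s.smulRight m : Module.End k M) * e = (s ∘ₗ e).smulRight m := rfl
  rw [h2, LinearMap.trace_smulRight] at h1
  exact h1

/-- Projections onto the parts of a decomposition into indecomposables are primitive. -/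
theorem prim_of_indec {m : ℕ} (W : Fin m → Submodule k M) (ε : Fin m → Module.End k M)
    (hmem : ∀ i x, ε i x ∈ W i) (hfix : ∀ i, ∀ w ∈ W i, ε i w = w)
    (hkill : ∀ i j, i ≠ j → ∀ w ∈ W i, ε j w = 0) (hsum : ∑ i, ε i = 1)
    (hinv : ∀ i g, ∀ x ∈ W i, σ g x ∈ W i) (i : Fin m)
    (hne : W i ≠ ⊥)
    (hind : ∀ A B : Submodule k M, (∀ g, ∀ x ∈ A, σ g x ∈ A) → (∀ g, ∀ x ∈ B, σ g x ∈ B) →
      A ≤ W i → B ≤ W i → A ⊓ B = ⊥ → A ⊔ B = W i → A = ⊥ ∨ B = ⊥) :
    Prim σ (ε i) ∧ LinearMap.range (ε i) = W i := by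
  have hrange : LinearMap.range (ε i) = W i := by
    apply le_antisymm
    · rintro _ ⟨y, rfl⟩
      exact hmem i y
    · intro w hw
      exact ⟨w, hfix i w hw⟩
  have hid : ε i * ε i = ε i := LinearMap.ext fun x => hfix i _ (hmem i x)
  have hcom : Com σ (ε i) := by
    intro g
    refine LinearMap.ext fun x => ?_
    rw [Module.End.mul_apply, Module.End.mul_apply]
    have hx : x = ∑ j, ε j x := by
      rw [← LinearMap.sum_apply, hsum]
      rfl
    conv_lhs => rw [hx, map_sum, map_sum]
    rw [Finset.sum_eq_single i]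
    · exact hfix i _ (hinv i g _ (hmem i x))
    · intro j _ hj
      exact hkill j i hj _ (hinv j g _ (hmem j x))
    · intro h
      exact absurd (Finset.mem_univ i) h
  refine ⟨⟨hcom, hid, ?_, ?_⟩, hrange⟩
  · intro h
    apply hne
    rw [← hrange, h, LinearMap.range_zero]
  · intro f hf hff hef hfe
    set A := LinearMap.range f with hA
    set B := LinearMap.range (ε i - f) with hB
    have hg : (ε i - f) * (ε i - f) = ε i - f := by
      rw [sub_mul, mul_sub, mul_sub, hid, hef, hfe, hff, sub_self, sub_zero]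
    have hgcom : Com σ (ε i - f) := by
      intro g
      rw [sub_mul, mul_sub, hcom g, hf g]
    have h1 : ∀ g, ∀ x ∈ A, σ g x ∈ A := by
      rintro g _ ⟨y, rfl⟩
      exact ⟨σ g y, com_apply σ hf g y⟩
    have h2 : ∀ g, ∀ x ∈ B, σ g x ∈ B := by
      rintro g _ ⟨y, rfl⟩
      exact ⟨σ g y, com_apply σ hgcom g y⟩
    have h3 : A ≤ W i := by
      rintro _ ⟨y, rfl⟩
      rw [← hef]
      exact hmem i _
    have h4 : B ≤ W i := by
      rintro _ ⟨y, rfl⟩
      rw [LinearMap.sub_apply]
      exact Submodule.sub_mem _ (hmem i _) (h3 ⟨y, rfl⟩)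
    have h5 : A ⊓ B = ⊥ := by
      rw [Submodule.eq_bot_iff]
      rintro x ⟨hx, hx'⟩
      rw [hA, SetLike.mem_coe, mem_range_iff hff] at hx
      rw [hB, SetLike.mem_coe, mem_range_iff hg] at hx'
      have h6 : (ε i - f) (f x) = 0 := by
        rw [← Module.End.mul_apply, sub_mul, hef, hff, sub_self]
        rfl
      rw [hx, hx'] at h6
      exact h6
    have h6 : A ⊔ B = W i := by
      apply le_antisymm (sup_le h3 h4)
      intro w hw
      have h7 : w = f w + (ε i - f) w := by
        rw [LinearMap.sub_apply, hfix i w hw]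
        abel
      rw [h7]
      exact Submodule.add_mem_sup ⟨w, rfl⟩ ⟨w, rfl⟩
    rcases hind A B h1 h2 h3 h4 h5 h6 with h | h
    · left
      exact LinearMap.range_eq_bot.1 h
    · right
      have := LinearMap.range_eq_bot.1 h
      exact (sub_eq_zero.1 this).symm

end CONV

open CONV in
/-- CONV2, from LOC. -/
theorem stmt_CONV2 (hLOC : Stmt_LOC) : Stmt_CONV2 := by
  intro k G V _ _ _ _ _ _ _ ρ hodd hconcl ι _ b F hF
  classical
  obtain ⟨n, W, hint, hinv, hind, hW0, hfix0, heven⟩ := hconcl
  set σ : G → Module.End k (V ⊗[k] Module.Dual k V) := fun g => (ρ.tprod ρ.dual) g with hσ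
  obtain ⟨ε, hmem, hfix, hkill, hsum⟩ := projs W hint
  have hP : ∀ i, Prim σ (ε i) ∧ LinearMap.range (ε i) = W i := fun i =>
    prim_of_indec σ W ε hmem hfix hkill hsum (fun i g x hx => hinv i g x hx) i (hind i).1
      (hind i).2
  obtain ⟨f, hfF⟩ := exists_end b F
  have hfcom : Com σ f := end_com ρ b f (fun g => by rw [hfF]; exact hF g)
  rw [← hfF, TR_form]
  set o := one b with ho
  have hact : ∀ g, σ g o = o := fun g => one_act ρ b g
  have hpair : ∀ g m, pair (σ g m) = pair m := fun g m => pair_act ρ g m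
  have htwo : (2 : k) = 0 := by
    have : ((2 : ℕ) : k) = 0 := CharP.cast_eq_zero k 2
    exact_mod_cast this
  have hpo : pair o = 1 := by
    have h1 : pair o = ((Fintype.card ι : ℕ) : k) := by
      rw [ho, one, map_sum]
      simp
    rw [h1, ← finrank_eq_card_basis b]
    obtain ⟨r, hr⟩ := hodd
    rw [hr]
    push_cast
    rw [htwo, zero_mul, zero_add]
  have hev : ∀ i, i ≠ 0 → Even (finrank k (LinearMap.range (ε i))) := by
    intro i hi
    rw [(hP i).2]
    exact heven i hi
  have hres : ∀ m : V ⊗[k] Module.Dual k V, m = ∑ i, ε i m := by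
    intro m
    rw [← LinearMap.sum_apply, hsum]
    rfl
  -- an invariant functional on an invariant vector only sees the part `W 0`
  have hred : ∀ (s : (V ⊗[k] Module.Dual k V) →ₗ[k] k), (∀ g x, s (σ g x) = s x) →
      ∀ m, (∀ g, σ g m = m) → s m = s (ε 0 m) := by
    intro s hs m hm
    conv_lhs => rw [hres m, map_sum]
    rw [Finset.sum_eq_single 0]
    · intro i _ hi
      exact inv_meet σ hLOC (hP i).1 (hev i hi) s hs m hm
    · intro h
      exact absurd (Finset.mem_univ _) h
  -- the endomorphism on `W 0`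
  have hrank : finrank k (LinearMap.range (ε 0)) = 1 := by
    rw [(hP 0).2]; exact hW0
  obtain ⟨w, hw0, hw⟩ := finrank_eq_one_iff'.1 hrank
  obtain ⟨lam, hlam⟩ := hw ⟨ε 0 (f (w : V ⊗[k] Module.Dual k V)), ⟨_, rfl⟩⟩
  have hlam' : ε 0 (f (w : V ⊗[k] Module.Dual k V)) = lam • (w : V ⊗[k] Module.Dual k V) :=
    (congrArg Subtype.val hlam).symm
  have hcorner : ∀ m, ε 0 (f (ε 0 m)) = lam • ε 0 m := by
    intro m
    obtain ⟨c, hc⟩ := hw ⟨ε 0 m, ⟨_, rfl⟩⟩
    have hc' : ε 0 m = c • (w : V ⊗[k] Module.Dual k V) := (congrArg Subtype.val hc).symm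
    rw [hc', map_smul, map_smul, hlam', smul_comm]
  have htr : LinearMap.trace k _ f = lam := by
    have h1 : f = ∑ i, f * ε i := by
      rw [← Finset.mul_sum, hsum, mul_one]
    conv_lhs => rw [h1, map_sum]
    rw [Finset.sum_eq_single 0]
    · have h2 : ε 0 * (f * ε 0) = lam • ε 0 := LinearMap.ext fun m => hcorner m
      have h3 : LinearMap.trace k _ (f * ε 0) = LinearMap.trace k _ (ε 0 * (f * ε 0)) := by
        rw [LinearMap.trace_mul_comm k (ε 0) (f * ε 0), mul_assoc, (hP 0).1.2.1]
      rw [h3, h2, map_smul, trace_idem (hP 0).1.2.1, hrank, Nat.cast_one, smul_eq_mul, mul_one]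
    · intro i _ hi
      exact trace_corner σ hLOC (hP i).1 (hev i hi) hfcom
    · intro h
      exact absurd (Finset.mem_univ _) h
  have hfo : ∀ g, σ g (f o) = f o := by
    intro g
    rw [← com_apply σ hfcom, hact]
  have h0com : Com σ (ε 0) := (hP 0).1.1
  have hpf : pair (f o) = lam := by
    rw [hred pair hpair (f o) hfo]
    have h1 := hred (pair ∘ₗ (ε 0 * f)) (fun g x => by
      rw [LinearMap.comp_apply, LinearMap.comp_apply, com_apply σ (com_mul σ h0com hfcom) g x,
        hpair]) o hact
    rw [LinearMap.comp_apply, LinearMap.comp_apply, Module.End.mul_apply, Module.End.mul_apply,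
      hcorner, map_smul] at h1
    rw [h1, ← hred pair hpair o hact, hpo, smul_eq_mul, mul_one]
  rw [hpf, htr, ← two_mul, htwo, zero_mul]

end Pool.BenStar
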