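import Pool.Agent.Work.MP_26c40d_31.Interface

/-!
# CTR (helper83): contractions do not depend on the basis
-/

set_option autoImplicit false

namespace Pool.BenStar

open Module

theorem stmt_CTR : Stmt_CTR := by
  intro k V W ι κ _ _ _ _ _ _ _ b c i j B
  have h1 : ∀ x, B (b.coord x) (i (j (b x))) =
      ∑ y, c.coord y (j (b x)) • B (b.coord x) (i (c y)) := by
    intro x
    have e : j (b x) = ∑ y, c.coord y (j (b x)) • c y := (c.sum_repr (j (b x))).symm
    conv_lhs => rw [e]
    rw [map_sum, map_sum]
    exact Finset.sum_congr rfl fun y _ => by rw [map_smul, map_smul]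
  rw [Finset.sum_congr rfl fun x _ => h1 x, Finset.sum_comm]
  refine Finset.sum_congr rfl fun y _ => ?_
  have e2 : c.coord y ∘ₗ j = ∑ x, (c.coord y ∘ₗ j) (b x) • b.coord x := by
    refine b.ext fun x => ?_
    rw [LinearMap.sum_apply, Finset.sum_eq_single x]
    · simp
    · intro x' _ hx'
      simp [Finsupp.single_eq_of_ne hx']
    · intro h
      exact absurd (Finset.mem_univ x) h
  conv_rhs => rw [e2]
  rw [map_sum, LinearMap.sum_apply]
  refine Finset.sum_congr rfl fun x _ => ?_
  rw [map_smul, LinearMap.smul_apply]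
  rfl

end Pool.BenStar
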