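import Pool.Agent.Work.MP_26c40d_31.Interface

/-!
# Block EVEN: primitive idempotents of even rank do not contribute to the trace
-/

set_option autoImplicit false

namespace Pool.BenStar

open Module

namespace EVEN

section
variable {k V ι : Type} [Field k] [AddCommGroup V] [Module k V] [Fintype ι]

/-- the endomorphism `A` with `p (A v) = ∑ i, F (b i)* p (Y (b i)) v` -/
noncomputable def opA (F : F4 k V) (B : Basis ι k V) (Y : Module.End k V) : Module.End k V :=
  ∑ j, (∑ i, F (B.coord i) (B.coord j) (Y (B i))).smulRight (B j)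

/-- the endomorphism `A'` with `p (A' v) = ∑ i, F (b i)* p v (Y (b i))` -/
noncomputable def opB (F : F4 k V) (B : Basis ι k V) (Y : Module.End k V) : Module.End k V :=
  ∑ j, (∑ i, (F (B.coord i) (B.coord j)).flip (Y (B i))).smulRight (B j)

theorem func_eq (B : Basis ι k V) (p : V →ₗ[k] k) : p = ∑ j, p (B j) • B.coord j := by
  apply B.ext
  intro i
  classical
  rw [LinearMap.sum_apply]
  simp only [LinearMap.smul_apply, Basis.coord_apply, Basis.repr_self, smul_eq_mul]
  rw [Finset.sum_eq_single i]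
  · simp
  · intro j _ hj
    rw [Finsupp.single_eq_of_ne hj]
    simp
  · intro h
    exact absurd (Finset.mem_univ i) h

theorem opA_apply (F : F4 k V) (B : Basis ι k V) (Y : Module.End k V) (p : V →ₗ[k] k) (v : V) :
    p (opA F B Y v) = ∑ i, F (B.coord i) p (Y (B i)) v := by
  unfold opA
  rw [LinearMap.sum_apply, map_sum]
  have h1 : ∀ i, F (B.coord i) p (Y (B i)) v
      = ∑ j, p (B j) * F (B.coord i) (B.coord j) (Y (B i)) v := by
    intro i
    conv_lhs => rw [func_eq B p]
    rw [map_sum, LinearMap.sum_apply, LinearMap.sum_apply]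
    refine Finset.sum_congr rfl fun j _ => ?_
    rw [map_smul]
    simp
  rw [Finset.sum_congr rfl fun i _ => h1 i, Finset.sum_comm]
  refine Finset.sum_congr rfl fun j _ => ?_
  rw [LinearMap.smulRight_apply, map_smul, LinearMap.sum_apply, smul_eq_mul, Finset.sum_mul]
  refine Finset.sum_congr rfl fun i _ => ?_
  ring

theorem opB_apply (F : F4 k V) (B : Basis ι k V) (Y : Module.End k V) (p : V →ₗ[k] k) (v : V) :
    p (opB F B Y v) = ∑ i, F (B.coord i) p v (Y (B i)) := by
  unfold opB
  rw [LinearMap.sum_apply, map_sum]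
  have h1 : ∀ i, F (B.coord i) p v (Y (B i))
      = ∑ j, p (B j) * F (B.coord i) (B.coord j) v (Y (B i)) := by
    intro i
    conv_lhs => rw [func_eq B p]
    rw [map_sum, LinearMap.sum_apply, LinearMap.sum_apply]
    refine Finset.sum_congr rfl fun j _ => ?_
    rw [map_smul]
    simp
  rw [Finset.sum_congr rfl fun i _ => h1 i, Finset.sum_comm]
  refine Finset.sum_congr rfl fun j _ => ?_
  rw [LinearMap.smulRight_apply, map_smul, LinearMap.sum_apply, smul_eq_mul, Finset.sum_mul]
  refine Finset.sum_congr rfl fun i _ => ?_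
  rw [LinearMap.flip_apply]
  ring

theorem trace_eq (B : Basis ι k V) (f : Module.End k V) :
    LinearMap.trace k V f = ∑ j, B.coord j (f (B j)) := by
  classical
  rw [LinearMap.trace_eq_matrix_trace k B f, Matrix.trace]
  refine Finset.sum_congr rfl fun j _ => ?_
  rw [Matrix.diag_apply, LinearMap.toMatrix_apply]
  rfl

/-- the trace is the sum of two traces -/
theorem TR_eq (F : F4 k V) (B : Basis ι k V) (Y e : Module.End k V) :
    TR B F Y e = LinearMap.trace k V (opA F B Y * e) + LinearMap.trace k V (opB F B Y * e) := by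
  rw [trace_eq B, trace_eq B, ← Finset.sum_add_distrib]
  unfold TR
  rw [Finset.sum_comm]
  refine Finset.sum_congr rfl fun j _ => ?_
  rw [Module.End.mul_apply, Module.End.mul_apply, opA_apply, opB_apply, ← Finset.sum_add_distrib]

/-- basis change, from CTR -/
theorem basis_change (hCTR : Stmt_CTR) {κ : Type} [Fintype κ] (B : Basis ι k V) (C : Basis κ k V)
    (β : (V →ₗ[k] k) →ₗ[k] V →ₗ[k] k) :
    ∑ x, β (B.coord x) (B x) = ∑ y, β (C.coord y) (C y) := by
  have h := hCTR k V V ι κ B C LinearMap.id LinearMap.id β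
  simpa using h

theorem coord_map (B : Basis ι k V) (g : V ≃ₗ[k] V) (i : ι) :
    (B.map g).coord i ∘ₗ (g : V →ₗ[k] V) = B.coord i := by
  apply LinearMap.ext
  intro v
  simp [Basis.coord_apply, Basis.map_repr]

theorem ext_func {x y : V} (B : Basis ι k V) (h : ∀ p : V →ₗ[k] k, p x = p y) : x = y := by
  apply B.ext_elem
  intro i
  exact h (B.coord i)

theorem com_opA (hCTR : Stmt_CTR) (F : F4 k V) (B : Basis ι k V) (Y : Module.End k V)
    (g : V ≃ₗ[k] V) (hF : Inv F (g : V →ₗ[k] V))
    (hY : Y * ((g : V →ₗ[k] V) : Module.End k V) = ((g : V →ₗ[k] V) : Module.End k V) * Y) :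
    opA F B Y * ((g : V →ₗ[k] V) : Module.End k V)
      = ((g : V →ₗ[k] V) : Module.End k V) * opA F B Y := by
  apply LinearMap.ext
  intro v
  apply ext_func B
  intro p
  change p (opA F B Y (g v)) = (p ∘ₗ (g : V →ₗ[k] V)) (opA F B Y v)
  rw [opA_apply, opA_apply]
  have hch := basis_change hCTR B (B.map g)
    ((LinearMap.mk₂ k (fun (p' : V →ₗ[k] k) (v' : V) => F p' p (Y v') (g v))
      (fun a b c => by simp) (fun a b c => by simp) (fun a b c => by simp)
      (fun a b c => by simp)) : (V →ₗ[k] k) →ₗ[k] V →ₗ[k] k)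
  simp only [LinearMap.mk₂_apply] at hch
  rw [hch]
  refine Finset.sum_congr rfl fun i _ => ?_
  rw [Basis.map_apply]
  have hYg : Y (g (B i)) = g (Y (B i)) := LinearMap.congr_fun hY (B i)
  rw [hYg]
  have := hF ((B.map g).coord i) p (Y (B i)) v
  rw [coord_map] at this
  exact this.symm

theorem com_opB (hCTR : Stmt_CTR) (F : F4 k V) (B : Basis ι k V) (Y : Module.End k V)
    (g : V ≃ₗ[k] V) (hF : Inv F (g : V →ₗ[k] V))
    (hY : Y * ((g : V →ₗ[k] V) : Module.End k V) = ((g : V →ₗ[k] V) : Module.End k V) * Y) :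
    opB F B Y * ((g : V →ₗ[k] V) : Module.End k V)
      = ((g : V →ₗ[k] V) : Module.End k V) * opB F B Y := by
  apply LinearMap.ext
  intro v
  apply ext_func B
  intro p
  change p (opB F B Y (g v)) = (p ∘ₗ (g : V →ₗ[k] V)) (opB F B Y v)
  rw [opB_apply, opB_apply]
  have hch := basis_change hCTR B (B.map g)
    ((LinearMap.mk₂ k (fun (p' : V →ₗ[k] k) (v' : V) => F p' p (g v) (Y v'))
      (fun a b c => by simp) (fun a b c => by simp) (fun a b c => by simp)
      (fun a b c => by simp)) : (V →ₗ[k] k) →ₗ[k] V →ₗ[k] k)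
  simp only [LinearMap.mk₂_apply] at hch
  rw [hch]
  refine Finset.sum_congr rfl fun i _ => ?_
  rw [Basis.map_apply]
  have hYg : Y (g (B i)) = g (Y (B i)) := LinearMap.congr_fun hY (B i)
  rw [hYg]
  have := hF ((B.map g).coord i) p v (Y (B i))
  rw [coord_map] at this
  exact this.symm

/-- the trace against a primitive idempotent of even rank -/
theorem trace_zero [IsAlgClosed k] [CharP k 2] [FiniteDimensional k V] (hLOC : Stmt_LOC)
    {Γ : Type} (ρ : Γ → Module.End k V) (e A : Module.End k V) (he : Prim ρ e)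
    (hev : Even (finrank k (LinearMap.range e))) (hA : Com ρ A) :
    LinearMap.trace k V (A * e) = 0 := by
  obtain ⟨μ, hμ⟩ := hLOC k V Γ ρ e A he hA
  have hee : e * e = e := he.2.1
  have h1 : LinearMap.trace k V (A * e) = LinearMap.trace k V (e * A * e) := by
    calc LinearMap.trace k V (A * e) = LinearMap.trace k V ((A * e) * e) := by
          rw [mul_assoc, hee]
      _ = LinearMap.trace k V (e * (A * e)) := LinearMap.trace_mul_comm k _ _
      _ = _ := by rw [mul_assoc]
  have h2 : LinearMap.trace k V (e * A * e - μ • e) = 0 :=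
    (LinearMap.isNilpotent_trace_of_isNilpotent hμ).eq_zero
  have hproj : LinearMap.IsProj (LinearMap.range e) e :=
    LinearMap.isProj_range_iff_isIdempotentElem e |>.mpr hee
  have h3 : LinearMap.trace k V e = (finrank k (LinearMap.range e) : k) := hproj.trace
  rw [map_sub, map_smul, h3] at h2
  obtain ⟨m, hm⟩ := hev
  have h4 : (finrank k (LinearMap.range e) : k) = 0 := by
    rw [hm, Nat.cast_add]
    exact CharTwo.add_self_eq_zero _
  rw [h4, smul_zero, sub_zero] at h2
  rw [h1, h2]

/-- exchange of the two functionals -/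
noncomputable def sw (F : F4 k V) : F4 k V := F.flip

theorem sw_apply (F : F4 k V) (p q : V →ₗ[k] k) : sw F p q = F q p := rfl

theorem TR_sw (F : F4 k V) (B : Basis ι k V) (Y e : Module.End k V) :
    TR B F e Y = TR B (sw F) Y e := by
  unfold TR
  rw [Finset.sum_comm]
  refine Finset.sum_congr rfl fun j _ => Finset.sum_congr rfl fun i _ => ?_
  rw [sw_apply, add_comm]

end

end EVEN

open EVEN in
theorem stmt_EVEN (hLOC : Stmt_LOC) (hCTR : Stmt_CTR) : Stmt_EVEN := by
  intro k V Γ ι _ _ _ _ _ _ _ ρ F B e Y hF he hev hY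
  have main : ∀ F : F4 k V, (∀ γ, Inv F (ρ γ : V →ₗ[k] V)) → TR B F Y e = 0 := by
    intro F hF
    rw [TR_eq]
    rw [trace_zero hLOC _ e (opA F B Y) he hev
        (fun γ => com_opA hCTR F B Y (ρ γ) (hF γ) (hY γ)),
      trace_zero hLOC _ e (opB F B Y) he hev
        (fun γ => com_opB hCTR F B Y (ρ γ) (hF γ) (hY γ)), add_zero]
  refine ⟨main F hF, ?_⟩
  rw [TR_sw]
  apply main
  intro γ p q v w
  exact hF γ q p v w

end Pool.BenStar
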