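import Pool.Agent.Work.MP_26c40d_31.Interface

/-!
# Block HEX: the heart of a central involution exists
-/

set_option autoImplicit false

namespace Pool.BenStar

theorem stmt_HEX : Stmt_HEX := by
  intro k G V _ _ _ _ _ ρ z hz
  obtain ⟨hcomm, -⟩ := hz
  have hc : ∀ (g : G) (v : V), (ρ z - 1) (ρ g v) = ρ g ((ρ z - 1) v) := by
    intro g v
    have h1 : ρ z (ρ g v) = ρ g (ρ z v) := LinearMap.congr_fun (hcomm g) v
    simp only [LinearMap.sub_apply, Module.End.one_apply, map_sub, h1]
  have hker : ∀ (g : G), ∀ v ∈ LinearMap.ker (ρ z - 1), ρ g v ∈ LinearMap.ker (ρ z - 1) := by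
    intro g v hv
    rw [LinearMap.mem_ker] at hv ⊢
    rw [hc, hv, map_zero]
  let R : Submodule k (LinearMap.ker (ρ z - 1)) :=
    (LinearMap.range (ρ z - 1)).comap (LinearMap.ker (ρ z - 1)).subtype
  let f : G → LinearMap.ker (ρ z - 1) →ₗ[k] LinearMap.ker (ρ z - 1) :=
    fun g => (ρ g).restrict (hker g)
  have hf : ∀ g (v : LinearMap.ker (ρ z - 1)), ((f g v : LinearMap.ker (ρ z - 1)) : V) = ρ g v :=
    fun g v => rfl
  have hR : ∀ g, R ≤ R.comap (f g) := by
    intro g v hv
    obtain ⟨u, hu⟩ := hv
    refine ⟨ρ g u, ?_⟩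
    change (ρ z - 1) (ρ g u) = ρ g v
    rw [hc]
    exact congrArg (ρ g) hu
  let τ : Representation k G (LinearMap.ker (ρ z - 1) ⧸ R) :=
    { toFun := fun g => R.mapQ R (f g) (hR g)
      map_one' := by
        apply LinearMap.ext
        intro x
        obtain ⟨v, rfl⟩ := Submodule.Quotient.mk_surjective R x
        change Submodule.Quotient.mk (f 1 v) = Submodule.Quotient.mk v
        congr 1
        apply Subtype.ext
        rw [hf, map_one]
        rfl
      map_mul' := by
        intro g h
        apply LinearMap.ext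
        intro x
        obtain ⟨v, rfl⟩ := Submodule.Quotient.mk_surjective R x
        change Submodule.Quotient.mk (f (g * h) v) = Submodule.Quotient.mk (f g (f h v))
        congr 1
        apply Subtype.ext
        rw [hf, hf, hf, map_mul]
        rfl }
  refine ⟨LinearMap.ker (ρ z - 1) ⧸ R, inferInstance, inferInstance, inferInstance, τ, R.mkQ,
    R.mkQ_surjective, ?_, ?_⟩
  · intro v
    rw [Submodule.mkQ_apply, Submodule.Quotient.mk_eq_zero]
    rfl
  · intro g v h
    rfl

end Pool.BenStar
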