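import Pool.Agent.Work.MP_26c40d_31.Interface

/-!
# MP_26c40d_al, block IDEM (helper6)
-/

set_option autoImplicit false

namespace Pool.BenStar

open Module Polynomial

theorem stmt_IDEM : Stmt_IDEM := by
  intro k V _ _ _ _ Y hY
  have hint : IsIntegral k Y := Algebra.IsIntegral.isIntegral Y
  have hp0 : minpoly k Y ≠ 0 := minpoly.ne_zero hint
  obtain ⟨m, q, hq, hpq⟩ : ∃ (m : ℕ) (q : k[X]), ¬ (X : k[X]) ∣ q ∧ minpoly k Y = X ^ m * q := by
    have hfin : FiniteMultiplicity (X : k[X]) (minpoly k Y) :=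
      FiniteMultiplicity.of_prime_left prime_X hp0
    obtain ⟨q, h1, h2⟩ := hfin.exists_eq_pow_mul_and_not_dvd
    exact ⟨_, q, h2, h1⟩
  have hcop : IsCoprime ((X : k[X]) ^ (m + 1)) q :=
    (IsCoprime.pow_left ((irreducible_X.coprime_iff_not_dvd).2 hq))
  obtain ⟨a, b, hab⟩ := hcop
  have hann : Y ^ m * aeval Y q = 0 := by
    have h := minpoly.aeval k Y
    rw [hpq, map_mul, map_pow, aeval_X] at h
    exact h
  have hab' : aeval Y a * Y ^ (m + 1) + aeval Y b * aeval Y q = 1 := by
    have h := congrArg (aeval Y) hab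
    rwa [map_add, map_mul, map_mul, map_pow, aeval_X, map_one] at h
  have hcomm : ∀ f g : k[X], aeval Y f * aeval Y g = aeval Y g * aeval Y f := by
    intro f g
    rw [← map_mul, ← map_mul, mul_comm]
  have hYp : ∀ (n : ℕ), Y ^ n = aeval Y ((X : k[X]) ^ n) := by
    intro n
    rw [map_pow, aeval_X]
  refine ⟨aeval Y (a * X ^ m), aeval_mem_adjoin_singleton k Y, ?_, ?_⟩
  · have he : aeval Y (a * X ^ m) * Y = aeval Y a * Y ^ (m + 1) := by
      rw [map_mul, map_pow, aeval_X, pow_succ, mul_assoc]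
    rw [he]
    have h1 : aeval Y a * Y ^ (m + 1) = 1 - aeval Y b * aeval Y q := by
      rw [← hab', add_sub_cancel_right]
    have h2 : aeval Y a * Y ^ (m + 1) * (aeval Y b * aeval Y q) = 0 := by
      have : aeval Y a * Y ^ (m + 1) * (aeval Y b * aeval Y q)
          = aeval Y a * Y * aeval Y b * (Y ^ m * aeval Y q) := by
        rw [hYp (m + 1), hYp m]
        conv_rhs => rw [show Y = aeval Y (X : k[X]) from (aeval_X Y).symm]
        simp only [aeval_X]
        rw [show aeval Y a * Y * aeval Y b = aeval Y (a * X * b) by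
          rw [map_mul, map_mul, aeval_X]]
        rw [← map_mul, ← map_mul, ← map_mul, ← map_mul, ← map_mul]
        congr 1
        ring
      rw [this, hann, mul_zero]
    nth_rw 2 [h1]
    rw [mul_sub, mul_one, h2, sub_zero]
  · intro h0
    have he : aeval Y (a * X ^ m) * Y = aeval Y a * Y ^ (m + 1) := by
      rw [map_mul, map_pow, aeval_X, pow_succ, mul_assoc]
    rw [he] at h0
    rw [h0, zero_add] at hab'
    apply hY
    refine ⟨m, ?_⟩
    have : Y ^ m = Y ^ m * (aeval Y b * aeval Y q) := by rw [hab', mul_one]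
    rw [this, hcomm b q, ← mul_assoc, hann, zero_mul]

end Pool.BenStar
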