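import Pool.Agent.Work.MP_26c40d_31.Interface

/-!
# Block IND (helper44)
-/

set_option autoImplicit false

namespace Pool.BenStar

open Module

namespace IND

variable {k V T : Type} [Field k] [AddCommGroup V] [Module k V] [AddCommGroup T] [Module k T]

theorem frame_ext {W : Type} [AddCommGroup W] [Module k W] (fr : Frame k V T)
    {f g : V →ₗ[k] W} (he : f fr.e = g fr.e) (hi : ∀ t, f (fr.i t) = g (fr.i t))
    (ho : f fr.o = g fr.o) : f = g := by
  ext v
  rw [fr.dec v]
  simp only [map_add, map_smul, he, hi, ho]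

/-- the endomorphism of `V` -/
noncomputable def Psi (fr : Frame k V T) (Y : Module.End k T) (y : T) (x : T →ₗ[k] k) :
    V →ₗ[k] V :=
  fr.th.smulRight (fr.i y) + fr.i ∘ₗ Y ∘ₗ fr.j + (x ∘ₗ fr.j).smulRight fr.o

theorem Psi_e (fr : Frame k V T) (Y : Module.End k T) (y : T) (x : T →ₗ[k] k) :
    Psi fr Y y x fr.e = fr.i y := by
  simp [Psi, fr.th_e, fr.j_e]

theorem Psi_i (fr : Frame k V T) (Y : Module.End k T) (y : T) (x : T →ₗ[k] k) (t : T) :
    Psi fr Y y x (fr.i t) = fr.i (Y t) + x t • fr.o := by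
  simp [Psi, fr.th_i, fr.j_i]

theorem Psi_o (fr : Frame k V T) (Y : Module.End k T) (y : T) (x : T →ₗ[k] k) :
    Psi fr Y y x fr.o = 0 := by
  simp [Psi, fr.th_o, fr.j_o]

end IND

open IND in
theorem stmt_IND : Stmt_IND := by
  intro k V T Γ _ _ _ _ _ _ _ _ fr g r b a c hE hind Y hY hyb hxa
  obtain ⟨y, hy⟩ := hyb
  obtain ⟨x, hx⟩ := hxa
  have two : ∀ s : k, s + s = 0 := fun s => CharTwo.add_self_eq_zero s
  have twoT : ∀ s : T, s + s = 0 := fun s => by
    have h : s + s = (1 + 1 : k) • s := by rw [add_smul, one_smul]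
    rw [h, two, zero_smul]
  set Ψ := Psi fr Y y x with hΨ
  have Pe : Ψ fr.e = fr.i y := Psi_e fr Y y x
  have Pi : ∀ t, Ψ (fr.i t) = fr.i (Y t) + x t • fr.o := Psi_i fr Y y x
  have Po : Ψ fr.o = 0 := Psi_o fr Y y x
  set Φ : Module.End k V := Ψ * Ψ with hΦ
  have Fe : Φ fr.e = fr.i (Y y) + x y • fr.o := by
    rw [hΦ, Module.End.mul_apply, Pe, Pi]
  have Fi : ∀ t, Φ (fr.i t) = fr.i (Y (Y t)) + x (Y t) • fr.o := by
    intro t
    rw [hΦ, Module.End.mul_apply, Pi, map_add, map_smul, Pi, Po, smul_zero, add_zero]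
  have Fo : Φ fr.o = 0 := by
    rw [hΦ, Module.End.mul_apply, Po, map_zero]
  clear_value Φ
  clear hΨ Pe Pi Po
  have hYr : ∀ γ t, Y (r γ t) = r γ (Y t) := by
    intro γ t
    have := hY γ
    have h2 := LinearMap.congr_fun this t
    simpa using h2
  -- `Φ` commutes with `g γ`
  have hcom : ∀ γ v, Φ (g γ v) = g γ (Φ v) := by
    intro γ
    obtain ⟨ge, gi, go⟩ := hE γ
    have key : (Φ : V →ₗ[k] V) ∘ₗ g γ = g γ ∘ₗ (Φ : V →ₗ[k] V) := by
      refine frame_ext fr ?_ ?_ ?_
      · rw [LinearMap.comp_apply, LinearMap.comp_apply, ge, Fe]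
        simp only [map_add, map_smul, Fe, Fi, Fo, gi, go, smul_zero, add_zero]
        have h1 : Y (Y (b γ)) = r γ (Y y) + Y y := by
          rw [hy γ, map_add, hYr]
        have h2 : x (Y (b γ)) = x (r γ y) + x y := by
          rw [hy γ, map_add]
        have h3 : a γ (Y y) = x (r γ y) + x y := hx γ y
        rw [h1, h2, h3, map_add]
        have h4 : fr.i (Y y) + fr.i (Y y) = 0 := by
          rw [← map_add, twoT, map_zero]
        linear_combination (norm := module) h4
      · intro t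
        rw [LinearMap.comp_apply, LinearMap.comp_apply, gi, Fi]
        simp only [map_add, map_smul, Fi, Fo, gi, go, smul_zero, add_zero]
        rw [hx γ (Y t), hYr, hYr]
        have h5 : x (Y t) • fr.o + x (Y t) • fr.o = 0 := by
          rw [← add_smul, two, zero_smul]
        linear_combination (norm := module) (-1 : k) • h5
      · rw [LinearMap.comp_apply, LinearMap.comp_apply, go, Fo, map_zero]
    intro v
    exact LinearMap.congr_fun key v
  have hth : ∀ v, fr.th (Φ v) = 0 := by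
    have key : fr.th ∘ₗ (Φ : V →ₗ[k] V) = 0 := by
      refine frame_ext fr ?_ ?_ ?_
      · rw [LinearMap.comp_apply, Fe]
        simp [fr.th_i, fr.th_o]
      · intro t
        rw [LinearMap.comp_apply, Fi]
        simp [fr.th_i, fr.th_o]
      · rw [LinearMap.comp_apply, Fo]
        simp
    intro v
    exact LinearMap.congr_fun key v
  have hzz : ∀ v, Φ (zz fr v) = zz fr (Φ v) := by
    intro v
    rw [zz_apply, zz_apply, map_add, map_smul, Fo, smul_zero, hth, zero_smul]
  -- powers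
  have hcomn : ∀ (n : ℕ) γ v, (Φ ^ n) (g γ v) = g γ ((Φ ^ n) v) := by
    intro n
    induction n with
    | zero => intro γ v; simp
    | succ n ih =>
      intro γ v
      rw [pow_succ, Module.End.mul_apply, Module.End.mul_apply, hcom, ih]
  have hzzn : ∀ (n : ℕ) v, (Φ ^ n) (zz fr v) = zz fr ((Φ ^ n) v) := by
    intro n
    induction n with
    | zero => intro v; simp
    | succ n ih =>
      intro v
      rw [pow_succ, Module.End.mul_apply, Module.End.mul_apply, hzz, ih]
  obtain ⟨n, hn, hn1⟩ := ((LinearMap.eventually_isCompl_ker_pow_range_pow Φ).and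
    (Filter.eventually_ge_atTop 1)).exists
  have hA1 : ∀ γ, ∀ v ∈ LinearMap.ker (Φ ^ n), g γ v ∈ LinearMap.ker (Φ ^ n) := by
    intro γ v hv
    rw [LinearMap.mem_ker] at hv ⊢
    rw [hcomn, hv, map_zero]
  have hA2 : ∀ v ∈ LinearMap.ker (Φ ^ n), zz fr v ∈ LinearMap.ker (Φ ^ n) := by
    intro v hv
    rw [LinearMap.mem_ker] at hv ⊢
    rw [hzzn, hv, map_zero]
  have hB1 : ∀ γ, ∀ v ∈ LinearMap.range (Φ ^ n), g γ v ∈ LinearMap.range (Φ ^ n) := by
    rintro γ v ⟨w, rfl⟩
    exact ⟨g γ w, hcomn n γ w⟩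
  have hB2 : ∀ v ∈ LinearMap.range (Φ ^ n), zz fr v ∈ LinearMap.range (Φ ^ n) := by
    rintro v ⟨w, rfl⟩
    exact ⟨zz fr w, hzzn n w⟩
  have hnil : Φ ^ n = 0 := by
    rcases hind _ _ hA1 hA2 hB1 hB2 hn with h | h
    · exfalso
      have ho : fr.o ∈ LinearMap.ker (Φ ^ n) := by
        rw [LinearMap.mem_ker]
        obtain ⟨m, rfl⟩ : ∃ m, n = m + 1 := ⟨n - 1, by omega⟩
        rw [pow_succ, Module.End.mul_apply, Fo, map_zero]
      rw [h, Submodule.mem_bot] at ho
      have := fr.om_o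
      rw [ho, map_zero] at this
      exact zero_ne_one this
    · exact LinearMap.range_eq_bot.1 h
  -- back to `Y`
  have hpow : ∀ (m : ℕ) (t : T), fr.j ((Φ ^ m) (fr.i t)) = (Y ^ (2 * m)) t := by
    intro m
    induction m with
    | zero => intro t; simp [fr.j_i]
    | succ m ih =>
      intro t
      have hj : ∀ v, fr.th v = 0 → fr.j (Φ v) = Y (Y (fr.j v)) := by
        intro v hv
        conv_lhs => rw [fr.dec v]
        rw [hv, zero_smul, zero_add, map_add, map_smul, Fo, smul_zero, add_zero, Fi, map_add,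
          map_smul, fr.j_o, smul_zero, add_zero, fr.j_i]
      have hthm : ∀ m : ℕ, fr.th ((Φ ^ m) (fr.i t)) = 0 := by
        intro m
        rcases m with _ | m
        · simpa using fr.th_i t
        · rw [pow_succ', Module.End.mul_apply, hth]
      rw [pow_succ', Module.End.mul_apply, hj _ (hthm m), ih, mul_add, mul_one, pow_add,
        ← Module.End.mul_apply, ← Module.End.mul_apply]
      congr 1
      rw [← pow_two, ← pow_add, ← pow_add, add_comm]
  refine ⟨2 * n, ?_⟩
  ext t
  rw [← hpow n t, hnil]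
  simp

end Pool.BenStar
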