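import Pool.Agent.Work.MP_26c40d_31.Interface

/-!
# MP_26c40d_al, block LOC (helper6)
-/

set_option autoImplicit false

namespace Pool.BenStar

open Module Polynomial

theorem stmt_LOC (hI : Stmt_IDEM) : Stmt_LOC := by
  intro k V Γ _ _ _ _ _ ρ e A hP hA
  obtain ⟨hec, hee, he0, hprim⟩ := hP
  -- an eigenvector of `e A e` in the range of `e`
  obtain ⟨μ, v, hv0, hev, hμ⟩ : ∃ (μ : k) (v : V), v ≠ 0 ∧ e v = v ∧ (e * A * e) v = μ • v := by
    set R := LinearMap.range e with hR
    have hmap : ∀ x ∈ R, (e * A * e) x ∈ R := by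
      intro x _
      exact ⟨A (e x), rfl⟩
    have hnt : Nontrivial R := by
      rw [Submodule.nontrivial_iff_ne_bot]
      intro h
      exact he0 (LinearMap.range_eq_bot.1 h)
    obtain ⟨μ, hμ⟩ := Module.End.exists_eigenvalue ((e * A * e).restrict hmap)
    obtain ⟨w, hw⟩ := hμ.exists_hasEigenvector
    obtain ⟨y, hy⟩ := w.2
    refine ⟨μ, (w : V), ?_, ?_, ?_⟩
    · intro h
      exact hw.2 (Subtype.ext h)
    · rw [← hy]
      exact LinearMap.congr_fun hee y
    · have h1 := hw.apply_eq_smul
      have h2 := congrArg (fun z : R => (z : V)) h1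
      simpa [LinearMap.restrict_apply] using h2
  refine ⟨μ, ?_⟩
  by_contra hB
  set B : Module.End k V := e * A * e - μ • e with hBdef
  have heB : e * B = B := by
    rw [hBdef, mul_sub, ← mul_assoc, ← mul_assoc, hee, mul_smul_comm, hee]
  have hBe : B * e = B := by
    rw [hBdef, sub_mul, mul_assoc, hee, smul_mul_assoc, hee]
  have hBc : Com ρ B := by
    intro γ
    have h1 := hec γ
    have h2 := hA γ
    rw [hBdef, sub_mul, mul_sub]
    congr 1
    · calc e * A * e * ρ γ = e * A * (e * ρ γ) := by rw [mul_assoc]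
        _ = e * (A * ρ γ) * e := by rw [h1]; simp only [mul_assoc]
        _ = e * ρ γ * A * e := by rw [h2]; simp only [mul_assoc]
        _ = ρ γ * (e * A * e) := by rw [h1]; simp only [mul_assoc]
    · rw [smul_mul_assoc, h1, mul_smul_comm]
  obtain ⟨W, hW, hid, hne⟩ := hI k V B hB
  -- polynomials in `B`
  have hcomm : ∀ C : Module.End k V, Commute C B → Commute C W := by
    intro C hC
    refine Algebra.adjoin_induction (s := {B}) (p := fun x _ => Commute C x) ?_ ?_ ?_ ?_ hW
    · intro x hx
      rw [Set.mem_singleton_iff] at hx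
      rw [hx]
      exact hC
    · intro r
      exact (Algebra.commutes r C).symm
    · intro x y _ _ hx hy
      exact hx.add_right hy
    · intro x y _ _ hx hy
      exact hx.mul_right hy
  have heW : e * W = W * e := hcomm e (heB.trans hBe.symm)
  have hfe : (W * B) * e = W * B := by rw [mul_assoc, hBe]
  have hef : e * (W * B) = W * B := by
    rw [← mul_assoc, heW, mul_assoc, heB]
  have hfc : Com ρ (W * B) := by
    intro γ
    have h1 : Commute (ρ γ) B := (hBc γ).symm
    have h2 : ρ γ * W = W * ρ γ := hcomm _ h1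
    rw [mul_assoc, hBc γ, ← mul_assoc, ← h2, mul_assoc]
  rcases hprim (W * B) hfc hid hef hfe with h | h
  · exact hne h
  · apply hv0
    have hBv : B v = 0 := by
      rw [hBdef, LinearMap.sub_apply, hμ, LinearMap.smul_apply, hev, sub_self]
    have h3 := LinearMap.congr_fun h v
    rw [Module.End.mul_apply, hBv, map_zero, hev] at h3
    exact h3.symm

end Pool.BenStar
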