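import Pool.Agent.Work.MP_26c40d_31.Interface

/-!
# MP_26c40d_al, block PRIM (helper6)
-/

set_option autoImplicit false

namespace Pool.BenStar

open Module

namespace PRIM

variable {k V : Type} [Field k] [AddCommGroup V] [Module k V] [FiniteDimensional k V]

theorem rank_lt (e f : Module.End k V) (hff : f * f = f)
    (hef : e * f = f) (hfe : f * e = f) (hne : f ≠ e) :
    finrank k (LinearMap.range f) < finrank k (LinearMap.range e) := by
  have hle : LinearMap.range f ≤ LinearMap.range e := by
    rintro x ⟨y, rfl⟩
    exact ⟨f y, LinearMap.congr_fun hef y⟩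
  apply Submodule.finrank_lt_finrank_of_lt
  refine lt_of_le_of_ne hle fun h => hne ?_
  have h1 : f * e = e := by
    ext x
    have hx : e x ∈ LinearMap.range f := by
      rw [h]
      exact ⟨x, rfl⟩
    obtain ⟨y, hy⟩ := hx
    rw [Module.End.mul_apply, ← hy]
    exact LinearMap.congr_fun hff y
  rw [← hfe, h1]

theorem main {Γ : Type} (ρ : Γ → Module.End k V) (N : ℕ) :
    ∀ e : Module.End k V, Com ρ e → e * e = e → finrank k (LinearMap.range e) ≤ N →
    ∃ (n : ℕ) (ε : Fin n → Module.End k V), (∀ i, Prim ρ (ε i)) ∧
      (∀ i j, i ≠ j → ε i * ε j = 0) ∧ ∑ i, ε i = e := by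
  induction N with
  | zero =>
    intro e _ _ h
    have h0 : e = 0 := by
      rw [← LinearMap.range_eq_bot]
      exact Submodule.finrank_eq_zero.1 (Nat.le_zero.1 h)
    exact ⟨0, fun i => i.elim0, fun i => i.elim0, fun i => i.elim0, by simp [h0]⟩
  | succ N ih =>
    intro e hc hid hr
    by_cases h0 : e = 0
    · exact ⟨0, fun i => i.elim0, fun i => i.elim0, fun i => i.elim0, by simp [h0]⟩
    by_cases hp : Prim ρ e
    · refine ⟨1, fun _ => e, fun _ => hp, fun i j hij => ?_, by simp⟩
      exact absurd (Subsingleton.elim i j) hij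
    obtain ⟨f, hfc, hff, hef, hfe, hf0, hfne⟩ : ∃ f : Module.End k V, Com ρ f ∧ f * f = f ∧
        e * f = f ∧ f * e = f ∧ f ≠ 0 ∧ f ≠ e := by
      by_contra hcon
      apply hp
      refine ⟨hc, hid, h0, fun f h1 h2 h3 h4 => ?_⟩
      by_contra h5
      rw [not_or] at h5
      exact hcon ⟨f, h1, h2, h3, h4, h5.1, h5.2⟩
    have hgc : Com ρ (e - f) := by
      intro γ
      rw [sub_mul, mul_sub, hc γ, hfc γ]
    have hgg : (e - f) * (e - f) = e - f := by
      rw [sub_mul, mul_sub, mul_sub, hid, hef, hfe, hff, sub_self, sub_zero]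
    have heg : e * (e - f) = e - f := by rw [mul_sub, hid, hef]
    have hge : (e - f) * e = e - f := by rw [sub_mul, hid, hfe]
    have hgne : e - f ≠ e := by
      intro h
      exact hf0 (sub_eq_self.1 h)
    have hfg : f * (e - f) = 0 := by rw [mul_sub, hfe, hff, sub_self]
    have hgf : (e - f) * f = 0 := by rw [sub_mul, hef, hff, sub_self]
    have r1 := rank_lt e f hff hef hfe hfne
    have r2 := rank_lt e (e - f) hgg heg hge hgne
    obtain ⟨n₁, ε₁, p1, o1, s1⟩ := ih f hfc hff (by omega)
    obtain ⟨n₂, ε₂, p2, o2, s2⟩ := ih (e - f) hgc hgg (by omega)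
    -- the pieces are inside `f`, `e - f`
    have key : ∀ (n : ℕ) (ε : Fin n → Module.End k V) (g : Module.End k V),
        (∀ i, Prim ρ (ε i)) → (∀ i j, i ≠ j → ε i * ε j = 0) → ∑ i, ε i = g →
        ∀ i, ε i * g = ε i ∧ g * ε i = ε i := by
      intro n ε g hP hO hS i
      constructor
      · rw [← hS, Finset.mul_sum, Finset.sum_eq_single i]
        · exact (hP i).2.1
        · intro j _ hj
          exact hO i j (Ne.symm hj)
        · intro h
          exact absurd (Finset.mem_univ i) h
      · rw [← hS, Finset.sum_mul, Finset.sum_eq_single i]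
        · exact (hP i).2.1
        · intro j _ hj
          exact hO j i hj
        · intro h
          exact absurd (Finset.mem_univ i) h
    have k1 := key n₁ ε₁ f p1 o1 s1
    have k2 := key n₂ ε₂ (e - f) p2 o2 s2
    have c12 : ∀ i j, ε₁ i * ε₂ j = 0 := by
      intro i j
      rw [← (k1 i).1, ← (k2 j).2, mul_assoc, ← mul_assoc f, hfg, zero_mul, mul_zero]
    have c21 : ∀ i j, ε₂ j * ε₁ i = 0 := by
      intro i j
      rw [← (k2 j).1, ← (k1 i).2, mul_assoc, ← mul_assoc (e - f), hgf, zero_mul, mul_zero]
    refine ⟨n₁ + n₂, Fin.append ε₁ ε₂, ?_, ?_, ?_⟩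
    · intro i
      induction i using Fin.addCases with
      | left i => rw [Fin.append_left]; exact p1 i
      | right i => rw [Fin.append_right]; exact p2 i
    · intro i j hij
      induction i using Fin.addCases with
      | left i =>
        rw [Fin.append_left]
        induction j using Fin.addCases with
        | left j =>
          rw [Fin.append_left]
          exact o1 i j fun h => hij (by rw [h])
        | right j =>
          rw [Fin.append_right]
          exact c12 i j
      | right i =>
        rw [Fin.append_right]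
        induction j using Fin.addCases with
        | left j =>
          rw [Fin.append_left]
          exact c21 j i
        | right j =>
          rw [Fin.append_right]
          exact o2 i j fun h => hij (by rw [h])
    · rw [Fin.sum_univ_add]
      simp only [Fin.append_left, Fin.append_right]
      rw [s1, s2, add_sub_cancel]

end PRIM

theorem stmt_PRIM : Stmt_PRIM := by
  intro k V Γ _ _ _ _ ρ e hc hid
  exact PRIM.main ρ _ e hc hid le_rfl

end Pool.BenStar
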