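import Pool.Agent.Work.MP_26c40d_31.Interface

/-!
# MP_26c40d_al, block REL (helper31)
-/

set_option autoImplicit false
set_option linter.unusedSectionVars false

namespace Pool.BenStar

open Module

namespace REL

section
variable {k V T : Type} [Field k] [CharP k 2] [AddCommGroup V] [Module k V] [AddCommGroup T]
  [Module k T]

/-- symmetrised form -/
def R (F : F4 k V) (p q : V →ₗ[k] k) (v w : V) : k :=
  F p q v w + F p q w v + F q p v w + F q p w v

lemma two0 (x : k) : x + x = 0 := CharTwo.add_self_eq_zero x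

lemma R_add_p (F : F4 k V) (p p' q : V →ₗ[k] k) (v w : V) :
    R F (p + p') q v w = R F p q v w + R F p' q v w := by
  simp only [R, map_add, LinearMap.add_apply]; ring

lemma R_add_q (F : F4 k V) (p q q' : V →ₗ[k] k) (v w : V) :
    R F p (q + q') v w = R F p q v w + R F p q' v w := by
  simp only [R, map_add, LinearMap.add_apply]; ring

lemma R_add_v (F : F4 k V) (p q : V →ₗ[k] k) (v v' w : V) :
    R F p q (v + v') w = R F p q v w + R F p q v' w := by
  simp only [R, map_add, LinearMap.add_apply]; ring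

lemma R_add_w (F : F4 k V) (p q : V →ₗ[k] k) (v w w' : V) :
    R F p q v (w + w') = R F p q v w + R F p q v w' := by
  simp only [R, map_add, LinearMap.add_apply]; ring

lemma R_smul_p (F : F4 k V) (c : k) (p q : V →ₗ[k] k) (v w : V) :
    R F (c • p) q v w = c * R F p q v w := by
  simp only [R, map_smul, LinearMap.smul_apply, smul_eq_mul]; ring

lemma R_smul_q (F : F4 k V) (c : k) (p q : V →ₗ[k] k) (v w : V) :
    R F p (c • q) v w = c * R F p q v w := by
  simp only [R, map_smul, LinearMap.smul_apply, smul_eq_mul]; ring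

lemma R_smul_v (F : F4 k V) (c : k) (p q : V →ₗ[k] k) (v w : V) :
    R F p q (c • v) w = c * R F p q v w := by
  simp only [R, map_smul, LinearMap.smul_apply, smul_eq_mul]; ring

lemma R_smul_w (F : F4 k V) (c : k) (p q : V →ₗ[k] k) (v w : V) :
    R F p q v (c • w) = c * R F p q v w := by
  simp only [R, map_smul, LinearMap.smul_apply, smul_eq_mul]; ring

lemma R_pq (F : F4 k V) (p q : V →ₗ[k] k) (v w : V) : R F p q v w = R F q p v w := by
  simp only [R]; ring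

lemma R_vw (F : F4 k V) (p q : V →ₗ[k] k) (v w : V) : R F p q v w = R F p q w v := by
  simp only [R]; ring

lemma R_pp (F : F4 k V) (p : V →ₗ[k] k) (v w : V) : R F p p v w = 0 := by
  simp only [R]
  linear_combination two0 (F p p v w) + two0 (F p p w v)

lemma R_vv (F : F4 k V) (p q : V →ₗ[k] k) (v : V) : R F p q v v = 0 := by
  simp only [R]
  linear_combination two0 (F p q v v) + two0 (F q p v v)

lemma R_inv (F : F4 k V) (g : V →ₗ[k] V) (h : Inv F g) (p q : V →ₗ[k] k) (v w : V) :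
    R F (p ∘ₗ g) (q ∘ₗ g) v w = R F p q (g v) (g w) := by
  simp only [R, h p q, h q p]

variable (fr : Frame k V T) (F : F4 k V)

lemma comp_zz (p : V →ₗ[k] k) : p ∘ₗ zz fr = p + p fr.o • fr.th := by
  ext v
  simp [mul_comm]

lemma comp_zz0 (p : V →ₗ[k] k) (h : p fr.o = 0) : p ∘ₗ zz fr = p := by
  rw [comp_zz, h, zero_smul, add_zero]

lemma zz_e : zz fr fr.e = fr.e + fr.o := by simp [fr.th_e]

lemma zz_w (w : V) (h : fr.th w = 0) : zz fr w = w := by simp [h]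

variable {F}

lemma z1a (hz : Inv F (zz fr)) (p q : V →ₗ[k] k) (w : V) (hp : p fr.o = 0) (hq : q fr.o = 0)
    (hw : fr.th w = 0) : F p q fr.o w = 0 := by
  have h := hz p q fr.e w
  rw [comp_zz0 fr p hp, comp_zz0 fr q hq, zz_e, zz_w fr w hw] at h
  simp only [map_add, LinearMap.add_apply] at h
  linear_combination -h

lemma z1b (hz : Inv F (zz fr)) (p q : V →ₗ[k] k) (w : V) (hp : p fr.o = 0) (hq : q fr.o = 0)
    (hw : fr.th w = 0) : F p q w fr.o = 0 := by
  have h := hz p q w fr.e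
  rw [comp_zz0 fr p hp, comp_zz0 fr q hq, zz_e, zz_w fr w hw] at h
  simp only [map_add, LinearMap.add_apply] at h
  linear_combination -h

lemma z1c (hz : Inv F (zz fr)) (p q : V →ₗ[k] k) (hp : p fr.o = 0) (hq : q fr.o = 0) :
    F p q fr.e fr.o + F p q fr.o fr.e = 0 := by
  have h := hz p q fr.e fr.e
  rw [comp_zz0 fr p hp, comp_zz0 fr q hq, zz_e] at h
  simp only [map_add, LinearMap.add_apply] at h
  have h2 := z1a fr hz p q fr.o hp hq fr.th_o
  linear_combination -h - h2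

lemma z2a (hz : Inv F (zz fr)) (q : V →ₗ[k] k) (v w : V) (hq : q fr.o = 0)
    (hv : fr.th v = 0) (hw : fr.th w = 0) : F fr.th q v w = 0 := by
  have h := hz fr.om q v w
  rw [comp_zz fr fr.om, fr.om_o, one_smul, comp_zz0 fr q hq, zz_w fr w hw, zz_w fr v hv] at h
  simp only [map_add, LinearMap.add_apply] at h
  linear_combination h

lemma z2b (hz : Inv F (zz fr)) (q : V →ₗ[k] k) (v w : V) (hq : q fr.o = 0)
    (hv : fr.th v = 0) (hw : fr.th w = 0) : F q fr.th v w = 0 := by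
  have h := hz q fr.om v w
  rw [comp_zz fr fr.om, fr.om_o, one_smul, comp_zz0 fr q hq, zz_w fr w hw, zz_w fr v hv] at h
  simp only [map_add, LinearMap.add_apply] at h
  linear_combination h

lemma z3a (hz : Inv F (zz fr)) (q : V →ₗ[k] k) (w : V) (hq : q fr.o = 0)
    (hw : fr.th w = 0) : F fr.om q fr.o w = F fr.th q fr.e w := by
  have h := hz fr.om q fr.e w
  rw [comp_zz fr fr.om, fr.om_o, one_smul, comp_zz0 fr q hq, zz_w fr w hw, zz_e] at h
  simp only [map_add, LinearMap.add_apply] at h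
  linear_combination -h

lemma z3b (hz : Inv F (zz fr)) (q : V →ₗ[k] k) (w : V) (hq : q fr.o = 0)
    (hw : fr.th w = 0) : F fr.om q w fr.o = F fr.th q w fr.e := by
  have h := hz fr.om q w fr.e
  rw [comp_zz fr fr.om, fr.om_o, one_smul, comp_zz0 fr q hq, zz_w fr w hw, zz_e] at h
  simp only [map_add, LinearMap.add_apply] at h
  linear_combination -h

lemma z3c (hz : Inv F (zz fr)) (q : V →ₗ[k] k) (w : V) (hq : q fr.o = 0)
    (hw : fr.th w = 0) : F q fr.om fr.o w = F q fr.th fr.e w := by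
  have h := hz q fr.om fr.e w
  rw [comp_zz fr fr.om, fr.om_o, one_smul, comp_zz0 fr q hq, zz_w fr w hw, zz_e] at h
  simp only [map_add, LinearMap.add_apply] at h
  linear_combination -h

lemma z3d (hz : Inv F (zz fr)) (q : V →ₗ[k] k) (w : V) (hq : q fr.o = 0)
    (hw : fr.th w = 0) : F q fr.om w fr.o = F q fr.th w fr.e := by
  have h := hz q fr.om w fr.e
  rw [comp_zz fr fr.om, fr.om_o, one_smul, comp_zz0 fr q hq, zz_w fr w hw, zz_e] at h
  simp only [map_add, LinearMap.add_apply] at h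
  linear_combination -h

lemma z4 (hz : Inv F (zz fr)) (v w : V) (hv : fr.th v = 0) (hw : fr.th w = 0) :
    F fr.th fr.om v w + F fr.om fr.th v w = 0 := by
  have h := hz fr.om fr.om v w
  rw [comp_zz fr fr.om, fr.om_o, one_smul, zz_w fr w hw, zz_w fr v hv] at h
  simp only [map_add, LinearMap.add_apply] at h
  have h2 := z2a fr hz fr.th v w fr.th_o hv hw
  linear_combination h - h2

lemma R_o (hz : Inv F (zz fr)) (p q : V →ₗ[k] k) (w : V) (hp : p fr.o = 0) (hq : q fr.o = 0)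
    (hw : fr.th w = 0) : R F p q fr.o w = 0 := by
  simp only [R]
  rw [z1a fr hz p q w hp hq hw, z1b fr hz p q w hp hq hw, z1a fr hz q p w hq hp hw,
    z1b fr hz q p w hq hp hw]
  simp

lemma R_o' (hz : Inv F (zz fr)) (p q : V →ₗ[k] k) (w : V) (hp : p fr.o = 0) (hq : q fr.o = 0)
    (hw : fr.th w = 0) : R F p q w fr.o = 0 := by
  rw [R_vw, R_o fr hz p q w hp hq hw]

lemma R_eo (hz : Inv F (zz fr)) (p q : V →ₗ[k] k) (hp : p fr.o = 0) (hq : q fr.o = 0) :
    R F p q fr.e fr.o = 0 := by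
  simp only [R]
  linear_combination z1c fr hz p q hp hq + z1c fr hz q p hq hp

lemma R_th (hz : Inv F (zz fr)) (q : V →ₗ[k] k) (v w : V) (hq : q fr.o = 0)
    (hv : fr.th v = 0) (hw : fr.th w = 0) : R F fr.th q v w = 0 := by
  simp only [R]
  rw [z2a fr hz q v w hq hv hw, z2a fr hz q w v hq hw hv, z2b fr hz q v w hq hv hw,
    z2b fr hz q w v hq hw hv]
  simp

lemma R_th' (hz : Inv F (zz fr)) (q : V →ₗ[k] k) (v w : V) (hq : q fr.o = 0)
    (hv : fr.th v = 0) (hw : fr.th w = 0) : R F q fr.th v w = 0 := by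
  rw [R_pq, R_th fr hz q v w hq hv hw]

lemma R_om (hz : Inv F (zz fr)) (q : V →ₗ[k] k) (w : V) (hq : q fr.o = 0)
    (hw : fr.th w = 0) : R F fr.om q fr.o w = R F fr.th q fr.e w := by
  simp only [R]
  rw [z3a fr hz q w hq hw, z3b fr hz q w hq hw, z3c fr hz q w hq hw, z3d fr hz q w hq hw]

lemma R_omth (hz : Inv F (zz fr)) (v w : V) (hv : fr.th v = 0) (hw : fr.th w = 0) :
    R F fr.om fr.th v w = 0 := by
  simp only [R]
  linear_combination z4 fr hz v w hv hw + z4 fr hz w v hw hv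

/-! ### group elements -/

variable {g : V →ₗ[k] V} {r : T →ₗ[k] T} {b : T} {a : T →ₗ[k] k} {c : k}

lemma g_dec (he : Elt fr g r b a c) (v : V) :
    g v = fr.th v • (fr.e + fr.i b + c • fr.o) + (fr.i (r (fr.j v)) + a (fr.j v) • fr.o)
      + fr.om v • fr.o := by
  conv_lhs => rw [fr.dec v]
  rw [map_add, map_add, map_smul, map_smul, he.g_e, he.g_i, he.g_o]

lemma th_g (he : Elt fr g r b a c) : fr.th ∘ₗ g = fr.th := by
  ext v
  rw [LinearMap.comp_apply, g_dec fr he v]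
  simp [fr.th_e, fr.th_i, fr.th_o]

lemma j_g (he : Elt fr g r b a c) (q : T →ₗ[k] k) :
    (q ∘ₗ fr.j) ∘ₗ g = (q ∘ₗ r) ∘ₗ fr.j + q b • fr.th := by
  ext v
  rw [LinearMap.comp_apply, g_dec fr he v]
  simp [fr.j_e, fr.j_i, fr.j_o]
  ring

lemma om_g (he : Elt fr g r b a c) :
    fr.om ∘ₗ g = fr.om + a ∘ₗ fr.j + c • fr.th := by
  ext v
  rw [LinearMap.comp_apply, g_dec fr he v]
  simp [fr.om_e, fr.om_i, fr.om_o]
  ring

lemma jo (q : T →ₗ[k] k) : (q ∘ₗ fr.j) fr.o = 0 := by simp [fr.j_o]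

/-- invariance of the form on `T` -/
lemma RT_inv (he : Elt fr g r b a c) (hz : Inv F (zz fr)) (hg : Inv F g) (p q : T →ₗ[k] k)
    (v w : T) :
    R F (p ∘ₗ fr.j) (q ∘ₗ fr.j) (fr.i (r v)) (fr.i (r w)) =
      R F ((p ∘ₗ r) ∘ₗ fr.j) ((q ∘ₗ r) ∘ₗ fr.j) (fr.i v) (fr.i w) := by
  have h := R_inv F g hg (p ∘ₗ fr.j) (q ∘ₗ fr.j) (fr.i v) (fr.i w)
  rw [j_g fr he p, j_g fr he q, he.g_i, he.g_i] at h
  simp only [R_add_p, R_add_q, R_add_v, R_add_w, R_smul_p, R_smul_q, R_smul_v, R_smul_w] at h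
  rw [R_th fr hz _ _ _ (jo fr _) (fr.th_i _) (fr.th_i _),
    R_th' fr hz _ _ _ (jo fr _) (fr.th_i _) (fr.th_i _), R_pp,
    R_o fr hz _ _ _ (jo fr _) (jo fr _) (fr.th_i _),
    R_o' fr hz _ _ _ (jo fr _) (jo fr _) (fr.th_i _), R_vv] at h
  linear_combination -h

/-- equation for `e, w` -/
lemma eq_ew (he : Elt fr g r b a c) (hz : Inv F (zz fr)) (hg : Inv F g) (p q : T →ₗ[k] k)
    (w : T) :
    R F (p ∘ₗ fr.j) (q ∘ₗ fr.j) (fr.i b) (fr.i (r w)) =
      R F ((p ∘ₗ r) ∘ₗ fr.j) ((q ∘ₗ r) ∘ₗ fr.j) fr.e (fr.i w) +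
      R F (p ∘ₗ fr.j) (q ∘ₗ fr.j) fr.e (fr.i (r w)) +
      q b * R F fr.th ((p ∘ₗ r) ∘ₗ fr.j) fr.e (fr.i w) +
      p b * R F fr.th ((q ∘ₗ r) ∘ₗ fr.j) fr.e (fr.i w) := by
  have h := R_inv F g hg (p ∘ₗ fr.j) (q ∘ₗ fr.j) fr.e (fr.i w)
  rw [j_g fr he p, j_g fr he q, he.g_i, he.g_e] at h
  simp only [R_add_p, R_add_q, R_add_v, R_add_w, R_smul_p, R_smul_q, R_smul_v, R_smul_w] at h
  rw [R_pp, R_o fr hz _ _ _ (jo fr _) (jo fr _) (fr.th_i _),
    R_o' fr hz _ _ _ (jo fr _) (jo fr _) (fr.th_i _), R_vv,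
    R_eo fr hz _ _ (jo fr _) (jo fr _), R_pq F ((p ∘ₗ r) ∘ₗ fr.j) fr.th] at h
  linear_combination -h - two0 (R F (p ∘ₗ fr.j) (q ∘ₗ fr.j) fr.e (fr.i (r w)))

/-- `N` commutes with the group -/
lemma eq_thw (he : Elt fr g r b a c) (hz : Inv F (zz fr)) (hg : Inv F g) (q : T →ₗ[k] k)
    (w : T) :
    R F fr.th (q ∘ₗ fr.j) fr.e (fr.i (r w)) =
      R F fr.th ((q ∘ₗ r) ∘ₗ fr.j) fr.e (fr.i w) := by
  have h := R_inv F g hg fr.th (q ∘ₗ fr.j) fr.e (fr.i w)
  rw [j_g fr he q, th_g fr he, he.g_i, he.g_e] at h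
  simp only [R_add_q, R_add_v, R_add_w, R_smul_q, R_smul_v, R_smul_w] at h
  rw [R_pp, R_o fr hz _ _ _ fr.th_o (jo fr _) (fr.th_i _),
    R_o' fr hz _ _ _ fr.th_o (jo fr _) (fr.th_i _), R_vv,
    R_eo fr hz _ _ fr.th_o (jo fr _), R_th fr hz _ _ _ (jo fr _) (fr.th_i _) (fr.th_i _)] at h
  linear_combination -h

/-- equation for `om` -/
lemma eq_om (he : Elt fr g r b a c) (hz : Inv F (zz fr)) (hg : Inv F g) (q : T →ₗ[k] k)
    (v w : T) :
    R F (a ∘ₗ fr.j) ((q ∘ₗ r) ∘ₗ fr.j) (fr.i v) (fr.i w) =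
      R F fr.om ((q ∘ₗ r) ∘ₗ fr.j) (fr.i v) (fr.i w) +
      R F fr.om (q ∘ₗ fr.j) (fr.i (r v)) (fr.i (r w)) +
      a w * R F fr.th (q ∘ₗ fr.j) fr.e (fr.i (r v)) +
      a v * R F fr.th (q ∘ₗ fr.j) fr.e (fr.i (r w)) := by
  have h := R_inv F g hg fr.om (q ∘ₗ fr.j) (fr.i v) (fr.i w)
  rw [j_g fr he q, om_g fr he, he.g_i, he.g_i] at h
  simp only [R_add_p, R_add_q, R_add_v, R_add_w, R_smul_p, R_smul_q, R_smul_v, R_smul_w] at h
  rw [R_pp, R_vv, R_omth fr hz _ _ (fr.th_i _) (fr.th_i _),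
    R_th' fr hz _ _ _ (jo fr _) (fr.th_i _) (fr.th_i _),
    R_th fr hz _ _ _ (jo fr _) (fr.th_i _) (fr.th_i _),
    R_vw F fr.om (q ∘ₗ fr.j) (fr.i (r v)) fr.o,
    R_om fr hz _ _ (jo fr _) (fr.th_i _), R_om fr hz _ _ (jo fr _) (fr.th_i _)] at h
  linear_combination h - two0 (R F fr.om ((q ∘ₗ r) ∘ₗ fr.j) (fr.i v) (fr.i w))

end

/-! ### forms and endomorphisms -/

section
variable {k T ι : Type} [Field k] [AddCommGroup T] [Module k T] [FiniteDimensional k T]
  [Fintype ι]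

/-- the endomorphism of a bilinear form -/
noncomputable def toEnd (B : (T →ₗ[k] k) →ₗ[k] T →ₗ[k] k) : Module.End k T :=
  (evalEquiv k T).symm.toLinearMap ∘ₗ (B.flip : T →ₗ[k] Module.Dual k (Module.Dual k T))

lemma toEnd_apply (B : (T →ₗ[k] k) →ₗ[k] T →ₗ[k] k) (p : T →ₗ[k] k) (v : T) :
    p (toEnd B v) = B p v := by
  unfold toEnd
  rw [LinearMap.comp_apply]
  exact apply_evalEquiv_symm_apply k T p (B.flip v)

lemma ext_fun (v w : T) (h : ∀ p : T →ₗ[k] k, p v = p w) : v = w := by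
  rw [← sub_eq_zero, ← Module.forall_dual_apply_eq_zero_iff k]
  intro p
  rw [map_sub, h p, sub_self]

/-- a vector from a functional on the dual -/
lemma exists_vec (u : (T →ₗ[k] k) →ₗ[k] k) : ∃ v : T, ∀ p : T →ₗ[k] k, p v = u p :=
  ⟨(evalEquiv k T).symm u, fun p => apply_evalEquiv_symm_apply k T p u⟩

lemma tr_eq (B : Basis ι k T) (A : Module.End k T) :
    LinearMap.trace k T A = ∑ x, B.coord x (A (B x)) := by
  classical
  rw [LinearMap.trace_eq_matrix_trace k B, Matrix.trace]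
  apply Finset.sum_congr rfl
  intro x _
  rw [Matrix.diag_apply, LinearMap.toMatrix_apply, Basis.coord_apply]

lemma ctr_r (hC : Stmt_CTR) (B : Basis ι k T) (G : (T →ₗ[k] k) →ₗ[k] T →ₗ[k] k)
    (r : T ≃ₗ[k] T) (Y : Module.End k T) (hY : ∀ t, Y (r t) = r (Y t)) :
    ∑ x, G (B.coord x) (Y (B x)) = ∑ x, G (B.coord x ∘ₗ r.symm.toLinearMap) (r (Y (B x))) := by
  have h := hC k T T ι ι B (B.map r) Y LinearMap.id G
  have e1 : ∑ x, G (B.coord x) (Y (B x)) =
      ∑ x, G (B.coord x) (Y ((LinearMap.id : T →ₗ[k] T) (B x))) := rfl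
  rw [e1, h]
  apply Finset.sum_congr rfl
  intro x _
  have e2 : (B.map r).coord x ∘ₗ (LinearMap.id : T →ₗ[k] T) =
      B.coord x ∘ₗ r.symm.toLinearMap := by
    ext v
    simp [Basis.coord_apply]
  rw [e2, Basis.map_apply, hY]

lemma sum_coord (B : Basis ι k T) (v : T) : ∑ x, B.coord x v • B x = v := by
  simp only [Basis.coord_apply]
  exact B.sum_repr v

end

end REL

open REL in
/-- REL. -/
theorem stmt_REL (hC : Stmt_CTR) : Stmt_REL := by
  intro k V T Γ ι _ _ _ _ _ _ _ _ _ fr g r b a c F B he hz hg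
  -- the forms
  let BN : (T →ₗ[k] k) →ₗ[k] T →ₗ[k] k :=
    LinearMap.mk₂ k (fun q w => R F fr.th (q ∘ₗ fr.j) fr.e (fr.i w))
      (fun q q' w => by rw [LinearMap.add_comp, R_add_q])
      (fun c q w => by rw [LinearMap.smul_comp, R_smul_q, smul_eq_mul])
      (fun q w w' => by rw [map_add, R_add_w])
      (fun c q w => by rw [map_smul, R_smul_w, smul_eq_mul])
  have hBN : ∀ q w, BN q w = R F fr.th (q ∘ₗ fr.j) fr.e (fr.i w) := fun q w => rfl
  let BQ : Module.End k T → (T →ₗ[k] k) →ₗ[k] T →ₗ[k] k := fun Y =>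
    LinearMap.mk₂ k (fun p v => ∑ x, R F (p ∘ₗ fr.j) (B.coord x ∘ₗ fr.j) (fr.i v)
        (fr.i (Y (B x))))
      (fun p p' v => by
        simp only [LinearMap.add_comp, R_add_p, Finset.sum_add_distrib])
      (fun c p v => by
        simp only [LinearMap.smul_comp, R_smul_p, Finset.mul_sum, smul_eq_mul])
      (fun p v v' => by
        simp only [map_add, R_add_v, Finset.sum_add_distrib])
      (fun c p v => by
        simp only [map_smul, R_smul_v, Finset.mul_sum, smul_eq_mul])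
  have hBQ : ∀ Y p v, BQ Y p v = ∑ x, R F (p ∘ₗ fr.j) (B.coord x ∘ₗ fr.j) (fr.i v)
        (fr.i (Y (B x))) := fun Y p v => rfl
  let N : Module.End k T := toEnd BN
  let Q : Module.End k T → Module.End k T := fun Y => toEnd (BQ Y)
  have hN : ∀ (q : T →ₗ[k] k) w, q (N w) = R F fr.th (q ∘ₗ fr.j) fr.e (fr.i w) := fun q w => by
    rw [← hBN]; exact toEnd_apply BN q w
  have hQ : ∀ Y (p : T →ₗ[k] k) v, p (Q Y v) = ∑ x, R F (p ∘ₗ fr.j) (B.coord x ∘ₗ fr.j)
      (fr.i v) (fr.i (Y (B x))) := fun Y p v => by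
    rw [← hBQ]; exact toEnd_apply (BQ Y) p v
  -- N commutes
  have hNr : ∀ γ t, N (r γ t) = r γ (N t) := by
    intro γ t
    apply ext_fun (k := k)
    intro q
    rw [hN]
    have h1 := eq_thw fr (he γ) hz (hg γ) q t
    have h2 : (r γ : T →ₗ[k] T) t = r γ t := rfl
    rw [h2] at h1
    rw [h1, ← hN]
    rfl
  have comT : ∀ Y : Module.End k T,
      Com (fun γ => ((r γ : T →ₗ[k] T) : Module.End k T)) Y → ∀ γ t, Y (r γ t) = r γ (Y t) := by
    intro Y hY γ t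
    exact LinearMap.congr_fun (hY γ) t
  refine ⟨Q, N, ?_, ?_, ?_, ?_, ?_, ?_, ?_⟩
  · intro γ
    ext t
    exact hNr γ t
  · -- Q Y commutes
    intro Y hY γ
    ext t
    apply ext_fun (k := k)
    intro p
    have hYr := comT Y hY
    have e0 : (Q Y * ((r γ : T →ₗ[k] T) : Module.End k T)) t = Q Y (r γ t) := rfl
    have e0' : (((r γ : T →ₗ[k] T) : Module.End k T) * Q Y) t = r γ (Q Y t) := rfl
    rw [e0, e0', hQ]
    let G : (T →ₗ[k] k) →ₗ[k] T →ₗ[k] k :=
      LinearMap.mk₂ k (fun q w => R F (p ∘ₗ fr.j) (q ∘ₗ fr.j) (fr.i (r γ t)) (fr.i w))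
        (fun q q' w => by rw [LinearMap.add_comp, R_add_q])
        (fun c q w => by rw [LinearMap.smul_comp, R_smul_q, smul_eq_mul])
        (fun q w w' => by rw [map_add, R_add_w])
        (fun c q w => by rw [map_smul, R_smul_w, smul_eq_mul])
    have h1 := ctr_r hC B G (r γ) Y (hYr γ)
    have hG : ∀ q w, G q w = R F (p ∘ₗ fr.j) (q ∘ₗ fr.j) (fr.i (r γ t)) (fr.i w) :=
      fun q w => rfl
    simp only [hG] at h1
    rw [h1]
    have h3 : p (r γ (Q Y t)) = (p ∘ₗ (r γ : T →ₗ[k] T)) (Q Y t) := rfl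
    rw [h3, hQ]
    apply Finset.sum_congr rfl
    intro x _
    have h2 := RT_inv fr (he γ) hz (hg γ) p (B.coord x ∘ₗ (r γ).symm.toLinearMap) t (Y (B x))
    have h4 : (B.coord x ∘ₗ (r γ).symm.toLinearMap) ∘ₗ (r γ : T →ₗ[k] T) = B.coord x := by
      ext v; simp
    rw [h4] at h2
    exact h2
  · -- (i)
    intro Y hY
    have hYr := comT Y hY
    let uf : (T →ₗ[k] k) →ₗ[k] k :=
      { toFun := fun p => ∑ x, R F (p ∘ₗ fr.j) (B.coord x ∘ₗ fr.j) fr.e (fr.i (Y (B x)))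
        map_add' := fun p p' => by
          simp only [LinearMap.add_comp, R_add_p, Finset.sum_add_distrib]
        map_smul' := fun c p => by
          simp only [LinearMap.smul_comp, R_smul_p, Finset.mul_sum, smul_eq_mul,
            RingHom.id_apply] }
    obtain ⟨u, hu⟩ := exists_vec uf
    have hu' : ∀ p : T →ₗ[k] k, p u = ∑ x, R F (p ∘ₗ fr.j) (B.coord x ∘ₗ fr.j) fr.e
        (fr.i (Y (B x))) := hu
    refine ⟨u, fun γ => ?_⟩
    apply ext_fun (k := k)
    intro p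
    rw [hQ]
    let G : (T →ₗ[k] k) →ₗ[k] T →ₗ[k] k :=
      LinearMap.mk₂ k (fun q w => R F (p ∘ₗ fr.j) (q ∘ₗ fr.j) (fr.i (b γ)) (fr.i w))
        (fun q q' w => by rw [LinearMap.add_comp, R_add_q])
        (fun c q w => by rw [LinearMap.smul_comp, R_smul_q, smul_eq_mul])
        (fun q w w' => by rw [map_add, R_add_w])
        (fun c q w => by rw [map_smul, R_smul_w, smul_eq_mul])
    have h1 := ctr_r hC B G (r γ) Y (hYr γ)
    have hG : ∀ q w, G q w = R F (p ∘ₗ fr.j) (q ∘ₗ fr.j) (fr.i (b γ)) (fr.i w) :=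
      fun q w => rfl
    simp only [hG] at h1
    rw [h1]
    -- second contraction, for the form `R (p, q; e, w)`
    let G2 : (T →ₗ[k] k) →ₗ[k] T →ₗ[k] k :=
      LinearMap.mk₂ k (fun q w => R F (p ∘ₗ fr.j) (q ∘ₗ fr.j) fr.e (fr.i w))
        (fun q q' w => by rw [LinearMap.add_comp, R_add_q])
        (fun c q w => by rw [LinearMap.smul_comp, R_smul_q, smul_eq_mul])
        (fun q w w' => by rw [map_add, R_add_w])
        (fun c q w => by rw [map_smul, R_smul_w, smul_eq_mul])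
    have h2 := ctr_r hC B G2 (r γ) Y (hYr γ)
    have hG2 : ∀ q w, G2 q w = R F (p ∘ₗ fr.j) (q ∘ₗ fr.j) fr.e (fr.i w) := fun q w => rfl
    simp only [hG2] at h2
    have h4 : ∀ x, (B.coord x ∘ₗ (r γ).symm.toLinearMap) ∘ₗ (r γ : T →ₗ[k] T) = B.coord x := by
      intro x; ext v; simp
    have h5 : ∀ x, R F (p ∘ₗ fr.j) ((B.coord x ∘ₗ (r γ).symm.toLinearMap) ∘ₗ fr.j)
        (fr.i (b γ)) (fr.i (r γ (Y (B x)))) =
        R F ((p ∘ₗ (r γ : T →ₗ[k] T)) ∘ₗ fr.j) (B.coord x ∘ₗ fr.j) fr.e (fr.i (Y (B x))) +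
        R F (p ∘ₗ fr.j) ((B.coord x ∘ₗ (r γ).symm.toLinearMap) ∘ₗ fr.j) fr.e
          (fr.i (r γ (Y (B x)))) +
        B.coord x ((r γ).symm (b γ)) * (p ∘ₗ (r γ : T →ₗ[k] T)) (N (Y (B x))) +
        p (b γ) * B.coord x (N (Y (B x))) := by
      intro x
      have h6 := eq_ew fr (he γ) hz (hg γ) p (B.coord x ∘ₗ (r γ).symm.toLinearMap) (Y (B x))
      rw [h4 x, ← hN, ← hN] at h6
      exact h6
    simp only [h5, Finset.sum_add_distrib]
    rw [← h2, ← hu', ← hu']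
    have h7 : ∑ x, B.coord x ((r γ).symm (b γ)) * (p ∘ₗ (r γ : T →ₗ[k] T)) (N (Y (B x))) =
        p (N (Y (b γ))) := by
      have h8 : N (Y (b γ)) = r γ (N (Y ((r γ).symm (b γ)))) := by
        rw [← hNr, ← hYr, LinearEquiv.apply_symm_apply]
      rw [h8]
      conv_rhs => rw [← sum_coord B ((r γ).symm (b γ))]
      simp only [map_sum, map_smul, smul_eq_mul]
      rfl
    have h9 : ∑ x, p (b γ) * B.coord x (N (Y (B x))) =
        LinearMap.trace k T (N * Y) * p (b γ) := by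
      rw [← Finset.mul_sum, tr_eq B, mul_comm]
      rfl
    rw [h7, h9]
    simp only [map_add, map_smul, smul_eq_mul]
    have h10 : (p ∘ₗ (r γ : T →ₗ[k] T)) u = p (r γ u) := rfl
    rw [h10]
    ring
  · -- (ii)
    intro Y hY
    have hYr := comT Y hY
    let xf : T →ₗ[k] k :=
      { toFun := fun v => ∑ x, R F fr.om (B.coord x ∘ₗ fr.j) (fr.i v) (fr.i (Y (B x)))
        map_add' := fun v v' => by
          simp only [map_add, R_add_v, Finset.sum_add_distrib]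
        map_smul' := fun c v => by
          simp only [map_smul, R_smul_v, Finset.mul_sum, smul_eq_mul, RingHom.id_apply] }
    have hxf : ∀ v, xf v = ∑ x, R F fr.om (B.coord x ∘ₗ fr.j) (fr.i v) (fr.i (Y (B x))) :=
      fun v => rfl
    refine ⟨xf, fun γ t => ?_⟩
    rw [hQ]
    let G2 : (T →ₗ[k] k) →ₗ[k] T →ₗ[k] k :=
      LinearMap.mk₂ k (fun q w => R F fr.om (q ∘ₗ fr.j) (fr.i (r γ t)) (fr.i w))
        (fun q q' w => by rw [LinearMap.add_comp, R_add_q])
        (fun c q w => by rw [LinearMap.smul_comp, R_smul_q, smul_eq_mul])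
        (fun q w w' => by rw [map_add, R_add_w])
        (fun c q w => by rw [map_smul, R_smul_w, smul_eq_mul])
    have h2 := ctr_r hC B G2 (r γ) Y (hYr γ)
    have hG2 : ∀ q w, G2 q w = R F fr.om (q ∘ₗ fr.j) (fr.i (r γ t)) (fr.i w) := fun q w => rfl
    simp only [hG2] at h2
    have h4 : ∀ x, (B.coord x ∘ₗ (r γ).symm.toLinearMap) ∘ₗ (r γ : T →ₗ[k] T) = B.coord x := by
      intro x; ext v; simp
    have h5 : ∀ x, R F (a γ ∘ₗ fr.j) (B.coord x ∘ₗ fr.j) (fr.i t) (fr.i (Y (B x))) =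
        R F fr.om (B.coord x ∘ₗ fr.j) (fr.i t) (fr.i (Y (B x))) +
        R F fr.om ((B.coord x ∘ₗ (r γ).symm.toLinearMap) ∘ₗ fr.j) (fr.i (r γ t))
          (fr.i (r γ (Y (B x)))) +
        a γ (Y (B x)) * B.coord x (N t) + a γ t * B.coord x (N (Y (B x))) := by
      intro x
      have h6 := eq_om fr (he γ) hz (hg γ) (B.coord x ∘ₗ (r γ).symm.toLinearMap) t (Y (B x))
      rw [h4 x, ← hN, ← hN] at h6
      have e1 : (r γ : T →ₗ[k] T) t = r γ t := rfl
      have e2 : (r γ : T →ₗ[k] T) (Y (B x)) = r γ (Y (B x)) := rfl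
      rw [e1, e2, hNr, hNr] at h6
      have e3 : (B.coord x ∘ₗ (r γ).symm.toLinearMap) (r γ (N t)) = B.coord x (N t) := by simp
      have e4 : (B.coord x ∘ₗ (r γ).symm.toLinearMap) (r γ (N (Y (B x)))) =
          B.coord x (N (Y (B x))) := by simp
      rw [e3, e4] at h6
      exact h6
    simp only [h5, Finset.sum_add_distrib]
    rw [← h2, ← hxf, ← hxf]
    have h7 : ∑ x, a γ (Y (B x)) * B.coord x (N t) = a γ (Y (N t)) := by
      conv_rhs => rw [← sum_coord B (N t)]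
      simp only [map_sum, map_smul, smul_eq_mul]
      exact Finset.sum_congr rfl fun x _ => mul_comm _ _
    have h9 : ∑ x, a γ t * B.coord x (N (Y (B x))) =
        LinearMap.trace k T (N * Y) * a γ t := by
      rw [← Finset.mul_sum, tr_eq B, mul_comm]
      rfl
    rw [h7, h9]
    ring
  · -- (iii)
    let yf : (T →ₗ[k] k) →ₗ[k] k :=
      { toFun := fun q => F fr.th (q ∘ₗ fr.j) fr.e fr.e + F (q ∘ₗ fr.j) fr.th fr.e fr.e
        map_add' := fun q q' => by
          simp only [LinearMap.add_comp, map_add, LinearMap.add_apply]; ring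
        map_smul' := fun c q => by
          simp only [LinearMap.smul_comp, map_smul, LinearMap.smul_apply, smul_eq_mul,
            RingHom.id_apply]; ring }
    obtain ⟨y, hy⟩ := exists_vec yf
    have hy' : ∀ q : T →ₗ[k] k, q y = F fr.th (q ∘ₗ fr.j) fr.e fr.e +
      F (q ∘ₗ fr.j) fr.th fr.e fr.e := hy
    refine ⟨y, fun γ => ?_⟩
    apply ext_fun (k := k)
    intro q
    rw [hN, map_add]
    have e0 : q (r γ y) = (q ∘ₗ (r γ : T →ₗ[k] T)) y := rfl
    rw [e0, hy', hy']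
    have h1 := hg γ fr.th (q ∘ₗ fr.j) fr.e fr.e
    have h2 := hg γ (q ∘ₗ fr.j) fr.th fr.e fr.e
    rw [th_g fr (he γ), j_g fr (he γ), (he γ).g_e] at h1 h2
    simp only [map_add, map_smul, LinearMap.add_apply, LinearMap.smul_apply, smul_eq_mul] at h1 h2
    rw [z2a fr hz _ _ _ (jo fr _) (fr.th_i _) (fr.th_i _),
      z1a fr hz _ _ _ fr.th_o (jo fr _) (fr.th_i _),
      z1b fr hz _ _ _ fr.th_o (jo fr _) (fr.th_i _),
      z1a fr hz _ _ _ fr.th_o (jo fr _) fr.th_o] at h1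
    rw [z2b fr hz _ _ _ (jo fr _) (fr.th_i _) (fr.th_i _),
      z1a fr hz _ _ _ (jo fr _) fr.th_o (fr.th_i _),
      z1b fr hz _ _ _ (jo fr _) fr.th_o (fr.th_i _),
      z1a fr hz _ _ _ (jo fr _) fr.th_o fr.th_o] at h2
    have h3 := z1c fr hz fr.th (q ∘ₗ fr.j) fr.th_o (jo fr _)
    have h4 := z1c fr hz (q ∘ₗ fr.j) fr.th (jo fr _) fr.th_o
    simp only [R]
    linear_combination -h1 - h2 - c γ * h3 - c γ * h4
      - two0 (F fr.th (q ∘ₗ fr.j) fr.e fr.e) - two0 (F (q ∘ₗ fr.j) fr.th fr.e fr.e)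
      + two0 (q (b γ) * F fr.th fr.th fr.e fr.e)
  · -- (iv)
    let xf : T →ₗ[k] k :=
      { toFun := fun v => F fr.om fr.om fr.o (fr.i v) + F fr.om fr.om (fr.i v) fr.o
        map_add' := fun v v' => by
          simp only [map_add, LinearMap.add_apply]; ring
        map_smul' := fun c v => by
          simp only [map_smul, LinearMap.smul_apply, smul_eq_mul, RingHom.id_apply]; ring }
    have hxf : ∀ v, xf v = F fr.om fr.om fr.o (fr.i v) + F fr.om fr.om (fr.i v) fr.o :=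
      fun v => rfl
    refine ⟨xf, fun γ t => ?_⟩
    have e0 : a γ (N t) = R F fr.th (a γ ∘ₗ fr.j) fr.e (fr.i t) := hN (a γ) t
    rw [e0, hxf, hxf]
    have h1 := hg γ fr.om fr.om fr.o (fr.i t)
    have h2 := hg γ fr.om fr.om (fr.i t) fr.o
    rw [om_g fr (he γ), (he γ).g_o, (he γ).g_i] at h1 h2
    simp only [map_add, map_smul, LinearMap.add_apply, LinearMap.smul_apply, smul_eq_mul] at h1 h2
    have ht := fr.th_i t
    have hja := jo fr (a γ)
    rw [z3c fr hz _ _ hja ht, z3c fr hz _ _ fr.th_o ht, z3a fr hz _ _ hja ht,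
      z3a fr hz _ _ fr.th_o ht, z1a fr hz _ _ _ hja hja ht, z1a fr hz _ _ _ fr.th_o hja ht,
      z1a fr hz _ _ _ hja fr.th_o ht, z1a fr hz _ _ _ fr.th_o fr.th_o ht] at h1
    rw [z3d fr hz _ _ hja ht, z3d fr hz _ _ fr.th_o ht, z3b fr hz _ _ hja ht,
      z3b fr hz _ _ fr.th_o ht, z1b fr hz _ _ _ hja hja ht, z1b fr hz _ _ _ fr.th_o hja ht,
      z1b fr hz _ _ _ hja fr.th_o ht, z1b fr hz _ _ _ fr.th_o fr.th_o ht] at h2
    have e1 : (r γ : T →ₗ[k] T) t = r γ t := rfl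
    rw [e1] at h1 h2
    simp only [R]
    linear_combination h1 + h2 - two0 (F fr.om fr.om fr.o (fr.i t))
      - two0 (F fr.om fr.om (fr.i t) fr.o) + two0 (a γ t * F fr.om fr.om fr.o fr.o)
      - two0 (c γ * F fr.th fr.th fr.e (fr.i t)) - two0 (c γ * F fr.th fr.th (fr.i t) fr.e)
  · -- trace
    intro Y Z
    rw [tr_eq B]
    have h1 : ∀ x, B.coord x ((Q Y * Z) (B x)) = ∑ y, R F (B.coord x ∘ₗ fr.j)
        (B.coord y ∘ₗ fr.j) (fr.i (Z (B x))) (fr.i (Y (B y))) := fun x => hQ Y (B.coord x) _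
    simp only [h1]
    unfold TR
    simp only [pull_apply]
    have h2 : ∑ x, ∑ y, (F (B.coord x ∘ₗ fr.j) (B.coord y ∘ₗ fr.j) (fr.i (Y (B x)))
        (fr.i (Z (B y))) + F (B.coord x ∘ₗ fr.j) (B.coord y ∘ₗ fr.j) (fr.i (Z (B y)))
        (fr.i (Y (B x)))) = ∑ x, ∑ y, (F (B.coord y ∘ₗ fr.j) (B.coord x ∘ₗ fr.j)
        (fr.i (Y (B y))) (fr.i (Z (B x))) + F (B.coord y ∘ₗ fr.j) (B.coord x ∘ₗ fr.j)
        (fr.i (Z (B x))) (fr.i (Y (B y)))) := Finset.sum_comm
    rw [h2, ← Finset.sum_add_distrib]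
    apply Finset.sum_congr rfl
    intro x _
    rw [← Finset.sum_add_distrib]
    apply Finset.sum_congr rfl
    intro y _
    simp only [R]
    ring

end Pool.BenStar
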