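import Mathlib

/-!
# Benson's conjecture on V ⊗ V*: the notions used in the statement

`k` is a field, `G` a group, `V` a vector space over `k` and `ρ` a representation of `G` on `V`.
-/

set_option autoImplicit false

namespace Pool.Benson

open Module

section
variable {k : Type} [Field k] {G : Type} [Group G] {V : Type} [AddCommGroup V] [Module k V]
variable {T : Type} [AddCommGroup T] [Module k T]

/-- The subspace `A` is invariant under `G`. -/
def IsInv (ρ : Representation k G V) (A : Submodule k V) : Prop :=
  ∀ g : G, ∀ v ∈ A, ρ g v ∈ A

/-- `V` is an indecomposable representation. -/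
def IsIndec (ρ : Representation k G V) : Prop :=
  Nontrivial V ∧ ∀ A B : Submodule k V, IsInv ρ A → IsInv ρ B → IsCompl A B → A = ⊥ ∨ B = ⊥

/-- The subspace `U` is nonzero and not the direct sum of two nonzero invariant subspaces. -/
def IsIndecIn (ρ : Representation k G V) (U : Submodule k V) : Prop :=
  U ≠ ⊥ ∧ ∀ A B : Submodule k V, IsInv ρ A → IsInv ρ B → A ≤ U → B ≤ U → A ⊓ B = ⊥ →
    A ⊔ B = U → A = ⊥ ∨ B = ⊥

/-- The space is the direct sum of indecomposable invariant subspaces `W 0, ..., W n`, where `W 0`
is a line on which `G` acts trivially and `W 1, ..., W n` have even dimension. -/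
def TrivialPlusEven (ρ : Representation k G V) : Prop :=
  ∃ (n : ℕ) (W : Fin (n + 1) → Submodule k V), DirectSum.IsInternal W ∧
    (∀ i, IsInv ρ (W i)) ∧ (∀ i, IsIndecIn ρ (W i)) ∧ finrank k (W 0) = 1 ∧
    (∀ x ∈ W 0, ∀ g : G, ρ g x = x) ∧ (∀ i, i ≠ 0 → Even (finrank k (W i)))

/-- The conclusion of the conjecture for `V`: the space `V ⊗ V*` is the direct sum of
indecomposable invariant subspaces `W 0, ..., W n`, where `W 0` is a line on which `G` acts
trivially and `W 1, ..., W n` have even dimension. -/
def BensonProperty (ρ : Representation k G V) : Prop :=
  TrivialPlusEven (ρ.tprod ρ.dual)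

/-- The restriction of `ρ` to an invariant subspace. -/
noncomputable def restr (ρ : Representation k G V) (W : Submodule k V) (hW : IsInv ρ W) :
    Representation k G W where
  toFun g := (ρ g).restrict (hW g)
  map_one' := by
    ext v
    simp [LinearMap.restrict_apply]
  map_mul' g h := by
    ext v
    simp [LinearMap.restrict_apply]

/-- The operator of `z` commutes with all operators of `G` and its square is the identity. -/
def IsCentralInvolution (ρ : Representation k G V) (z : G) : Prop :=
  (∀ g, ρ z * ρ g = ρ g * ρ z) ∧ ρ z * ρ z = 1

/-- `τ` is a model of the heart of `z`, the representation of `G` on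
`ker (z - 1) / im (z - 1)`. -/
def IsHeart (ρ : Representation k G V) (z : G) (τ : Representation k G T) : Prop :=
  ∃ π : LinearMap.ker (ρ z - 1) →ₗ[k] T, Function.Surjective π ∧
    (∀ v, π v = 0 ↔ (v : V) ∈ LinearMap.range (ρ z - 1)) ∧
    ∀ (g : G) (v : LinearMap.ker (ρ z - 1)) (h : ρ g v ∈ LinearMap.ker (ρ z - 1)),
      π ⟨ρ g v, h⟩ = τ g (π v)

end

/-- The smallest class of finite-dimensional representations over `k` that contains the
odd-dimensional ones satisfying the conjecture and is closed under the following steps. -/
inductive Reducible (k : Type) [Field k] :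
    ∀ (G V : Type) [Group G] [AddCommGroup V] [Module k V], Representation k G V → Prop
  /-- The conjecture holds for `V`. -/
  | base {G V : Type} [Group G] [AddCommGroup V] [Module k V] [FiniteDimensional k V]
      (ρ : Representation k G V) (hodd : Odd (finrank k V)) (h : BensonProperty ρ) :
      Reducible k G V ρ
  /-- The restriction of `V` along a homomorphism `H → G`, for example to a subgroup, is in the
  class. -/
  | restriction {G H V : Type} [Group G] [Group H] [AddCommGroup V] [Module k V]
      [FiniteDimensional k V] (ρ : Representation k G V) (φ : H →* G)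
      (h : Reducible k H V (MonoidHom.comp ρ φ)) : Reducible k G V ρ
  /-- `V` is the direct sum of `W`, which is in the class, and of `W'`, all of whose
  indecomposable direct summands have even dimension. -/
  | summand {G V : Type} [Group G] [AddCommGroup V] [Module k V] [FiniteDimensional k V]
      (ρ : Representation k G V) (W W' : Submodule k V) (hW : IsInv ρ W) (hW' : IsInv ρ W')
      (hc : IsCompl W W') (h : Reducible k G W (restr ρ W hW))
      (heven : ∀ (U U' : Submodule k V) (hU : IsInv ρ U), IsInv ρ U' → U ⊓ U' = ⊥ →
        U ⊔ U' = W' → IsIndec (restr ρ U hU) → Even (finrank k U)) : Reducible k G V ρ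
  /-- The heart of a central involution `z` is in the class. -/
  | heart {G V T : Type} [Group G] [AddCommGroup V] [Module k V] [FiniteDimensional k V]
      [AddCommGroup T] [Module k T] [FiniteDimensional k T] (ρ : Representation k G V) (z : G)
      (hz : IsCentralInvolution ρ z) (τ : Representation k G T) (hT : IsHeart ρ z τ)
      (h : Reducible k G T τ) : Reducible k G V ρ
  /-- `G` is a 2-group, `V` is indecomposable, the central involution `z` acts on `V` as a
  transvection, that is, `z - 1` has rank one, and every odd-dimensional indecomposable direct
  summand of the heart of `z` is in the class (there may be several such summands). -/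
  | transvection {G V T : Type} [Group G] [AddCommGroup V] [Module k V] [FiniteDimensional k V]
      [AddCommGroup T] [Module k T] [FiniteDimensional k T] (ρ : Representation k G V) (z : G)
      (hG : IsPGroup 2 G) (hV : IsIndec ρ) (hz : IsCentralInvolution ρ z)
      (h1 : finrank k (LinearMap.range (ρ z - 1)) = 1) (τ : Representation k G T)
      (hT : IsHeart ρ z τ)
      (hs : ∀ (U U' : Submodule k T) (hU : IsInv τ U), IsInv τ U' → IsCompl U U' →
        IsIndec (restr τ U hU) → Odd (finrank k U) → Reducible k G U (restr τ U hU)) :
      Reducible k G V ρ

end Pool.Benson
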