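import Pool.Agent.Work.MP_26c40d_31.Interface

/-! TATE: the trace only sees the middle part. -/

set_option autoImplicit false

namespace Pool.BenStar

open Module

namespace TATE

variable {k V σ τ : Type} [Field k] [AddCommGroup V] [Module k V] [Fintype σ] [Fintype τ]

/-- exchange of the two vectors -/
noncomputable def sw (F : F4 k V) : F4 k V :=
  LinearMap.mk₂ k (fun p q => (F p q).flip)
    (fun p p' q => by ext v w; simp)
    (fun c p q => by ext v w; simp)
    (fun p q q' => by ext v w; simp)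
    (fun c p q => by ext v w; simp)

@[simp] lemma sw_apply (F : F4 k V) (p q : V →ₗ[k] k) (v w : V) : sw F p q v w = F p q w v := rfl

lemma sw_inv (F : F4 k V) (g : V →ₗ[k] V) (h : Inv F g) : Inv (sw F) g := by
  intro p q v w
  simp only [sw_apply]
  exact h p q w v

section
variable (b : Basis (σ ⊕ (τ ⊕ σ)) k V) (ζ : V →ₗ[k] V)
  (he : ∀ s, ζ (b (Sum.inl s)) = b (Sum.inr (Sum.inr s)))
  (ht : ∀ t, ζ (b (Sum.inr (Sum.inl t))) = 0)
  (ho : ∀ s, ζ (b (Sum.inr (Sum.inr s))) = 0)
include he ht ho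

omit [Fintype σ] [Fintype τ] in
lemma co_e (s : σ) : b.coord (Sum.inl s) ∘ₗ (LinearMap.id + ζ) = b.coord (Sum.inl s) := by
  refine b.ext fun i => ?_
  rcases i with s' | t' | s'
  · simp [he]
  · simp [ht]
  · simp [ho]

omit [Fintype σ] [Fintype τ] in
lemma co_t (t : τ) : b.coord (Sum.inr (Sum.inl t)) ∘ₗ (LinearMap.id + ζ) =
    b.coord (Sum.inr (Sum.inl t)) := by
  refine b.ext fun i => ?_
  rcases i with s' | t' | s'
  · simp [he]
  · simp [ht]
  · simp [ho]

omit [Fintype σ] [Fintype τ] in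
lemma co_o (s : σ) : b.coord (Sum.inr (Sum.inr s)) ∘ₗ (LinearMap.id + ζ) =
    b.coord (Sum.inr (Sum.inr s)) + b.coord (Sum.inl s) := by
  classical
  refine b.ext fun i => ?_
  rcases i with s' | t' | s'
  · simp [he, Finsupp.single_apply]
  · simp [ht]
  · simp [ho]

lemma main [CharP k 2] (F : F4 k V) (hF : Inv F (LinearMap.id + ζ)) :
    ∑ i, ∑ j, F (b.coord i) (b.coord j) (b i) (b j) =
      ∑ t, ∑ t', F (b.coord (Sum.inr (Sum.inl t))) (b.coord (Sum.inr (Sum.inl t')))
          (b (Sum.inr (Sum.inl t))) (b (Sum.inr (Sum.inl t'))) := by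
  have ce := co_e b ζ he ht ho
  have ct := co_t b ζ he ht ho
  have cO := co_o b ζ he ht ho
  have two : ∀ x : k, x + x = 0 := fun x => CharTwo.add_self_eq_zero x
  have L1 : ∀ (s : σ) (t : τ),
      F (b.coord (Sum.inl s)) (b.coord (Sum.inr (Sum.inl t))) (b (Sum.inl s))
        (b (Sum.inr (Sum.inl t))) +
      F (b.coord (Sum.inr (Sum.inr s))) (b.coord (Sum.inr (Sum.inl t))) (b (Sum.inr (Sum.inr s)))
        (b (Sum.inr (Sum.inl t))) = 0 := by
    intro s t
    have h := hF (b.coord (Sum.inr (Sum.inr s))) (b.coord (Sum.inr (Sum.inl t))) (b (Sum.inl s))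
      (b (Sum.inr (Sum.inl t)))
    rw [cO, ct] at h
    simp only [LinearMap.add_apply, LinearMap.id_apply, he, ht, add_zero, map_add] at h
    have h2 := two (F (b.coord (Sum.inr (Sum.inr s))) (b.coord (Sum.inr (Sum.inl t)))
      (b (Sum.inr (Sum.inr s))) (b (Sum.inr (Sum.inl t))))
    linear_combination h + h2
  have L2 : ∀ (t : τ) (s : σ),
      F (b.coord (Sum.inr (Sum.inl t))) (b.coord (Sum.inl s)) (b (Sum.inr (Sum.inl t)))
        (b (Sum.inl s)) +
      F (b.coord (Sum.inr (Sum.inl t))) (b.coord (Sum.inr (Sum.inr s))) (b (Sum.inr (Sum.inl t)))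
        (b (Sum.inr (Sum.inr s))) = 0 := by
    intro t s
    have h := hF (b.coord (Sum.inr (Sum.inl t))) (b.coord (Sum.inr (Sum.inr s)))
      (b (Sum.inr (Sum.inl t))) (b (Sum.inl s))
    rw [cO, ct] at h
    simp only [LinearMap.add_apply, LinearMap.id_apply, he, ht, add_zero, map_add] at h
    have h2 := two (F (b.coord (Sum.inr (Sum.inl t))) (b.coord (Sum.inr (Sum.inr s)))
      (b (Sum.inr (Sum.inl t))) (b (Sum.inr (Sum.inr s))))
    linear_combination h + h2
  have L3 : ∀ (i j : σ),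
      F (b.coord (Sum.inl i)) (b.coord (Sum.inl j)) (b (Sum.inl i)) (b (Sum.inl j)) +
      F (b.coord (Sum.inr (Sum.inr i))) (b.coord (Sum.inl j)) (b (Sum.inr (Sum.inr i)))
        (b (Sum.inl j)) +
      F (b.coord (Sum.inl i)) (b.coord (Sum.inr (Sum.inr j))) (b (Sum.inl i))
        (b (Sum.inr (Sum.inr j))) +
      F (b.coord (Sum.inr (Sum.inr i))) (b.coord (Sum.inr (Sum.inr j))) (b (Sum.inr (Sum.inr i)))
        (b (Sum.inr (Sum.inr j))) = 0 := by
    intro i j
    have h1 := hF (b.coord (Sum.inr (Sum.inr i))) (b.coord (Sum.inl j)) (b (Sum.inl i))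
      (b (Sum.inl j))
    have h2 := hF (b.coord (Sum.inr (Sum.inr i))) (b.coord (Sum.inr (Sum.inr j))) (b (Sum.inl i))
      (b (Sum.inr (Sum.inr j)))
    have h3 := hF (b.coord (Sum.inr (Sum.inr i))) (b.coord (Sum.inl j)) (b (Sum.inl i))
      (b (Sum.inr (Sum.inr j)))
    rw [cO, ce] at h1 h3
    rw [cO, cO] at h2
    simp only [LinearMap.add_apply, LinearMap.id_apply, he, ho, add_zero, map_add] at h1 h2 h3
    have t1 := two (F (b.coord (Sum.inr (Sum.inr i))) (b.coord (Sum.inl j))
      (b (Sum.inr (Sum.inr i))) (b (Sum.inl j)))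
    have t2 := two (F (b.coord (Sum.inr (Sum.inr i))) (b.coord (Sum.inl j))
      (b (Sum.inl i)) (b (Sum.inr (Sum.inr j))))
    have t3 := two (F (b.coord (Sum.inl i)) (b.coord (Sum.inr (Sum.inr j)))
      (b (Sum.inl i)) (b (Sum.inr (Sum.inr j))))
    have t4 := two (F (b.coord (Sum.inr (Sum.inr i))) (b.coord (Sum.inl j))
      (b (Sum.inr (Sum.inr i))) (b (Sum.inr (Sum.inr j))))
    linear_combination h1 - h2 + h3 + t1 + t2 + t3 + t4
  simp only [Fintype.sum_sum_type, Finset.sum_add_distrib]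
  have S1 := Finset.sum_congr (rfl : (Finset.univ : Finset σ) = Finset.univ)
    (fun s _ => Finset.sum_congr (rfl : (Finset.univ : Finset τ) = Finset.univ)
      (fun t _ => L1 s t))
  have S2 := Finset.sum_congr (rfl : (Finset.univ : Finset τ) = Finset.univ)
    (fun t _ => Finset.sum_congr (rfl : (Finset.univ : Finset σ) = Finset.univ)
      (fun s _ => L2 t s))
  have S3 := Finset.sum_congr (rfl : (Finset.univ : Finset σ) = Finset.univ)
    (fun s _ => Finset.sum_congr (rfl : (Finset.univ : Finset σ) = Finset.univ)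
      (fun t _ => L3 s t))
  simp only [Finset.sum_add_distrib, Finset.sum_const_zero] at S1 S2 S3
  linear_combination S1 + S2 + S3

end

end TATE

open TATE in
theorem stmt_TATE : Stmt_TATE := by
  intro k V σ τ _ _ _ _ _ _ b ζ F he ht ho hF
  have h1 := main b ζ he ht ho F hF
  have h2 := main b ζ he ht ho (sw F) (sw_inv F _ hF)
  simp only [sw_apply] at h2
  simp only [TR, LinearMap.id_apply, Finset.sum_add_distrib]
  rw [h1, h2]

end Pool.BenStar
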