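import Pool.Agent.Work.MP_26c40d_31.Dim
import Pool.Agent.Work.MP_26c40d_31.ALG
import Pool.Agent.Work.MP_26c40d_31.IND
import Pool.Agent.Work.MP_26c40d_31.REL
import Pool.Agent.Work.MP_26c40d_31.EVEN
import Pool.Agent.Work.MP_26c40d_31.HEX
import Pool.Agent.Work.MP_26c40d_31.CENT
import Pool.Agent.Work.MP_26c40d_31.LOC
import Pool.Agent.Work.MP_26c40d_31.IDEM
import Pool.Agent.Work.MP_26c40d_31.PRIM
import Pool.Agent.Work.MP_26c40d_31.CTR
import Pool.Agent.Work.MP_26c40d_31.TATE
import Pool.Agent.Work.MP_26c40d_31.HBAS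
import Pool.Agent.Work.MP_26c40d_31.CONV
import Pool.Agent.Work.MP_26c40d_31.CONV2
import Pool.Agent.Work.MP_26c40d_31.Statement

/-!
# MP_26c40d_al: the main theorems (helper31)
-/

set_option autoImplicit false

namespace Pool.BenStar

open Module

section
variable {k : Type} [Field k] {G : Type} [Group G] {V : Type} [AddCommGroup V] [Module k V]

/-- Representations in the class satisfy the conjecture. -/
theorem concl_of_good [IsAlgClosed k] [CharP k 2] {ρ : Representation k G V}
    (h : Good k G V ρ) (hodd : Odd (finrank k V)) : Concl ρ := by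
  have hfin : FiniteDimensional k V := by
    apply Module.finite_of_finrank_pos
    rcases hodd with ⟨m, hm⟩
    omega
  exact stmt_CONV stmt_PRIM k G V ρ hodd
    (star_of_good stmt_CTR stmt_TATE stmt_HBAS (stmt_REL stmt_CTR) stmt_IND
      (stmt_ALG stmt_IDEM stmt_PRIM) (stmt_EVEN (stmt_LOC stmt_IDEM) stmt_CTR) stmt_PRIM
      (stmt_CONV2 (stmt_LOC stmt_IDEM)) h)

theorem good_of_reducible {ρ : Representation k G V} (h : Pool.Benson.Reducible k G V ρ) :
    Good k G V ρ := by
  induction h with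
  | base ρ hodd h => exact Good.known ρ hodd h
  | restriction ρ φ h ih => exact Good.restrict ρ φ ih
  | summand ρ W W' hW hW' hc h heven ih =>
    exact Good.oneOdd ρ W W' hW hW' hc ih heven
  | heart ρ z hz τ hT h ih => exact Good.heart ρ z hz τ hT ih
  | transvection ρ z hG hV hz h1 τ hT hs ih =>
    exact Good.transvection ρ z hG hV hz h1 τ hT ih

theorem benson_of_reducible [IsAlgClosed k] [CharP k 2] {ρ : Representation k G V}
    (h : Pool.Benson.Reducible k G V ρ) (hodd : Odd (finrank k V)) :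
    Pool.Benson.BensonProperty ρ :=
  concl_of_good (good_of_reducible h) hodd

/-- Dimension at most seven. -/
theorem concl_seven [IsAlgClosed k] [CharP k 2] [FiniteDimensional k V] [Finite G]
    (hG : IsPGroup 2 G) (ρ : Representation k G V) (hρ : Indec ρ) (hodd : Odd (finrank k V))
    (h7 : finrank k V ≤ 7)
    (hex : finrank k V = 7 → ∃ z : G, ρ z * ρ z = 1 ∧
      (finrank k (LinearMap.range (ρ z - 1)) = 3 ∨
      (finrank k (LinearMap.range (ρ z - 1)) = 1 ∧ ∀ g, ρ z * ρ g = ρ g * ρ z) ∨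
      (finrank k (LinearMap.range (ρ z - 1)) = 2 ∧ ∃ g, ρ z * ρ g = ρ g * ρ z ∧
        ∃ v ∈ LinearMap.ker (ρ z - 1), ρ g v - v ∉ LinearMap.range (ρ z - 1)))) : Concl ρ := by
  refine concl_of_good ?_ hodd
  rcases Nat.lt_or_ge 5 (finrank k V) with h5 | h5
  · have h7' : finrank k V = 7 := by
      obtain ⟨m, hm⟩ := hodd
      omega
    obtain ⟨z, hz2, hz⟩ := hex h7'
    exact DIM.good_seven (stmt_CONV stmt_PRIM) stmt_HBAS stmt_HEX stmt_CENT hG ρ hρ h7' z
      hz2 hz
  · exact DIM.good_five (stmt_CONV stmt_PRIM) stmt_HBAS stmt_HEX stmt_CENT hG ρ hρ hodd h5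

end

end Pool.BenStar
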