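import Pool.Agent.Work.MP_26c40d_31.Good

/-!
# MP_26c40d_al: small dimensions (helper31)
-/

set_option autoImplicit false
set_option linter.unusedSectionVars false
set_option linter.unusedSimpArgs false

namespace Pool.BenStar

open Module

section
variable {k : Type} [Field k] {G : Type} [Group G] {V : Type} [AddCommGroup V] [Module k V]
variable {T : Type} [AddCommGroup T] [Module k T]

namespace DIM

/-- the dimension of the heart -/
lemma finrank_heart (hH : Stmt_HBAS) [CharP k 2] [FiniteDimensional k V] [FiniteDimensional k T]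
    {ρ : Representation k G V} {z : G} (hz : CentInv ρ z) {τ : Representation k G T}
    (hT : IsHeart ρ z τ) :
    finrank k V = finrank k T + 2 * finrank k (LinearMap.range (ρ z - 1)) := by
  obtain ⟨σ, _, b, i, j, hcard, -⟩ := HEART.exists_ad hH hz hT (finBasis k T)
  have h1 := finrank_eq_card_basis b
  rw [Fintype.card_sum, Fintype.card_sum, hcard, Fintype.card_fin] at h1
  omega

/-- dimension one -/
lemma star_one [CharP k 2] (ρ : Representation k G V) (h1 : finrank k V = 1) :
    Star (fun g => ρ g) := by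
  intro ι _ b F _
  have hc : Fintype.card ι = 1 := by rw [← finrank_eq_card_basis b, h1]
  rw [Fintype.card_eq_one_iff] at hc
  obtain ⟨x, hx⟩ := hc
  unfold TR
  refine Finset.sum_eq_zero fun y _ => Finset.sum_eq_zero fun w _ => ?_
  rw [hx y, hx w]
  exact CharTwo.add_self_eq_zero _

lemma good_one (hV : Stmt_CONV) [CharP k 2] [FiniteDimensional k V] (ρ : Representation k G V)
    (h1 : finrank k V = 1) : Good k G V ρ :=
  Good.known ρ (by rw [h1]; exact odd_one) (hV k G V ρ (by rw [h1]; exact odd_one)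
    (star_one ρ h1))

/-- an operator `ρ z ≠ 1` has positive rank -/
lemma rank_pos [FiniteDimensional k V] {ρ : Representation k G V} {z : G} (h : ρ z ≠ 1) :
    1 ≤ finrank k (LinearMap.range (ρ z - 1)) := by
  rw [Nat.one_le_iff_ne_zero]
  intro h0
  rw [Submodule.finrank_eq_zero, LinearMap.range_eq_bot] at h0
  exact h (sub_eq_zero.1 h0)

/-- dimension three, nontrivial action -/
lemma good_three (hV : Stmt_CONV) (hH : Stmt_HBAS) (hX : Stmt_HEX) (hN : Stmt_CENT) [CharP k 2]
    [FiniteDimensional k V] [Finite G] (hG : IsPGroup 2 G) (ρ : Representation k G V)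
    (h3 : finrank k V = 3) (h : ∃ g, ρ g ≠ 1) : Good k G V ρ := by
  obtain ⟨z, hz, hz1⟩ := hN k G V ρ hG h
  obtain ⟨T, _, _, _, τ, hT⟩ := hX k G V ρ z hz
  have hd := finrank_heart hH hz hT
  have hr := rank_pos hz1
  have h1 : finrank k T = 1 := by omega
  exact Good.heart ρ z hz τ hT (good_one hV τ h1)

/-- an indecomposable representation of dimension at least two is nontrivial -/
lemma nontriv [FiniteDimensional k V] {ρ : Representation k G V} (hρ : Indec ρ)
    (h2 : 2 ≤ finrank k V) : ∃ g, ρ g ≠ 1 := by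
  by_contra hn
  simp only [not_exists, not_not] at hn
  have hinv : ∀ A : Submodule k V, InvSub ρ A := by
    intro A g v hv
    rw [hn g]
    exact hv
  have : Nontrivial V := hρ.1
  obtain ⟨v, hv⟩ := exists_ne (0 : V)
  obtain ⟨B, hB⟩ := Submodule.exists_isCompl (Submodule.span k {v})
  rcases hρ.2 _ B (hinv _) (hinv _) hB with h | h
  · rw [Submodule.span_singleton_eq_bot] at h
    exact hv h
  · have h1 := Submodule.finrank_add_eq_of_isCompl hB
    rw [h, finrank_bot, finrank_span_singleton hv] at h1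
    omega

/-- dimension at most five -/
theorem good_five (hV : Stmt_CONV) (hH : Stmt_HBAS) (hX : Stmt_HEX) (hN : Stmt_CENT) [CharP k 2]
    [FiniteDimensional k V] [Finite G] (hG : IsPGroup 2 G) (ρ : Representation k G V)
    (hρ : Indec ρ) (hodd : Odd (finrank k V)) (h5 : finrank k V ≤ 5) : Good k G V ρ := by
  have hcases : finrank k V = 1 ∨ finrank k V = 3 ∨ finrank k V = 5 := by
    obtain ⟨m, hm⟩ := hodd
    omega
  rcases hcases with h | h | h
  · exact good_one hV ρ h
  · exact good_three hV hH hX hN hG ρ h (nontriv hρ (by omega))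
  · obtain ⟨z, hz, hz1⟩ := hN k G V ρ hG (nontriv hρ (by omega))
    obtain ⟨T, _, _, _, τ, hT⟩ := hX k G V ρ z hz
    have hd := finrank_heart hH hz hT
    have hr := rank_pos hz1
    rcases Nat.lt_or_ge (finrank k (LinearMap.range (ρ z - 1))) 2 with h2 | h2
    · refine Good.transvection ρ z hG hρ hz (by omega) τ hT ?_
      intro U U' hU _ _ hind hUodd
      have hle : finrank k U ≤ finrank k T := Submodule.finrank_le U
      have hcU : finrank k U = 1 ∨ finrank k U = 3 := by
        obtain ⟨m, hm⟩ := hUodd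
        omega
      rcases hcU with h' | h'
      · exact good_one hV _ h'
      · exact good_three hV hH hX hN hG _ h' (nontriv hind (by omega))
    · exact Good.heart ρ z hz τ hT (good_one hV τ (by omega))

/-- nontriviality of the action on the heart -/
lemma heart_nontriv {ρ : Representation k G V} {z : G} (hz : CentInv ρ z)
    {τ : Representation k G T} (hT : IsHeart ρ z τ) {g : G} {v : V}
    (hv : v ∈ LinearMap.ker (ρ z - 1)) (hgv : ρ g v - v ∉ LinearMap.range (ρ z - 1)) :
    τ g ≠ 1 := by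
  intro h1
  obtain ⟨π, hπs, hπ0, hπg⟩ := hT
  have hg : ρ g v ∈ LinearMap.ker (ρ z - 1) := by
    rw [LinearMap.mem_ker, HEART.comm hz, LinearMap.mem_ker.1 hv, map_zero]
  have e := hπg g ⟨v, hv⟩ hg
  rw [h1, Module.End.one_apply] at e
  have e2 : π (⟨ρ g v, hg⟩ - ⟨v, hv⟩) = 0 := by rw [map_sub, e, sub_self]
  exact hgv ((hπ0 _).1 e2)

/-- an involution, not necessarily central, whose heart for its centralizer is good -/
lemma good_centralizer (hX : Stmt_HEX) [FiniteDimensional k V]
    (ρ : Representation k G V) (z : G) (hz2 : ρ z * ρ z = 1)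
    (H : Subgroup G) (hzH : z ∈ H) (hH : ∀ g ∈ H, ρ z * ρ g = ρ g * ρ z)
    (hgood : ∀ (T : Type) [AddCommGroup T] [Module k T] [FiniteDimensional k T]
      (τ : Representation k H T), IsHeart (MonoidHom.comp ρ H.subtype) ⟨z, hzH⟩ τ →
      Good k H T τ) : Good k G V ρ := by
  refine Good.restrict ρ H.subtype ?_
  have hz : CentInv (MonoidHom.comp ρ H.subtype : Representation k H V) ⟨z, hzH⟩ :=
    ⟨fun g => hH g g.2, hz2⟩
  obtain ⟨T, _, _, _, τ, hT⟩ := hX k H V (MonoidHom.comp ρ H.subtype) ⟨z, hzH⟩ hz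
  exact Good.heart _ ⟨z, hzH⟩ hz τ hT (hgood T τ hT)

/-- dimension seven -/
theorem good_seven (hV : Stmt_CONV) (hH : Stmt_HBAS) (hX : Stmt_HEX) (hN : Stmt_CENT) [CharP k 2]
    [FiniteDimensional k V] [Finite G] (hG : IsPGroup 2 G) (ρ : Representation k G V)
    (hρ : Indec ρ) (h7 : finrank k V = 7) (z : G) (hz2 : ρ z * ρ z = 1)
    (h : finrank k (LinearMap.range (ρ z - 1)) = 3 ∨
      (finrank k (LinearMap.range (ρ z - 1)) = 1 ∧ ∀ g, ρ z * ρ g = ρ g * ρ z) ∨
      (finrank k (LinearMap.range (ρ z - 1)) = 2 ∧ ∃ g, ρ z * ρ g = ρ g * ρ z ∧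
        ∃ v ∈ LinearMap.ker (ρ z - 1), ρ g v - v ∉ LinearMap.range (ρ z - 1))) :
    Good k G V ρ := by
  rcases h with h | ⟨h, hz⟩ | ⟨h, g, hg, v, hv, hgv⟩
  · -- the cyclic group generated by `z`
    refine good_centralizer hX ρ z hz2 (Subgroup.zpowers z) (Subgroup.mem_zpowers z) ?_ ?_
    · rintro _ ⟨n, rfl⟩
      change ρ z * ρ (z ^ n) = ρ (z ^ n) * ρ z
      rw [← map_mul, ← map_mul, (Commute.refl z).zpow_right n |>.eq]
    · intro T _ _ _ τ hT
      have hd := finrank_heart hH (ρ := (MonoidHom.comp ρ (Subgroup.zpowers z).subtype :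
        Representation k (Subgroup.zpowers z) V)) (z := ⟨z, Subgroup.mem_zpowers z⟩) ⟨?_, hz2⟩ hT
      · refine good_one hV τ ?_
        have hd' : finrank k V = finrank k T + 2 * finrank k (LinearMap.range (ρ z - 1)) := hd
        omega
      · rintro ⟨_, n, rfl⟩
        change ρ z * ρ (z ^ n) = ρ (z ^ n) * ρ z
        rw [← map_mul, ← map_mul, (Commute.refl z).zpow_right n |>.eq]
  · obtain ⟨T, _, _, _, τ, hT⟩ := hX k G V ρ z ⟨hz, hz2⟩
    have hd := finrank_heart hH ⟨hz, hz2⟩ hT
    refine Good.transvection ρ z hG hρ ⟨hz, hz2⟩ h τ hT ?_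
    intro U U' hU _ _ hind hUodd
    have hle : finrank k U ≤ finrank k T := Submodule.finrank_le U
    exact good_five hV hH hX hN hG _ hind hUodd (by omega)
  · -- the centralizer of `ρ z`
    let H : Subgroup G :=
      { carrier := {g | ρ z * ρ g = ρ g * ρ z}
        mul_mem' := by
          intro a b ha hb
          change ρ z * ρ (a * b) = ρ (a * b) * ρ z
          rw [map_mul, ← mul_assoc, show ρ z * ρ a = ρ a * ρ z from ha, mul_assoc,
            show ρ z * ρ b = ρ b * ρ z from hb, mul_assoc]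
        one_mem' := by
          change ρ z * ρ 1 = ρ 1 * ρ z
          rw [map_one, one_mul, mul_one]
        inv_mem' := by
          intro a ha
          change ρ z * ρ a⁻¹ = ρ a⁻¹ * ρ z
          have h1 : ρ a * ρ a⁻¹ = 1 := by rw [← map_mul, mul_inv_cancel, map_one]
          have h2 : ρ a⁻¹ * ρ a = 1 := by rw [← map_mul, inv_mul_cancel, map_one]
          have h3 : ρ z * ρ a = ρ a * ρ z := ha
          calc ρ z * ρ a⁻¹ = (ρ a⁻¹ * ρ a) * (ρ z * ρ a⁻¹) := by rw [h2, one_mul]
            _ = ρ a⁻¹ * (ρ a * ρ z) * ρ a⁻¹ := by simp only [mul_assoc]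
            _ = ρ a⁻¹ * (ρ z * ρ a) * ρ a⁻¹ := by rw [h3]
            _ = ρ a⁻¹ * ρ z * (ρ a * ρ a⁻¹) := by simp only [mul_assoc]
            _ = ρ a⁻¹ * ρ z := by rw [h1, mul_one] }
    have hzH : z ∈ H := by
      change ρ z * ρ z = ρ z * ρ z
      rfl
    refine good_centralizer hX ρ z hz2 H hzH (fun g hg => hg) ?_
    intro T _ _ _ τ hT
    have hcent : CentInv (MonoidHom.comp ρ H.subtype : Representation k H V) ⟨z, hzH⟩ :=
      ⟨fun g => g.2, hz2⟩
    have hd := finrank_heart hH hcent hT
    have hd' : finrank k V = finrank k T + 2 * finrank k (LinearMap.range (ρ z - 1)) := hd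
    have hGH : IsPGroup 2 H := hG.to_subgroup H
    refine good_three hV hH hX hN hGH τ (by omega) ?_
    exact ⟨⟨g, hg⟩, heart_nontriv hcent hT (g := ⟨g, hg⟩) (v := v) hv hgv⟩

end DIM

end

end Pool.BenStar
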