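import Pool.Agent.Work.MP_26c40d_31.Interface

/-! HBAS: bases adapted to a square-zero operator. -/

set_option autoImplicit false

namespace Pool.BenStar

open Module

theorem stmt_HBAS : Stmt_HBAS := by
  intro k V T τ _ _ _ _ _ _ _ ζ π c hζ hπ hker
  obtain ⟨E, hE⟩ := Submodule.exists_isCompl (LinearMap.ker ζ)
  let e : Basis (Fin (finrank k E)) k E := finBasis k E
  choose t ht using fun u : τ => hπ (c u)
  have hinj : ∀ v ∈ E, ζ v = 0 → v = 0 := fun v hv h =>
    (Submodule.disjoint_def.1 hE.disjoint) v (LinearMap.mem_ker.2 h) hv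
  let f : Fin (finrank k E) ⊕ (τ ⊕ Fin (finrank k E)) → V :=
    Sum.elim (fun s => (e s : V)) (Sum.elim (fun u => (t u : V)) (fun s => ζ (e s)))
  have hsumE : ∀ g : Fin (finrank k E) → k, (∑ s, g s • (e s : V)) ∈ E := fun g =>
    Submodule.sum_mem _ fun s _ => Submodule.smul_mem _ _ (e s).2
  have hzero : ∀ g : Fin (finrank k E) → k, ∑ s, g s • (e s : V) = 0 → ∀ s, g s = 0 := by
    intro g hg
    have h1 : ∑ s, g s • e s = 0 := by
      apply Subtype.ext
      simpa using hg
    exact Fintype.linearIndependent_iff.1 e.linearIndependent g h1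
  have hζsum : ∀ g : Fin (finrank k E) → k, ζ (∑ s, g s • (e s : V)) = ∑ s, g s • ζ (e s) := by
    intro g
    simp
  have hζt : ∀ u, ζ (t u : V) = 0 := fun u => LinearMap.mem_ker.1 (t u).2
  have hli : LinearIndependent k f := by
    rw [Fintype.linearIndependent_iff]
    intro g hg
    rw [Fintype.sum_sum_type, Fintype.sum_sum_type] at hg
    simp only [f, Sum.elim_inl, Sum.elim_inr] at hg
    have h1 : ζ (∑ s, g (Sum.inl s) • (e s : V)) = 0 := by
      have := congrArg ζ hg
      simp only [map_add, map_sum, map_smul, hζt, hζ, smul_zero, Finset.sum_const_zero, add_zero,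
        map_zero] at this
      simpa using this
    have h2 := hinj _ (hsumE _) h1
    have h3 := hzero _ h2
    rw [h2, zero_add] at hg
    -- now the middle part
    let κ : LinearMap.ker ζ := ∑ u, g (Sum.inr (Sum.inl u)) • t u
    have hκ : (κ : V) = ∑ u, g (Sum.inr (Sum.inl u)) • (t u : V) := by
      simp [κ]
    have h4 : (κ : V) ∈ LinearMap.range ζ := by
      refine ⟨-∑ s, g (Sum.inr (Sum.inr s)) • (e s : V), ?_⟩
      rw [map_neg, hζsum, hκ]
      exact (eq_neg_of_add_eq_zero_left hg).symm
    have h5 : π κ = 0 := (hker κ).2 h4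
    have h6 : ∑ u, g (Sum.inr (Sum.inl u)) • c u = 0 := by
      rw [← h5]
      simp [κ, ht]
    have h7 := Fintype.linearIndependent_iff.1 c.linearIndependent _ h6
    have h8 : ∑ u, g (Sum.inr (Sum.inl u)) • (t u : V) = 0 :=
      Finset.sum_eq_zero fun u _ => by rw [h7 u, zero_smul]
    rw [h8, zero_add, ← hζsum] at hg
    have h9 := hzero _ (hinj _ (hsumE _) hg)
    rintro (s | u | s)
    · exact h3 s
    · exact h7 u
    · exact h9 s
  have hsp : ⊤ ≤ Submodule.span k (Set.range f) := by
    have hES : ∀ v ∈ E, v ∈ Submodule.span k (Set.range f) := by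
      intro v hv
      have h1 : v = ∑ s, e.repr ⟨v, hv⟩ s • (e s : V) := by
        have := congrArg (Submodule.subtype E) (e.sum_repr ⟨v, hv⟩)
        simp only [map_sum, map_smul, Submodule.subtype_apply] at this
        exact this.symm
      rw [h1]
      exact Submodule.sum_mem _ fun s _ =>
        Submodule.smul_mem _ _ (Submodule.subset_span ⟨Sum.inl s, rfl⟩)
    have hOS : ∀ v ∈ LinearMap.range ζ, v ∈ Submodule.span k (Set.range f) := by
      rintro _ ⟨v, rfl⟩
      obtain ⟨y, z, hz⟩ : ∃ y ∈ LinearMap.ker ζ, ∃ z ∈ E, y + z = v := by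
        have : v ∈ LinearMap.ker ζ ⊔ E := by rw [hE.sup_eq_top]; trivial
        exact Submodule.mem_sup.1 this
      obtain ⟨z, hzE, hyz⟩ := hz
      rw [← hyz, map_add, LinearMap.mem_ker.1 ‹_›, zero_add]
      have h1 : z = ∑ s, e.repr ⟨z, hzE⟩ s • (e s : V) := by
        have := congrArg (Submodule.subtype E) (e.sum_repr ⟨z, hzE⟩)
        simp only [map_sum, map_smul, Submodule.subtype_apply] at this
        exact this.symm
      rw [h1, hζsum]
      exact Submodule.sum_mem _ fun s _ =>
        Submodule.smul_mem _ _ (Submodule.subset_span ⟨Sum.inr (Sum.inr s), rfl⟩)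
    have hKS : ∀ v ∈ LinearMap.ker ζ, v ∈ Submodule.span k (Set.range f) := by
      intro v hv
      let κ : LinearMap.ker ζ := ∑ u, c.repr (π ⟨v, hv⟩) u • t u
      have hκ : (κ : V) = ∑ u, c.repr (π ⟨v, hv⟩) u • (t u : V) := by
        simp [κ]
      have h1 : π κ = π ⟨v, hv⟩ := by
        have : π κ = ∑ u, c.repr (π ⟨v, hv⟩) u • c u := by simp [κ, ht]
        rw [this, c.sum_repr]
      have h2 : π (⟨v, hv⟩ - κ) = 0 := by rw [map_sub, h1, sub_self]
      have h3 := (hker _).1 h2
      have h4 : v = (v - κ) + κ := by abel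
      rw [h4]
      refine Submodule.add_mem _ (hOS _ ?_) ?_
      · simpa using h3
      · rw [hκ]
        exact Submodule.sum_mem _ fun u _ =>
          Submodule.smul_mem _ _ (Submodule.subset_span ⟨Sum.inr (Sum.inl u), rfl⟩)
    intro v _
    have : v ∈ LinearMap.ker ζ ⊔ E := by rw [hE.sup_eq_top]; trivial
    obtain ⟨y, hy, z, hz, hyz⟩ := Submodule.mem_sup.1 this
    rw [← hyz]
    exact Submodule.add_mem _ (hKS y hy) (hES z hz)
  refine ⟨Fin (finrank k E), inferInstance, Basis.mk hli hsp, ?_, ?_, ?_, ?_, ?_⟩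
  · rw [Fintype.card_fin]
    have h1 := LinearMap.finrank_range_add_finrank_ker ζ
    have h2 := Submodule.finrank_add_eq_of_isCompl hE
    omega
  · intro s
    simp [f]
  · intro u
    simp [f]
  · intro s
    simp [f, hζ]
  · intro u h
    have : (⟨Basis.mk hli hsp (Sum.inr (Sum.inl u)), h⟩ : LinearMap.ker ζ) = t u := by
      apply Subtype.ext
      simp [f]
    rw [this, ht]

end Pool.BenStar
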