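import Pool.Agent.Work.MP_26c40d_31.Interface

/-!
# MP_26c40d_al: forms and endomorphisms of `V ⊗ V*`, projections (helper22), for CONV and CONV2
-/

set_option autoImplicit false

namespace Pool.BenStar.CONV

open Module TensorProduct

variable {k : Type} [Field k] {V : Type} [AddCommGroup V] [Module k V]

/-- The functional `x ⊗ ξ ↦ p x * ξ v` on `V ⊗ V*`. -/
noncomputable def con (p : V →ₗ[k] k) (v : V) : (V ⊗[k] Module.Dual k V) →ₗ[k] k :=
  TensorProduct.lift (LinearMap.mk₂ k (fun (x : V) (ξ : Module.Dual k V) => p x * ξ v)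
    (fun x x' ξ => by simp [add_mul]) (fun c x ξ => by simp [mul_assoc])
    (fun x ξ ξ' => by simp [mul_add])
    (fun c x ξ => by simp only [LinearMap.smul_apply, smul_eq_mul]; ring))

@[simp] theorem con_tmul (p : V →ₗ[k] k) (v x : V) (ξ : Module.Dual k V) :
    con p v (x ⊗ₜ[k] ξ) = p x * ξ v := rfl

theorem con_add_left (p p' : V →ₗ[k] k) (v : V) (m : V ⊗[k] Module.Dual k V) :
    con (p + p') v m = con p v m + con p' v m := by
  have h : con (p + p') v = con p v + con p' v := by
    apply TensorProduct.ext'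
    intro x ξ
    simp [add_mul]
  rw [h]; rfl

theorem con_smul_left (c : k) (p : V →ₗ[k] k) (v : V) (m : V ⊗[k] Module.Dual k V) :
    con (c • p) v m = c • con p v m := by
  have h : con (c • p) v = c • con p v := by
    apply TensorProduct.ext'
    intro x ξ
    simp [mul_assoc]
  rw [h]; rfl

theorem con_add_right (p : V →ₗ[k] k) (v v' : V) (m : V ⊗[k] Module.Dual k V) :
    con p (v + v') m = con p v m + con p v' m := by
  have h : con p (v + v') = con p v + con p v' := by
    apply TensorProduct.ext'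
    intro x ξ
    simp [mul_add]
  rw [h]; rfl

theorem con_smul_right (c : k) (p : V →ₗ[k] k) (v : V) (m : V ⊗[k] Module.Dual k V) :
    con p (c • v) m = c • con p v m := by
  have h : con p (c • v) = c • con p v := by
    apply TensorProduct.ext'
    intro x ξ
    simp only [con_tmul, map_smul, LinearMap.smul_apply, smul_eq_mul]
    ring
  rw [h]; rfl

/-- The form of an endomorphism of `V ⊗ V*`. -/
noncomputable def form (f : Module.End k (V ⊗[k] Module.Dual k V)) : F4 k V :=
  LinearMap.mk₂ k (fun p q => LinearMap.mk₂ k (fun v w => con p v (f (w ⊗ₜ[k] q)))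
      (fun v v' w => con_add_right _ _ _ _) (fun c v w => con_smul_right _ _ _ _)
      (fun v w w' => by rw [TensorProduct.add_tmul, map_add, map_add])
      (fun c v w => by rw [← TensorProduct.smul_tmul', map_smul, map_smul]))
    (fun p p' q => by ext v w; exact con_add_left _ _ _ _)
    (fun c p q => by ext v w; exact con_smul_left _ _ _ _)
    (fun p q q' => by
      ext v w
      simp only [LinearMap.mk₂_apply, LinearMap.add_apply]
      rw [TensorProduct.tmul_add, map_add, map_add])
    (fun c p q => by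
      ext v w
      simp only [LinearMap.mk₂_apply, LinearMap.smul_apply]
      rw [TensorProduct.tmul_smul, map_smul, map_smul])

@[simp] theorem form_apply (f : Module.End k (V ⊗[k] Module.Dual k V)) (p q : V →ₗ[k] k)
    (v w : V) : form f p q v w = con p v (f (w ⊗ₜ[k] q)) := rfl

/-- The pairing `V ⊗ V* → k`. -/
noncomputable def pair : (V ⊗[k] Module.Dual k V) →ₗ[k] k := contractRight k V

@[simp] theorem pair_tmul (x : V) (ξ : Module.Dual k V) : pair (x ⊗ₜ[k] ξ) = ξ x :=
  contractRight_apply ξ x

section basis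

variable {ι : Type} [Fintype ι] (b : Basis ι k V)

/-- The invariant vector of `V ⊗ V*`. -/
noncomputable def one : V ⊗[k] Module.Dual k V := ∑ j, b j ⊗ₜ[k] b.coord j

theorem sum_coord (v : V) : ∑ j, b.coord j v • b j = v := b.sum_repr v

theorem sum_dual (p : V →ₗ[k] k) : ∑ j, p (b j) • b.coord j = p := by
  refine LinearMap.ext fun v => ?_
  simp only [LinearMap.sum_apply, LinearMap.smul_apply, smul_eq_mul]
  conv_rhs => rw [← b.sum_repr v, map_sum]
  refine Finset.sum_congr rfl fun j _ => ?_
  rw [map_smul, smul_eq_mul, mul_comm]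
  rfl

theorem con_one (p : V →ₗ[k] k) (v : V) : con p v (one b) = p v := by
  unfold one
  rw [map_sum]
  simp only [con_tmul]
  conv_rhs => rw [← b.sum_repr v, map_sum]
  refine Finset.sum_congr rfl fun j _ => ?_
  rw [map_smul, smul_eq_mul, mul_comm]
  rfl

theorem pair_eq (m : V ⊗[k] Module.Dual k V) : pair m = ∑ i, con (b.coord i) (b i) m := by
  have h : (pair : (V ⊗[k] Module.Dual k V) →ₗ[k] k) = ∑ i, con (b.coord i) (b i) := by
    apply TensorProduct.ext'
    intro x ξ
    rw [pair_tmul, LinearMap.sum_apply]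
    simp only [con_tmul]
    conv_lhs => rw [← b.sum_repr x, map_sum]
    refine Finset.sum_congr rfl fun j _ => ?_
    rw [map_smul, smul_eq_mul]
    rfl
  rw [h, LinearMap.sum_apply]

/-- The functionals `con p v` separate points. -/
theorem con_sep {m m' : V ⊗[k] Module.Dual k V}
    (h : ∀ i j, con (b.coord i) (b j) m = con (b.coord i) (b j) m') : m = m' := by
  classical
  have key : ∀ m : V ⊗[k] Module.Dual k V,
      ∑ i, ∑ j, con (b.coord i) (b j) m • (b i ⊗ₜ[k] b.coord j) = m := by
    intro m
    induction m using TensorProduct.induction_on with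
    | zero => simp
    | tmul x ξ =>
      simp only [con_tmul]
      have h1 : ∀ i j, (b.coord i x * ξ (b j)) • (b i ⊗ₜ[k] b.coord j)
          = (b.coord i x • b i) ⊗ₜ[k] (ξ (b j) • b.coord j) := by
        intro i j
        rw [TensorProduct.smul_tmul_smul]
      simp only [h1]
      have h2 : ∀ i, ∑ j, (b.coord i x • b i) ⊗ₜ[k] (ξ (b j) • b.coord j)
          = (b.coord i x • b i) ⊗ₜ[k] ξ := by
        intro i
        rw [← TensorProduct.tmul_sum, sum_dual b ξ]
      simp only [h2]
      rw [← TensorProduct.sum_tmul, sum_coord]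
    | add m m' hm hm' =>
      simp only [map_add, add_smul, Finset.sum_add_distrib]
      rw [hm, hm']
  rw [← key m, ← key m']
  exact Finset.sum_congr rfl fun i _ => Finset.sum_congr rfl fun j _ => by rw [h i j]

theorem trace_eq (f : Module.End k (V ⊗[k] Module.Dual k V)) :
    LinearMap.trace k _ f = ∑ i, ∑ j, con (b.coord i) (b j) (f (b i ⊗ₜ[k] b.coord j)) := by
  classical
  rw [LinearMap.trace_eq_matrix_trace k (b.tensorProduct b.dualBasis), Matrix.trace,
    Fintype.sum_prod_type]
  have key : ∀ (m : V ⊗[k] Module.Dual k V) (i j : ι),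
      (b.tensorProduct b.dualBasis).repr m (i, j) = con (b.coord i) (b j) m := by
    intro m i j
    induction m using TensorProduct.induction_on with
    | zero => simp
    | tmul x ξ =>
      rw [Basis.tensorProduct_repr_tmul_apply, Basis.dualBasis_repr, con_tmul, smul_eq_mul,
        mul_comm]
      rfl
    | add m m' hm hm' =>
      rw [map_add, Finsupp.add_apply, hm, hm', map_add]
  refine Finset.sum_congr rfl fun i _ => Finset.sum_congr rfl fun j _ => ?_
  rw [Matrix.diag_apply, LinearMap.toMatrix_apply, key, Basis.tensorProduct_apply,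
    Basis.coe_dualBasis]

theorem TR_form (f : Module.End k (V ⊗[k] Module.Dual k V)) :
    TR b (form f) LinearMap.id LinearMap.id = pair (f (one b)) + LinearMap.trace k _ f := by
  unfold TR
  rw [trace_eq b, pair_eq b]
  simp only [Finset.sum_add_distrib, form_apply, LinearMap.id_apply]
  congr 1
  refine Finset.sum_congr rfl fun i _ => ?_
  unfold one
  rw [map_sum, map_sum]

include b in
/-- Every form is the form of an endomorphism. -/
theorem exists_end (F : F4 k V) : ∃ f : Module.End k (V ⊗[k] Module.Dual k V), form f = F := by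
  classical
  refine ⟨TensorProduct.lift (LinearMap.mk₂ k
    (fun (w : V) (q : Module.Dual k V) =>
      ∑ i, ∑ j, F (b.coord i) q (b j) w • (b i ⊗ₜ[k] b.coord j))
    (fun w w' q => by
      simp only [map_add, add_smul, Finset.sum_add_distrib])
    (fun c w q => by
      simp only [map_smul, smul_eq_mul, Finset.smul_sum, smul_smul])
    (fun w q q' => by
      simp only [map_add, LinearMap.add_apply, add_smul, Finset.sum_add_distrib])
    (fun c w q => by
      simp only [map_smul, LinearMap.smul_apply, smul_eq_mul, Finset.smul_sum, smul_smul])), ?_⟩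
  refine LinearMap.ext fun p => LinearMap.ext fun q => LinearMap.ext fun v =>
    LinearMap.ext fun w => ?_
  rw [form_apply, TensorProduct.lift.tmul, LinearMap.mk₂_apply]
  simp only [map_sum, map_smul, con_tmul, smul_eq_mul]
  have hp : F p q v w = ∑ i, ∑ j, p (b i) * (b.coord j v * F (b.coord i) q (b j) w) := by
    conv_lhs => rw [← sum_dual b p]
    simp only [map_sum, LinearMap.sum_apply, map_smul, LinearMap.smul_apply, smul_eq_mul]
    refine Finset.sum_congr rfl fun i _ => ?_
    rw [← Finset.mul_sum]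
    congr 1
    conv_lhs => rw [← sum_coord b v]
    simp only [map_sum, LinearMap.sum_apply, map_smul, LinearMap.smul_apply, smul_eq_mul]
  rw [hp]
  exact Finset.sum_congr rfl fun i _ => Finset.sum_congr rfl fun j _ => by ring

end basis

section rep

variable {G : Type} [Group G] (ρ : Representation k G V)

theorem act_tmul (g : G) (x : V) (ξ : Module.Dual k V) :
    (ρ.tprod ρ.dual) g (x ⊗ₜ[k] ξ) = (ρ g x) ⊗ₜ[k] (ξ ∘ₗ ρ g⁻¹) := rfl

theorem act_inv (g : G) (v : V) : ρ g⁻¹ (ρ g v) = v := by
  rw [← Module.End.mul_apply, ← map_mul, inv_mul_cancel, map_one, Module.End.one_apply]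

theorem act_inv' (g : G) (v : V) : ρ g (ρ g⁻¹ v) = v := by
  rw [← Module.End.mul_apply, ← map_mul, mul_inv_cancel, map_one, Module.End.one_apply]

theorem con_act (g : G) (p : V →ₗ[k] k) (v : V) (m : V ⊗[k] Module.Dual k V) :
    con p (ρ g v) ((ρ.tprod ρ.dual) g m) = con (p ∘ₗ ρ g) v m := by
  have h : (con p (ρ g v)) ∘ₗ ((ρ.tprod ρ.dual) g) = con (p ∘ₗ ρ g) v := by
    apply TensorProduct.ext'
    intro x ξ
    simp only [LinearMap.comp_apply]
    rw [act_tmul, con_tmul, con_tmul, LinearMap.comp_apply, LinearMap.comp_apply, act_inv]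
  rw [← h]; rfl

theorem pair_act (g : G) (m : V ⊗[k] Module.Dual k V) :
    pair ((ρ.tprod ρ.dual) g m) = pair m := by
  have h : (pair : (V ⊗[k] Module.Dual k V) →ₗ[k] k) ∘ₗ ((ρ.tprod ρ.dual) g) = pair := by
    apply TensorProduct.ext'
    intro x ξ
    rw [LinearMap.comp_apply, act_tmul, pair_tmul, pair_tmul, LinearMap.comp_apply, act_inv]
  conv_rhs => rw [← h]
  rfl

theorem one_act {ι : Type} [Fintype ι] (b : Basis ι k V) (g : G) :
    (ρ.tprod ρ.dual) g (one b) = one b := by
  refine con_sep b fun i j => ?_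
  have h1 : b j = ρ g (ρ g⁻¹ (b j)) := (act_inv' ρ g (b j)).symm
  rw [con_one]
  conv_lhs => rw [h1]
  rw [con_act, con_one, LinearMap.comp_apply, act_inv']

/-- The form of an equivariant endomorphism is invariant. -/
theorem form_inv (f : Module.End k (V ⊗[k] Module.Dual k V))
    (hf : Com (fun g => (ρ.tprod ρ.dual) g) f) (g : G) : Inv (form f) (ρ g) := by
  intro p q v w
  rw [form_apply, form_apply]
  have h1 : (ρ g w) ⊗ₜ[k] q = (ρ.tprod ρ.dual) g (w ⊗ₜ[k] (q ∘ₗ ρ g)) := by
    rw [act_tmul]
    congr 1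
    refine LinearMap.ext fun x => ?_
    rw [LinearMap.comp_apply, LinearMap.comp_apply, act_inv']
  have h2 : f ((ρ.tprod ρ.dual) g (w ⊗ₜ[k] (q ∘ₗ ρ g)))
      = (ρ.tprod ρ.dual) g (f (w ⊗ₜ[k] (q ∘ₗ ρ g))) := by
    have := hf g
    exact congrArg (fun h : Module.End k (V ⊗[k] Module.Dual k V) => h (w ⊗ₜ[k] (q ∘ₗ ρ g))) this
  rw [h1, h2, con_act]

/-- The endomorphism of an invariant form is equivariant. -/
theorem end_com {ι : Type} [Fintype ι] (b : Basis ι k V)
    (f : Module.End k (V ⊗[k] Module.Dual k V)) (hF : ∀ g, Inv (form f) (ρ g)) :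
    Com (fun g => (ρ.tprod ρ.dual) g) f := by
  intro g
  apply TensorProduct.ext'
  intro w q
  change f ((ρ.tprod ρ.dual) g (w ⊗ₜ[k] q)) = (ρ.tprod ρ.dual) g (f (w ⊗ₜ[k] q))
  refine con_sep b fun i j => ?_
  have h1 : b j = ρ g (ρ g⁻¹ (b j)) := (act_inv' ρ g (b j)).symm
  rw [act_tmul]
  conv_rhs => rw [h1]
  rw [con_act]
  have h2 := hF g (b.coord i) (q ∘ₗ ρ g⁻¹) (ρ g⁻¹ (b j)) w
  rw [form_apply, form_apply, act_inv'] at h2
  rw [← h2]
  congr 3
  refine LinearMap.ext fun x => ?_
  rw [LinearMap.comp_apply, LinearMap.comp_apply, act_inv]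

end rep

end Pool.BenStar.CONV
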