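import Pool.Agent.Work.MP_26c40d_31.ConvBase

/-!
# MP_26c40d_al: equivariant projections (helper22), for CONV and CONV2
-/

set_option autoImplicit false

namespace Pool.BenStar.CONV

open Module

variable {k M Γ : Type} [Field k] [AddCommGroup M] [Module k M] (σ : Γ → Module.End k M)

theorem exists_proj (A C : Submodule k M) (h : IsCompl A C)
    (hA : ∀ g, ∀ x ∈ A, σ g x ∈ A) (hC : ∀ g, ∀ x ∈ C, σ g x ∈ C) :
    ∃ f : Module.End k M, Com σ f ∧ (∀ a ∈ A, f a = a) ∧ (∀ c ∈ C, f c = 0) ∧ ∀ x, f x ∈ A := by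
  have h1 : ∀ a ∈ A, A.projection C h a = a := fun a ha =>
    Submodule.projection_apply_of_mem_left h ha
  have h2 : ∀ c ∈ C, A.projection C h c = 0 := fun c hc =>
    (Submodule.projection_apply_eq_zero_iff h).2 hc
  refine ⟨A.projection C h, ?_, h1, h2, fun x => Submodule.projection_apply_mem h x⟩
  intro g
  refine LinearMap.ext fun x => ?_
  rw [Module.End.mul_apply, Module.End.mul_apply]
  have hx : x ∈ A ⊔ C := by rw [h.sup_eq_top]; exact Submodule.mem_top
  obtain ⟨a, ha, c, hc, rfl⟩ := Submodule.mem_sup.1 hx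
  simp only [map_add]
  rw [h1 a ha, h2 c hc, h1 _ (hA g a ha), h2 _ (hC g c hc), map_zero]

theorem mem_range_iff {e : Module.End k M} (he : e * e = e) (x : M) :
    x ∈ LinearMap.range e ↔ e x = x := by
  constructor
  · rintro ⟨y, rfl⟩
    rw [← Module.End.mul_apply, he]
  · intro h
    exact ⟨x, h⟩

theorem isCompl_of_idem {e : Module.End k M} (he : e * e = e) :
    IsCompl (LinearMap.range e) (LinearMap.ker e) := by
  constructor
  · rw [Submodule.disjoint_def]
    intro x hx hx'
    rw [mem_range_iff he] at hx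
    rw [LinearMap.mem_ker] at hx'
    rw [← hx, hx']
  · rw [codisjoint_iff, eq_top_iff]
    intro x _
    rw [Submodule.mem_sup]
    refine ⟨e x, ⟨x, rfl⟩, x - e x, ?_, by abel⟩
    rw [LinearMap.mem_ker, map_sub, ← Module.End.mul_apply, he, sub_self]

/-- The range of a primitive idempotent is indecomposable. -/
theorem indec_of_prim {e : Module.End k M} (he : Prim σ e) (A B : Submodule k M)
    (hA : ∀ g, ∀ x ∈ A, σ g x ∈ A) (hB : ∀ g, ∀ x ∈ B, σ g x ∈ B)
    (hAe : A ≤ LinearMap.range e) (hBe : B ≤ LinearMap.range e) (hd : A ⊓ B = ⊥)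
    (hs : A ⊔ B = LinearMap.range e) : A = ⊥ ∨ B = ⊥ := by
  obtain ⟨hcom, hid, _, hprim⟩ := he
  have hc := isCompl_of_idem hid
  have hcomp : IsCompl A (B ⊔ LinearMap.ker e) := by
    constructor
    · rw [Submodule.disjoint_def]
      intro x hx hx'
      obtain ⟨b, hb, c, hc', rfl⟩ := Submodule.mem_sup.1 hx'
      have h1 : e (b + c) = b + c := (mem_range_iff hid _).1 (hAe hx)
      have h2 : e b = b := (mem_range_iff hid _).1 (hBe hb)
      rw [map_add, h2, LinearMap.mem_ker.1 hc', add_zero] at h1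
      have h3 : c = 0 := by
        have := congrArg (fun z => z - b) h1
        simpa using this.symm
      subst h3
      rw [add_zero] at hx ⊢
      have : b ∈ A ⊓ B := ⟨hx, hb⟩
      rw [hd] at this
      exact (Submodule.mem_bot k).1 this
    · rw [codisjoint_iff, ← sup_assoc, hs]
      exact hc.sup_eq_top
  have hK : ∀ g, ∀ x ∈ LinearMap.ker e, σ g x ∈ LinearMap.ker e := by
    intro g x hx
    rw [LinearMap.mem_ker] at hx ⊢
    have := congrArg (fun f : Module.End k M => f x) (hcom g)
    simp only [Module.End.mul_apply] at this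
    rw [this, hx, map_zero]
  have hBK : ∀ g, ∀ x ∈ B ⊔ LinearMap.ker e, σ g x ∈ B ⊔ LinearMap.ker e := by
    intro g x hx
    obtain ⟨b, hb, c, hc', rfl⟩ := Submodule.mem_sup.1 hx
    rw [map_add]
    exact Submodule.add_mem_sup (hB g b hb) (hK g c hc')
  obtain ⟨f, hfcom, hfA, hfC, hfmem⟩ := exists_proj σ A _ hcomp hA hBK
  have hff : f * f = f := LinearMap.ext fun x => hfA _ (hfmem x)
  have hef : e * f = f := LinearMap.ext fun x => (mem_range_iff hid _).1 (hAe (hfmem x))
  have hfe : f * e = f := by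
    refine LinearMap.ext fun x => ?_
    rw [Module.End.mul_apply]
    have h1 : x - e x ∈ B ⊔ LinearMap.ker e := by
      refine Submodule.mem_sup_right ?_
      rw [LinearMap.mem_ker, map_sub, ← Module.End.mul_apply, hid, sub_self]
    have h2 := hfC _ h1
    rw [map_sub, sub_eq_zero] at h2
    exact h2.symm
  rcases hprim f hfcom hff hef hfe with h0 | h0
  · left
    rw [Submodule.eq_bot_iff]
    intro a ha
    rw [← hfA a ha, h0]
    rfl
  · right
    rw [Submodule.eq_bot_iff]
    intro b hb
    have h1 : f b = 0 := hfC b (Submodule.mem_sup_left hb)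
    rw [h0, (mem_range_iff hid _).1 (hBe hb)] at h1
    exact h1

/-- Orthogonal idempotents with sum `1` give an internal direct sum. -/
theorem internal {m : ℕ} (ε : Fin m → Module.End k M) (hid : ∀ i, ε i * ε i = ε i)
    (hor : ∀ i j, i ≠ j → ε i * ε j = 0) (hs : ∑ i, ε i = 1) :
    DirectSum.IsInternal (fun i => LinearMap.range (ε i)) := by
  apply DirectSum.isInternal_submodule_of_iSupIndep_of_iSup_eq_top
  · intro i
    rw [Submodule.disjoint_def]
    intro x hx hx'
    have h1 : (⨆ j, ⨆ _ : j ≠ i, LinearMap.range (ε j)) ≤ LinearMap.ker (ε i) := by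
      refine iSup_le fun j => iSup_le fun hj => ?_
      rintro _ ⟨y, rfl⟩
      rw [LinearMap.mem_ker, ← Module.End.mul_apply, hor i j hj.symm]
      rfl
    have h2 := h1 hx'
    rw [LinearMap.mem_ker, (mem_range_iff (hid i) x).1 hx] at h2
    exact h2
  · rw [eq_top_iff]
    intro x _
    have h1 : x = ∑ i, ε i x := by
      rw [← LinearMap.sum_apply, hs]
      rfl
    rw [h1]
    refine Submodule.sum_mem _ fun i _ => ?_
    exact Submodule.mem_iSup_of_mem i ⟨x, rfl⟩

/-- Projections onto the parts of an internal direct sum. -/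
theorem projs {m : ℕ} (W : Fin m → Submodule k M) (h : DirectSum.IsInternal W) :
    ∃ ε : Fin m → Module.End k M, (∀ i x, ε i x ∈ W i) ∧ (∀ i, ∀ w ∈ W i, ε i w = w) ∧
      (∀ i j, i ≠ j → ∀ w ∈ W i, ε j w = 0) ∧ ∑ i, ε i = 1 := by
  classical
  set φ := LinearEquiv.ofBijective (DirectSum.coeLinearMap W) h with hφ
  refine ⟨fun i => (W i).subtype ∘ₗ (DirectSum.component k (Fin m) (fun i => W i) i) ∘ₗ
    (φ.symm : M →ₗ[k] _), fun i x => Submodule.coe_mem _, ?_, ?_, ?_⟩
  · intro i w hw
    have := h.ofBijective_coeLinearMap_of_mem hw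
    exact congrArg (fun z : W i => (z : M)) this
  · intro i j hij w hw
    have := h.ofBijective_coeLinearMap_of_mem_ne hij hw
    exact congrArg (fun z : W j => (z : M)) this
  · refine LinearMap.ext fun x => ?_
    rw [LinearMap.sum_apply]
    have h1 : φ (φ.symm x) = x := φ.apply_symm_apply x
    have h2 : φ (φ.symm x) = ∑ i, ((φ.symm x i : W i) : M) := by
      have h3 : φ (φ.symm x) = DirectSum.coeLinearMap W (φ.symm x) := rfl
      rw [h3, DirectSum.coeLinearMap_eq_dfinsuppSum,
        DFinsupp.sum_eq_sum_fintype _ (fun _ => rfl)]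
      rfl
    change ∑ i, ((φ.symm x i : W i) : M) = x
    rw [← h2, h1]

theorem trace_idem [FiniteDimensional k M] {e : Module.End k M} (he : e * e = e) :
    LinearMap.trace k M e = (finrank k (LinearMap.range e) : k) := by
  have h : IsIdempotentElem e := he
  exact (LinearMap.IsIdempotentElem.isProj_range e h).trace

end Pool.BenStar.CONV
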