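import Mathlib

/-!
# MP_26c40d_al (Benson's conjecture on V ⊗ V*): definitions for the transvection theorem (helper31)

`F4 k V` is the space of 4-linear forms `F p q v w` (`p, q` functionals, `v, w` vectors), i.e. of
endomorphisms of `V ⊗ V` (or of `V ⊗ V*`).
-/

set_option autoImplicit false

namespace Pool.BenStar

open Module

/-- 4-linear forms `F p q v w`, `p q` functionals and `v w` vectors. -/
abbrev F4 (k V : Type) [Field k] [AddCommGroup V] [Module k V] : Type :=
  (V →ₗ[k] k) →ₗ[k] (V →ₗ[k] k) →ₗ[k] V →ₗ[k] V →ₗ[k] k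

section
variable {k : Type} [Field k] {V : Type} [AddCommGroup V] [Module k V]
variable {T : Type} [AddCommGroup T] [Module k T]

/-- `F` is invariant under `g`. -/
def Inv (F : F4 k V) (g : V →ₗ[k] V) : Prop :=
  ∀ (p q : V →ₗ[k] k) (v w : V), F (p ∘ₗ g) (q ∘ₗ g) v w = F p q (g v) (g w)

/-- The trace of `F (1 + τ) (Y ⊗ Z)` on `V ⊗ V`, `τ` the exchange of the factors. -/
noncomputable def TR {ι : Type} [Fintype ι] (b : Basis ι k V) (F : F4 k V)
    (Y Z : V →ₗ[k] V) : k :=
  ∑ i, ∑ j, (F (b.coord i) (b.coord j) (Y (b i)) (Z (b j)) +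
    F (b.coord i) (b.coord j) (Z (b j)) (Y (b i)))

/-- The form `p q v w ↦ F (p ∘ j) (q ∘ j) (i v) (i w)` on `T`. -/
noncomputable def pull (F : F4 k V) (i : T →ₗ[k] V) (j : V →ₗ[k] T) : F4 k T :=
  LinearMap.mk₂ k (fun p q => (F (p ∘ₗ j) (q ∘ₗ j)).compl₁₂ i i)
    (fun p p' q => by ext v w; simp [LinearMap.add_comp])
    (fun c p q => by ext v w; simp [LinearMap.smul_comp])
    (fun p q q' => by ext v w; simp [LinearMap.add_comp])
    (fun c p q => by ext v w; simp [LinearMap.smul_comp])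

@[simp] lemma pull_apply (F : F4 k V) (i : T →ₗ[k] V) (j : V →ₗ[k] T) (p q : T →ₗ[k] k)
    (v w : T) : pull F i j p q v w = F (p ∘ₗ j) (q ∘ₗ j) (i v) (i w) := rfl

/-- The trace condition for a family of operators; for the operators of a group on an odd-dimensional
indecomposable module it is Benson's conjecture for the module. -/
def Star {Γ : Type} (ρ : Γ → V →ₗ[k] V) : Prop :=
  ∀ (ι : Type) [Fintype ι] (b : Basis ι k V) (F : F4 k V), (∀ γ, Inv F (ρ γ)) →
    TR b F LinearMap.id LinearMap.id = 0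

/-- `Y` commutes with all operators of the family. -/
def Com {Γ : Type} (ρ : Γ → Module.End k V) (Y : Module.End k V) : Prop :=
  ∀ γ, Y * ρ γ = ρ γ * Y

/-- Primitive idempotents of the commutant. -/
def Prim {Γ : Type} (ρ : Γ → Module.End k V) (e : Module.End k V) : Prop :=
  Com ρ e ∧ e * e = e ∧ e ≠ 0 ∧
    ∀ f : Module.End k V, Com ρ f → f * f = f → e * f = f → f * e = f → f = 0 ∨ f = e

/-- A decomposition `V = k e ⊕ T ⊕ k o`. -/
structure Frame (k V T : Type) [Field k] [AddCommGroup V] [Module k V] [AddCommGroup T]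
    [Module k T] where
  e : V
  o : V
  th : V →ₗ[k] k
  om : V →ₗ[k] k
  i : T →ₗ[k] V
  j : V →ₗ[k] T
  th_e : th e = 1
  th_o : th o = 0
  th_i : ∀ t, th (i t) = 0
  om_e : om e = 0
  om_o : om o = 1
  om_i : ∀ t, om (i t) = 0
  j_e : j e = 0
  j_o : j o = 0
  j_i : ∀ t, j (i t) = t
  dec : ∀ v, v = th v • e + i (j v) + om v • o

/-- The operator `g` preserves the flag `k o ⊆ ker th ⊆ V`, acts by `r` on `T` and has the
off-diagonal parts `b`, `a`, `c`. -/
structure Elt (fr : Frame k V T) (g : V →ₗ[k] V) (r : T →ₗ[k] T) (b : T) (a : T →ₗ[k] k)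
    (c : k) : Prop where
  g_e : g fr.e = fr.e + fr.i b + c • fr.o
  g_i : ∀ t, g (fr.i t) = fr.i (r t) + a t • fr.o
  g_o : g fr.o = fr.o

/-- The transvection of the frame. -/
def zz (fr : Frame k V T) : V →ₗ[k] V := LinearMap.id + fr.th.smulRight fr.o

@[simp] lemma zz_apply (fr : Frame k V T) (v : V) : zz fr v = v + fr.th v • fr.o := rfl

end

/-! ### Representations -/

section
variable {k : Type} [Field k] {G : Type} [Group G] {V : Type} [AddCommGroup V] [Module k V]
variable {T : Type} [AddCommGroup T] [Module k T]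

/-- The conclusion of the conjecture (as in the frozen statement). -/
def Concl (ρ : Representation k G V) : Prop :=
  ∃ (n : ℕ) (W : Fin (n + 1) → Submodule k (TensorProduct k V (Module.Dual k V))),
    DirectSum.IsInternal W ∧
    (∀ i, ∀ g : G, ∀ x ∈ W i, (ρ.tprod ρ.dual) g x ∈ W i) ∧
    (∀ i, W i ≠ ⊥ ∧
      ∀ A B : Submodule k (TensorProduct k V (Module.Dual k V)),
        (∀ g : G, ∀ x ∈ A, (ρ.tprod ρ.dual) g x ∈ A) →
        (∀ g : G, ∀ x ∈ B, (ρ.tprod ρ.dual) g x ∈ B) →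
        A ≤ W i → B ≤ W i → A ⊓ B = ⊥ → A ⊔ B = W i → A = ⊥ ∨ B = ⊥) ∧
    Module.finrank k (W 0) = 1 ∧
    (∀ x ∈ W 0, ∀ g : G, (ρ.tprod ρ.dual) g x = x) ∧
    (∀ i, i ≠ 0 → Even (Module.finrank k (W i)))

/-- `A` is an invariant subspace. -/
def InvSub (ρ : Representation k G V) (A : Submodule k V) : Prop := ∀ g, ∀ v ∈ A, ρ g v ∈ A

/-- `V` is indecomposable. -/
def Indec (ρ : Representation k G V) : Prop :=
  Nontrivial V ∧ ∀ A B : Submodule k V, InvSub ρ A → InvSub ρ B → IsCompl A B → A = ⊥ ∨ B = ⊥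

/-- `z` acts as a central involution or trivially: `ρ z` commutes with all `ρ g` and `(ρ z)² = 1`. -/
def CentInv (ρ : Representation k G V) (z : G) : Prop :=
  (∀ g, ρ z * ρ g = ρ g * ρ z) ∧ ρ z * ρ z = 1

/-- `τ` is (isomorphic to) the representation of `G` on the heart `ker (z - 1) / im (z - 1)`. -/
def IsHeart (ρ : Representation k G V) (z : G) (τ : Representation k G T) : Prop :=
  ∃ π : LinearMap.ker (ρ z - 1) →ₗ[k] T, Function.Surjective π ∧
    (∀ v, π v = 0 ↔ (v : V) ∈ LinearMap.range (ρ z - 1)) ∧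
    ∀ (g : G) (v : LinearMap.ker (ρ z - 1)) (h : ρ g v ∈ LinearMap.ker (ρ z - 1)),
      π ⟨ρ g v, h⟩ = τ g (π v)

end

end Pool.BenStar
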