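import Pool.Agent.Work.MP_26c40d_31.Trans

/-!
# MP_26c40d_al: the class of representations and the main theorem (helper31)
-/

set_option autoImplicit false
set_option linter.unusedSectionVars false
set_option linter.unusedSimpArgs false

namespace Pool.BenStar

open Module

/-- The class of representations generated by the reduction steps. -/
inductive Good (k : Type) [Field k] : ∀ (G V : Type) [Group G] [AddCommGroup V] [Module k V],
    Representation k G V → Prop
  /-- the conjecture is known for `ρ` -/
  | known {G V : Type} [Group G] [AddCommGroup V] [Module k V] [FiniteDimensional k V]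
      (ρ : Representation k G V) (hodd : Odd (finrank k V)) (h : Concl ρ) : Good k G V ρ
  /-- restriction along a homomorphism (for example to a subgroup) -/
  | restrict {G H V : Type} [Group G] [Group H] [AddCommGroup V] [Module k V]
      [FiniteDimensional k V] (ρ : Representation k G V) (φ : H →* G)
      (h : Good k H V (MonoidHom.comp ρ φ)) : Good k G V ρ
  /-- `V = W ⊕ W'` with `W` in the class and all indecomposable summands of `W'` of even
  dimension -/
  | oneOdd {G V : Type} [Group G] [AddCommGroup V] [Module k V] [FiniteDimensional k V]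
      (ρ : Representation k G V) (W W' : Submodule k V) (hW : InvSub ρ W) (hW' : InvSub ρ W')
      (hc : IsCompl W W') (h : Good k G W (sub ρ W hW))
      (heven : ∀ (U U' : Submodule k V) (hU : InvSub ρ U), InvSub ρ U' → U ⊓ U' = ⊥ →
        U ⊔ U' = W' → Indec (sub ρ U hU) → Even (finrank k U)) : Good k G V ρ
  /-- the heart `ker (z - 1) / im (z - 1)` of a central involution is in the class -/
  | heart {G V T : Type} [Group G] [AddCommGroup V] [Module k V] [FiniteDimensional k V]
      [AddCommGroup T] [Module k T] [FiniteDimensional k T] (ρ : Representation k G V) (z : G)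
      (hz : CentInv ρ z) (τ : Representation k G T) (hT : IsHeart ρ z τ) (h : Good k G T τ) :
      Good k G V ρ
  /-- `V` is indecomposable, `G` a 2-group, `z` acts as a transvection, and all indecomposable
  summands of odd dimension of the heart are in the class -/
  | transvection {G V T : Type} [Group G] [AddCommGroup V] [Module k V] [FiniteDimensional k V]
      [AddCommGroup T] [Module k T] [FiniteDimensional k T] (ρ : Representation k G V) (z : G)
      (hG : IsPGroup 2 G) (hV : Indec ρ) (hz : CentInv ρ z)
      (h1 : finrank k (LinearMap.range (ρ z - 1)) = 1) (τ : Representation k G T)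
      (hT : IsHeart ρ z τ)
      (hs : ∀ (U U' : Submodule k T) (hU : InvSub τ U), InvSub τ U' → IsCompl U U' →
        Indec (sub τ U hU) → Odd (finrank k U) → Good k G U (sub τ U hU)) : Good k G V ρ

section
variable {k : Type} [Field k] {G : Type} [Group G] {V : Type} [AddCommGroup V] [Module k V]
variable {T : Type} [AddCommGroup T] [Module k T]

namespace GOOD

lemma com_ker {τ : Representation k G T} {e : Module.End k T} (h : Com (fun g => τ g) e) :
    InvSub τ (LinearMap.ker e) := by
  intro g v hv
  rw [LinearMap.mem_ker] at hv ⊢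
  rw [PSUB.com_apply h, hv, map_zero]

lemma isCompl_range_ker {e : Module.End k T} (h : e * e = e) :
    IsCompl (LinearMap.range e) (LinearMap.ker e) := by
  have hee : ∀ v, e (e v) = e v := fun v => congrArg (fun f => f v) h
  rw [isCompl_iff, disjoint_iff, codisjoint_iff]
  refine ⟨?_, ?_⟩
  · rw [Submodule.eq_bot_iff]
    rintro _ ⟨⟨v, rfl⟩, hv⟩
    have hv' : e (e v) = 0 := hv
    rw [hee] at hv'
    exact hv'
  · rw [eq_top_iff]
    intro v _
    rw [Submodule.mem_sup]
    exact ⟨e v, ⟨v, rfl⟩, v - e v, by rw [LinearMap.mem_ker, map_sub, hee, sub_self],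
      add_sub_cancel _ _⟩

/-- the case of one odd summand -/
lemma star_oneOdd (hC : Stmt_CTR) (hP : Stmt_PRIM) (hE : Stmt_EVEN) [IsAlgClosed k] [CharP k 2]
    [FiniteDimensional k V] (ρ : Representation k G V) (W W' : Submodule k V)
    (hW : InvSub ρ W) (hW' : InvSub ρ W') (hc : IsCompl W W')
    (h : Star (fun g => sub ρ W hW g))
    (heven : ∀ (U U' : Submodule k V) (hU : InvSub ρ U), InvSub ρ U' → U ⊓ U' = ⊥ →
      U ⊔ U' = W' → Indec (sub ρ U hU) → Even (finrank k U)) :
    Star (fun g => ρ g) := by
  classical
  intro ι _ B F hF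
  -- the projection
  let e : Module.End k V := W.subtype ∘ₗ W.projectionOnto W' hc
  have eW : ∀ a ∈ W, e a = a := by
    intro a ha
    have := Submodule.projectionOnto_apply_left hc ⟨a, ha⟩
    simp only [e, LinearMap.comp_apply, Submodule.subtype_apply]
    rw [this]
  have eW' : ∀ b ∈ W', e b = 0 := by
    intro b hb
    have := (Submodule.projectionOnto_apply_eq_zero_iff hc (x := b)).2 hb
    simp only [e, LinearMap.comp_apply, Submodule.subtype_apply]
    rw [this]
    rfl
  have eval : ∀ v, e v ∈ W := fun v => (W.projectionOnto W' hc v).2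
  have dec : ∀ u : V, ∃ a ∈ W, ∃ b ∈ W', a + b = u := by
    intro u
    have : u ∈ W ⊔ W' := by rw [hc.sup_eq_top]; trivial
    exact Submodule.mem_sup.1 this
  have hee : e * e = e := by
    ext v
    exact eW _ (eval v)
  have ecom' : ∀ g v, e (ρ g v) = ρ g (e v) := by
    intro g v
    obtain ⟨a, ha, b, hb, rfl⟩ := dec v
    rw [map_add, map_add, map_add, eW a ha, eW' b hb, eW _ (hW g a ha), eW' _ (hW' g b hb),
      add_zero, add_zero]
  have ecom : Com (fun g => ρ g) e := by
    intro g
    ext v
    exact ecom' g v
  have e1mem : ∀ v, (1 - e : Module.End k V) v ∈ W' := by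
    intro v
    obtain ⟨a, ha, b, hb, rfl⟩ := dec v
    have : (1 - e : Module.End k V) (a + b) = b := by
      simp only [LinearMap.sub_apply, Module.End.one_apply, map_add, eW a ha, eW' b hb]
      abel
    rw [this]
    exact hb
  have ecom1 : Com (fun g => ρ g) (1 - e) := by
    intro g
    rw [sub_mul, mul_sub, one_mul, mul_one, ecom g]
  have hee1 : (1 - e) * (1 - e) = 1 - e := by
    rw [sub_mul, one_mul, mul_sub, mul_one, hee, sub_self, sub_zero]
  obtain ⟨n, ε, hε, horth, hsum⟩ := hP k V G (fun g => ρ g) (1 - e) ecom1 hee1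
  -- the primitive idempotents have even rank
  have hrank : ∀ x, Even (finrank k (LinearMap.range (ε x))) := by
    intro x
    have h1 : (1 - e) * ε x = ε x := by
      rw [← hsum, Finset.sum_mul, Finset.sum_eq_single x]
      · exact (hε x).2.1
      · intro y _ hy
        exact horth y x hy
      · intro hx
        exact absurd (Finset.mem_univ x) hx
    have h2 : ε x * (1 - e) = ε x := by
      rw [← hsum, Finset.mul_sum, Finset.sum_eq_single x]
      · exact (hε x).2.1
      · intro y _ hy
        exact horth x y hy.symm
      · intro hx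
        exact absurd (Finset.mem_univ x) hx
    have hcom' : Com (fun g => ρ g) (1 - e - ε x) := by
      intro g
      rw [sub_mul, mul_sub, ecom1 g, (hε x).1 g]
    have h3 : (1 - e - ε x) * ε x = 0 := by
      rw [sub_mul, h1, (hε x).2.1, sub_self]
    have h4 : ε x * (1 - e - ε x) = 0 := by
      rw [mul_sub, h2, (hε x).2.1, sub_self]
    refine heven (LinearMap.range (ε x)) (LinearMap.range (1 - e - ε x))
      (PSUB.invSub_range (hε x).1) (PSUB.invSub_range hcom') ?_ ?_ (PSUB.indec_range (hε x))
    · rw [Submodule.eq_bot_iff]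
      rintro _ ⟨⟨v, rfl⟩, ⟨w, hw⟩⟩
      have h5 : ε x (ε x v) = ε x v := congrArg (fun f => f v) (hε x).2.1
      have h6 : ε x ((1 - e - ε x : Module.End k V) w) = 0 := congrArg (fun f => f w) h4
      rw [hw, h5] at h6
      exact h6
    · apply le_antisymm
      · rw [sup_le_iff]
        constructor
        · rintro _ ⟨v, rfl⟩
          have h5 : (1 - e : Module.End k V) (ε x v) = ε x v := congrArg (fun f => f v) h1
          rw [← h5]
          exact e1mem _
        · rintro _ ⟨v, rfl⟩
          have h5 : (1 - e - ε x : Module.End k V) v = (1 - e : Module.End k V) v -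
              (1 - e : Module.End k V) (ε x v) := by
            have h5 : (1 - e : Module.End k V) (ε x v) = ε x v := congrArg (fun f => f v) h1
            rw [h5]
            rfl
          rw [h5]
          exact Submodule.sub_mem _ (e1mem _) (e1mem _)
      · intro v hv
        rw [Submodule.mem_sup]
        refine ⟨ε x v, ⟨v, rfl⟩, (1 - e - ε x : Module.End k V) v, ⟨v, rfl⟩, ?_⟩
        have : (1 - e - ε x : Module.End k V) v = v - e v - ε x v := rfl
        rw [this, eW' v hv]
        abel
  -- the trace
  have e1 : (LinearMap.id : V →ₗ[k] V) = e + ∑ x, ε x := by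
    rw [hsum]
    ext v
    simp
  have hz1 : ∀ Y : Module.End k V, Com (fun g => ρ g) Y → TR B F Y (∑ x, ε x) = 0 := by
    intro Y hY
    rw [STEP.TR_sum_right]
    exact Finset.sum_eq_zero fun x _ => (TRANS.TR_even hE hF B (hε x) (hrank x) hY).1
  have hz2 : ∀ Y : Module.End k V, Com (fun g => ρ g) Y → TR B F (∑ x, ε x) Y = 0 := by
    intro Y hY
    rw [STEP.TR_sum_left]
    exact Finset.sum_eq_zero fun x _ => (TRANS.TR_even hE hF B (hε x) (hrank x) hY).2
  have hcs : Com (fun g => ρ g) (∑ x, ε x) := by rw [hsum]; exact ecom1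
  rw [e1, STEP.TR_add_left, STEP.TR_add_right, STEP.TR_add_right, hz1 e ecom, hz2 e ecom,
    hz1 _ hcs, add_zero, add_zero, add_zero]
  exact STEP.star_pull hC h F hF W.subtype (W.projectionOnto W' hc)
    (fun g x => rfl) (fun g v => Subtype.ext (ecom' g v)) B

end GOOD

/-- Representations in the class satisfy the trace condition. -/
theorem star_of_good (hC : Stmt_CTR) (hT : Stmt_TATE) (hH : Stmt_HBAS) (hR : Stmt_REL)
    (hI : Stmt_IND) (hA : Stmt_ALG) (hE : Stmt_EVEN) (hP : Stmt_PRIM) (hC2 : Stmt_CONV2)
    [IsAlgClosed k] [CharP k 2]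
    {ρ : Representation k G V} (h : Good k G V ρ) : Star (fun g => ρ g) := by
  induction h with
  | known ρ hodd h => exact hC2 _ _ _ ρ hodd h
  | restrict ρ φ h ih =>
    intro ι _ B F hF
    exact ih ι B F fun g => hF (φ g)
  | oneOdd ρ W W' hW hW' hc h heven ih =>
    exact GOOD.star_oneOdd hC hP hE ρ W W' hW hW' hc ih heven
  | heart ρ z hz τ hT' h ih => exact star_of_heart hC hT hH hz hT' ih
  | transvection ρ z hG hV hz h1 τ hT' hs ih =>
    refine star_of_transvection hC hT hH hR hI hA hE hG hV hz h1 hT' fun e he hodd => ?_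
    exact ih _ _ (PSUB.invSub_range he.1) (GOOD.com_ker he.1) (GOOD.isCompl_range_ker he.2.1)
      (PSUB.indec_range he) hodd

end

end Pool.BenStar
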