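import Pool.Agent.Work.MP_26c40d_31.Step

/-!
# MP_26c40d_al: the trace condition for the heart implies it for the module (helper31)
-/

set_option autoImplicit false
set_option linter.unusedSectionVars false
set_option linter.unusedSimpArgs false

namespace Pool.BenStar

open Module

section
variable {k : Type} [Field k] {G : Type} [Group G] {V : Type} [AddCommGroup V] [Module k V]
variable {T : Type} [AddCommGroup T] [Module k T]

namespace HEART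

lemma sq_zero [CharP k 2] {ρ : Representation k G V} {z : G} (hz : CentInv ρ z) (v : V) :
    (ρ z - 1) ((ρ z - 1) v) = 0 := by
  have h2 : (2 : k) = 0 := CharTwo.two_eq_zero
  have e : (ρ z) (ρ z v) = v := by
    have := congrArg (fun f => f v) hz.2
    simpa using this
  have : (ρ z - 1) ((ρ z - 1) v) = (2 : k) • (v - ρ z v) := by
    simp only [LinearMap.sub_apply, Module.End.one_apply, map_sub, e, two_smul]
    abel
  rw [this, h2, zero_smul]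

lemma comm {ρ : Representation k G V} {z : G} (hz : CentInv ρ z) (g : G) (v : V) :
    (ρ z - 1) (ρ g v) = ρ g ((ρ z - 1) v) := by
  have := congrArg (fun f => f v) (hz.1 g)
  simp only [Module.End.mul_apply] at this
  simp [this]

lemma inv_z {ρ : Representation k G V} {z : G} {F : F4 k V} (hF : ∀ g, Inv F (ρ g)) :
    Inv F (LinearMap.id + (ρ z - 1)) := by
  have : LinearMap.id + (ρ z - 1) = ρ z := by
    ext v; simp
  rw [this]; exact hF z

/-- the vanishing facts -/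
lemma van1 {F : F4 k V} {ζ : V →ₗ[k] V} (hF : Inv F (LinearMap.id + ζ)) (p q : V →ₗ[k] k)
    (v w : V) (hq : q ∘ₗ ζ = 0) (hv : ζ v = 0) (hw : ζ w = 0) : F (p ∘ₗ ζ) q v w = 0 := by
  have h := hF p q v w
  have e1 : p ∘ₗ (LinearMap.id + ζ) = p + p ∘ₗ ζ := by ext x; simp
  have e2 : q ∘ₗ (LinearMap.id + ζ) = q := by
    rw [LinearMap.comp_add, hq]; simp
  have e3 : (LinearMap.id + ζ : V →ₗ[k] V) v = v := by simp [hv]
  have e4 : (LinearMap.id + ζ : V →ₗ[k] V) w = w := by simp [hw]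
  rw [e1, e2, e3, e4] at h
  simpa using h

lemma van2 {F : F4 k V} {ζ : V →ₗ[k] V} (hF : Inv F (LinearMap.id + ζ)) (p q : V →ₗ[k] k)
    (v w : V) (hp : p ∘ₗ ζ = 0) (hv : ζ v = 0) (hw : ζ w = 0) : F p (q ∘ₗ ζ) v w = 0 := by
  have h := hF p q v w
  have e1 : q ∘ₗ (LinearMap.id + ζ) = q + q ∘ₗ ζ := by ext x; simp
  have e2 : p ∘ₗ (LinearMap.id + ζ) = p := by
    rw [LinearMap.comp_add, hp]; simp
  have e3 : (LinearMap.id + ζ : V →ₗ[k] V) v = v := by simp [hv]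
  have e4 : (LinearMap.id + ζ : V →ₗ[k] V) w = w := by simp [hw]
  rw [e1, e2, e3, e4] at h
  simpa using h

lemma van3 {F : F4 k V} {ζ : V →ₗ[k] V} (hF : Inv F (LinearMap.id + ζ)) (p q : V →ₗ[k] k)
    (v w : V) (hp : p ∘ₗ ζ = 0) (hq : q ∘ₗ ζ = 0) (hw : ζ w = 0) : F p q (ζ v) w = 0 := by
  have h := hF p q v w
  have e1 : q ∘ₗ (LinearMap.id + ζ) = q := by rw [LinearMap.comp_add, hq]; simp
  have e2 : p ∘ₗ (LinearMap.id + ζ) = p := by rw [LinearMap.comp_add, hp]; simp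
  have e3 : (LinearMap.id + ζ : V →ₗ[k] V) v = v + ζ v := by simp
  have e4 : (LinearMap.id + ζ : V →ₗ[k] V) w = w := by simp [hw]
  rw [e1, e2, e3, e4] at h
  simpa using h

lemma van4 {F : F4 k V} {ζ : V →ₗ[k] V} (hF : Inv F (LinearMap.id + ζ)) (p q : V →ₗ[k] k)
    (v w : V) (hp : p ∘ₗ ζ = 0) (hq : q ∘ₗ ζ = 0) (hv : ζ v = 0) : F p q v (ζ w) = 0 := by
  have h := hF p q v w
  have e1 : q ∘ₗ (LinearMap.id + ζ) = q := by rw [LinearMap.comp_add, hq]; simp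
  have e2 : p ∘ₗ (LinearMap.id + ζ) = p := by rw [LinearMap.comp_add, hp]; simp
  have e3 : (LinearMap.id + ζ : V →ₗ[k] V) w = w + ζ w := by simp
  have e4 : (LinearMap.id + ζ : V →ₗ[k] V) v = v := by simp [hv]
  rw [e1, e2, e3, e4] at h
  simpa using h

/-- a functional vanishing on `ker ζ` factors through `ζ` -/
lemma factor (ζ : V →ₗ[k] V) (ψ : V →ₗ[k] k) (h : ∀ v, ζ v = 0 → ψ v = 0) :
    ∃ p : V →ₗ[k] k, p ∘ₗ ζ = ψ := by
  have h1 : ψ ∈ (LinearMap.ker ζ).dualAnnihilator := by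
    rw [Submodule.mem_dualAnnihilator]
    intro w hw
    exact h w hw
  rw [← LinearMap.range_dualMap_eq_dualAnnihilator_ker] at h1
  obtain ⟨p, hp⟩ := h1
  exact ⟨p, hp⟩

/-- adapted maps between the module and its heart -/
structure Ad (ρ : Representation k G V) (ζ : V →ₗ[k] V) (τ : Representation k G T)
    (i : T →ₗ[k] V) (j : V →ₗ[k] T) : Prop where
  zi : ∀ t, ζ (i t) = 0
  jz : ∀ v, j (ζ v) = 0
  ji : ∀ t, j (i t) = t
  gi : ∀ g t, ∃ v, ρ g (i t) = i (τ g t) + ζ v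
  jg : ∀ g v, ζ v = 0 → j (ρ g v) = τ g (j v)

lemma Ad.inv_pull {ρ : Representation k G V} {ζ : V →ₗ[k] V} {τ : Representation k G T}
    {i : T →ₗ[k] V} {j : V →ₗ[k] T} (had : Ad ρ ζ τ i j)
    (comm : ∀ g v, ζ (ρ g v) = ρ g (ζ v)) (F : F4 k V)
    (hFz : Inv F (LinearMap.id + ζ)) (hF : ∀ g, Inv F (ρ g)) (g : G) :
    Inv (pull F i j) (τ g) := by
  intro p q v w
  rw [pull_apply, pull_apply]
  have hjz : ∀ p : T →ₗ[k] k, (p ∘ₗ j) ∘ₗ ζ = 0 := by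
    intro p; ext x
    have := had.jz x
    simp only [LinearMap.comp_apply, this, map_zero, LinearMap.zero_apply]
  have hjz' : ∀ p : T →ₗ[k] k, ((p ∘ₗ j) ∘ₗ ρ g) ∘ₗ ζ = 0 := by
    intro p; ext x
    simp only [LinearMap.comp_apply, ← comm, had.jz, map_zero, LinearMap.zero_apply]
  have hdp : ∀ p : T →ₗ[k] k, ∃ p' : V →ₗ[k] k,
      (p ∘ₗ τ g) ∘ₗ j = (p ∘ₗ j) ∘ₗ ρ g + p' ∘ₗ ζ := by
    intro p
    obtain ⟨p', hp'⟩ := factor ζ ((p ∘ₗ τ g) ∘ₗ j - (p ∘ₗ j) ∘ₗ ρ g) (by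
      intro v hv
      simp [had.jg g v hv])
    exact ⟨p', by rw [hp']; abel⟩
  obtain ⟨p', hp'⟩ := hdp p
  obtain ⟨q', hq'⟩ := hdp q
  obtain ⟨v', hv'⟩ := had.gi g v
  obtain ⟨w', hw'⟩ := had.gi g w
  have s1 : F ((p ∘ₗ τ g) ∘ₗ j) ((q ∘ₗ τ g) ∘ₗ j) (i v) (i w) =
      F ((p ∘ₗ j) ∘ₗ ρ g) ((q ∘ₗ j) ∘ₗ ρ g) (i v) (i w) := by
    have hq0 : ((q ∘ₗ τ g) ∘ₗ j) ∘ₗ ζ = 0 := hjz _
    have a1 : F ((p ∘ₗ τ g) ∘ₗ j) ((q ∘ₗ τ g) ∘ₗ j) (i v) (i w) =
        F ((p ∘ₗ j) ∘ₗ ρ g) ((q ∘ₗ τ g) ∘ₗ j) (i v) (i w) := by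
      rw [hp', map_add, LinearMap.add_apply, LinearMap.add_apply, LinearMap.add_apply,
        van1 hFz p' _ _ _ hq0 (had.zi _) (had.zi _), add_zero]
    have hp0 : ((p ∘ₗ j) ∘ₗ ρ g) ∘ₗ ζ = 0 := hjz' _
    rw [a1, hq', map_add, LinearMap.add_apply, LinearMap.add_apply,
      van2 hFz _ q' _ _ hp0 (had.zi _) (had.zi _), add_zero]
  have s2 : F (p ∘ₗ j) (q ∘ₗ j) (ρ g (i v)) (ρ g (i w)) =
      F (p ∘ₗ j) (q ∘ₗ j) (i (τ g v)) (i (τ g w)) := by
    have hw0 : ζ (ρ g (i w)) = 0 := by rw [comm, had.zi, map_zero]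
    have a1 : F (p ∘ₗ j) (q ∘ₗ j) (ρ g (i v)) (ρ g (i w)) =
        F (p ∘ₗ j) (q ∘ₗ j) (i (τ g v)) (ρ g (i w)) := by
      rw [hv', map_add, LinearMap.add_apply, van3 hFz _ _ v' _ (hjz _) (hjz _) hw0, add_zero]
    rw [a1, hw', map_add, van4 hFz _ _ _ w' (hjz _) (hjz _) (had.zi _), add_zero]
  rw [s1, hF g, s2]

/-- existence of adapted maps, with a basis as in HBAS -/
lemma exists_ad_aux (hH : Stmt_HBAS) [FiniteDimensional k V]
    {ρ : Representation k G V} (ζ : V →ₗ[k] V) (hζ : ∀ v, ζ (ζ v) = 0)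
    (comm : ∀ g v, ζ (ρ g v) = ρ g (ζ v)) {τ : Representation k G T}
    (π : LinearMap.ker ζ →ₗ[k] T) (hπs : Function.Surjective π)
    (hπ0 : ∀ v, π v = 0 ↔ (v : V) ∈ LinearMap.range ζ)
    (hπg : ∀ (g : G) (v : LinearMap.ker ζ) (h : ρ g v ∈ LinearMap.ker ζ),
      π ⟨ρ g v, h⟩ = τ g (π v)) {κ : Type} [Fintype κ] (c : Basis κ k T) :
    ∃ (σ : Type) (_ : Fintype σ) (b : Basis (σ ⊕ (κ ⊕ σ)) k V) (i : T →ₗ[k] V)
      (j : V →ₗ[k] T),
      Fintype.card σ = finrank k (LinearMap.range ζ) ∧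
      (∀ s, ζ (b (Sum.inl s)) = b (Sum.inr (Sum.inr s))) ∧
      (∀ t, ζ (b (Sum.inr (Sum.inl t))) = 0) ∧
      (∀ s, ζ (b (Sum.inr (Sum.inr s))) = 0) ∧
      (∀ t, i (c t) = b (Sum.inr (Sum.inl t))) ∧
      (∀ t, (c.coord t) ∘ₗ j = b.coord (Sum.inr (Sum.inl t))) ∧
      Ad ρ ζ τ i j := by
  classical
  obtain ⟨σ, hσ, b, hcard, hb1, hb2, hb3, hb4⟩ := hH k V T κ ζ π c hζ hπs hπ0
  let i : T →ₗ[k] V := c.constr k (fun t => b (Sum.inr (Sum.inl t)))
  let j : V →ₗ[k] T := b.constr k (Sum.elim (fun _ => 0) (Sum.elim (fun t => c t) (fun _ => 0)))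
  have hi : ∀ t, i (c t) = b (Sum.inr (Sum.inl t)) := fun t => c.constr_basis k _ t
  have hj1 : ∀ s, j (b (Sum.inl s)) = 0 := fun s => by simp [j]
  have hj2 : ∀ t, j (b (Sum.inr (Sum.inl t))) = c t := fun t => by simp [j]
  have hj3 : ∀ s, j (b (Sum.inr (Sum.inr s))) = 0 := fun s => by simp [j]
  have zi : ∀ t, ζ (i t) = 0 := by
    have : ζ ∘ₗ i = 0 := by
      refine c.ext fun t => ?_
      simp [hi, hb2]
    intro t
    exact congrArg (fun f => f t) this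
  have jz : ∀ v, j (ζ v) = 0 := by
    have : j ∘ₗ ζ = 0 := by
      refine b.ext fun x => ?_
      rcases x with s | t | s
      · simp [hb1, hj3]
      · simp [hb2]
      · simp [hb3]
    intro v
    exact congrArg (fun f => f v) this
  have ji : ∀ t, j (i t) = t := by
    have : j ∘ₗ i = LinearMap.id := by
      refine c.ext fun t => ?_
      simp [hi, hj2]
    intro t
    exact congrArg (fun f => f t) this
  have hz' : ∀ t, i t ∈ LinearMap.ker ζ := fun t => LinearMap.mem_ker.2 (zi t)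
  -- `π` on the image of `i`
  have πi : ∀ t (h : i t ∈ LinearMap.ker ζ), π ⟨i t, h⟩ = t := by
    have : π ∘ₗ (i.codRestrict (LinearMap.ker ζ) hz') = LinearMap.id := by
      refine c.ext fun t => ?_
      have h1 : b (Sum.inr (Sum.inl t)) ∈ LinearMap.ker ζ := LinearMap.mem_ker.2 (hb2 t)
      have h2 := hb4 t h1
      have h3 : (i.codRestrict (LinearMap.ker ζ) hz') (c t) = ⟨b (Sum.inr (Sum.inl t)), h1⟩ :=
        Subtype.ext (hi t)
      rw [LinearMap.comp_apply, h3, h2]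
      rfl
    intro t h
    exact congrArg (fun f => f t) this
  -- an element of the kernel is `i (π v)` up to the range
  have ker_dec : ∀ v (h : v ∈ LinearMap.ker ζ), ∃ w, v = i (π ⟨v, h⟩) + ζ w := by
    intro v h
    have h1 : v - i (π ⟨v, h⟩) ∈ LinearMap.ker ζ := Submodule.sub_mem _ h (hz' _)
    have h2 : π ⟨v - i (π ⟨v, h⟩), h1⟩ = 0 := by
      have : (⟨v - i (π ⟨v, h⟩), h1⟩ : LinearMap.ker ζ) =
          ⟨v, h⟩ - ⟨i (π ⟨v, h⟩), hz' _⟩ := rfl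
      rw [this, map_sub, πi, sub_self]
    obtain ⟨w, hw⟩ := (hπ0 _).1 h2
    have hw' : ζ w = v - i (π ⟨v, h⟩) := hw
    exact ⟨w, by rw [hw']; exact (add_sub_cancel _ _).symm⟩
  have jπ : ∀ v (h : v ∈ LinearMap.ker ζ), j v = π ⟨v, h⟩ := by
    intro v h
    obtain ⟨w, hw⟩ := ker_dec v h
    conv_lhs => rw [hw]
    rw [map_add, ji, jz, add_zero]
  refine ⟨σ, hσ, b, i, j, hcard, hb1, hb2, hb3, hi, ?_, ⟨zi, jz, ji, ?_, ?_⟩⟩
  · intro t
    refine b.ext fun x => ?_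
    rcases x with s | t' | s
    · simp [hj1]
    · simp [hj2, Finsupp.single_apply]
    · simp [hj3]
  · intro g t
    have h1 : ρ g (i t) ∈ LinearMap.ker ζ := by
      rw [LinearMap.mem_ker, comm, zi, map_zero]
    obtain ⟨w, hw⟩ := ker_dec _ h1
    refine ⟨w, ?_⟩
    have h2 := hπg g ⟨i t, hz' t⟩ h1
    rw [πi] at h2
    rw [h2] at hw
    exact hw
  · intro g v hv
    have h1 : ρ g v ∈ LinearMap.ker ζ := by
      rw [LinearMap.mem_ker, comm, hv, map_zero]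
    rw [jπ _ h1, jπ v (LinearMap.mem_ker.2 hv)]
    exact hπg g ⟨v, LinearMap.mem_ker.2 hv⟩ h1

lemma exists_ad (hH : Stmt_HBAS) [CharP k 2] [FiniteDimensional k V]
    {ρ : Representation k G V} {z : G} (hz : CentInv ρ z) {τ : Representation k G T}
    (hT : IsHeart ρ z τ) {κ : Type} [Fintype κ] (c : Basis κ k T) :
    ∃ (σ : Type) (_ : Fintype σ) (b : Basis (σ ⊕ (κ ⊕ σ)) k V) (i : T →ₗ[k] V)
      (j : V →ₗ[k] T),
      Fintype.card σ = finrank k (LinearMap.range (ρ z - 1)) ∧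
      (∀ s, (ρ z - 1) (b (Sum.inl s)) = b (Sum.inr (Sum.inr s))) ∧
      (∀ t, (ρ z - 1) (b (Sum.inr (Sum.inl t))) = 0) ∧
      (∀ s, (ρ z - 1) (b (Sum.inr (Sum.inr s))) = 0) ∧
      (∀ t, i (c t) = b (Sum.inr (Sum.inl t))) ∧
      (∀ t, (c.coord t) ∘ₗ j = b.coord (Sum.inr (Sum.inl t))) ∧
      Ad ρ (ρ z - 1) τ i j := by
  obtain ⟨π, hπs, hπ0, hπg⟩ := hT
  exact exists_ad_aux hH (ρ z - 1) (sq_zero hz) (comm hz) π hπs hπ0 hπg c

end HEART

/-- The trace of an invariant form equals the trace of the form pulled back to the heart. -/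
lemma HEART.TR_eq (hC : Stmt_CTR) (hT : Stmt_TATE) [CharP k 2] {ρ : Representation k G V} {z : G}
    {κ σ : Type} [Fintype κ] [Fintype σ] {c : Basis κ k T}
    {b : Basis (σ ⊕ (κ ⊕ σ)) k V} {i : T →ₗ[k] V} {j : V →ₗ[k] T}
    (hb1 : ∀ s, (ρ z - 1) (b (Sum.inl s)) = b (Sum.inr (Sum.inr s)))
    (hb2 : ∀ t, (ρ z - 1) (b (Sum.inr (Sum.inl t))) = 0)
    (hb3 : ∀ s, (ρ z - 1) (b (Sum.inr (Sum.inr s))) = 0)
    (hi : ∀ t, i (c t) = b (Sum.inr (Sum.inl t)))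
    (hj : ∀ t, (c.coord t) ∘ₗ j = b.coord (Sum.inr (Sum.inl t)))
    {F : F4 k V} (hF : ∀ g, Inv F (ρ g)) {ι : Type} [Fintype ι] (B : Basis ι k V) :
    TR B F LinearMap.id LinearMap.id = TR c (pull F i j) LinearMap.id LinearMap.id := by
  rw [STEP.TR_basis hC B b, hT k V σ _ b (ρ z - 1) F hb1 hb2 hb3 (HEART.inv_z hF)]
  unfold TR
  refine Finset.sum_congr rfl fun x _ => Finset.sum_congr rfl fun y _ => ?_
  simp only [pull_apply, LinearMap.id_apply, hi, hj]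

/-- The trace condition for the heart implies the trace condition for the module. -/
theorem star_of_heart (hC : Stmt_CTR) (hT : Stmt_TATE) (hH : Stmt_HBAS) [CharP k 2]
    [FiniteDimensional k V] [FiniteDimensional k T] {ρ : Representation k G V} {z : G}
    (hz : CentInv ρ z) {τ : Representation k G T} (hh : IsHeart ρ z τ)
    (hs : Star (fun g => τ g)) : Star (fun g => ρ g) := by
  intro ι _ B F hF
  obtain ⟨σ, hσ, b, i, j, -, hb1, hb2, hb3, hi, hj, had⟩ :=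
    HEART.exists_ad hH hz hh (finBasis k T)
  rw [HEART.TR_eq hC hT hb1 hb2 hb3 hi hj hF B]
  exact hs _ (finBasis k T) (pull F i j)
    (fun g => had.inv_pull (HEART.comm hz) F (HEART.inv_z hF) hF g)

end

end Pool.BenStar
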