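import Pool.Agent.Work.MP_26c40d_31.Defs

/-!
# MP_26c40d_al: the blocks (helper31). Proofs in BLUEPRINT.md
-/

set_option autoImplicit false

namespace Pool.BenStar

open Module

/-- CTR. Contractions do not depend on the basis (and cyclicity). -/
def Stmt_CTR : Prop :=
  ∀ (k V W ι κ : Type) [Field k] [AddCommGroup V] [Module k V] [AddCommGroup W] [Module k W]
    [Fintype ι] [Fintype κ] (b : Basis ι k V) (c : Basis κ k W) (i : W →ₗ[k] V) (j : V →ₗ[k] W)
    (B : (V →ₗ[k] k) →ₗ[k] V →ₗ[k] k),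
    ∑ x, B (b.coord x) (i (j (b x))) = ∑ y, B (c.coord y ∘ₗ j) (i (c y))

/-- TATE. The trace only sees the middle part `T` of `V = E ⊕ T ⊕ O`, `ζ : E ≅ O`. -/
def Stmt_TATE : Prop :=
  ∀ (k V σ τ : Type) [Field k] [CharP k 2] [AddCommGroup V] [Module k V] [Fintype σ] [Fintype τ]
    (b : Basis (σ ⊕ (τ ⊕ σ)) k V) (ζ : V →ₗ[k] V) (F : F4 k V),
    (∀ s, ζ (b (Sum.inl s)) = b (Sum.inr (Sum.inr s))) →
    (∀ t, ζ (b (Sum.inr (Sum.inl t))) = 0) →
    (∀ s, ζ (b (Sum.inr (Sum.inr s))) = 0) →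
    Inv F (LinearMap.id + ζ) →
    TR b F LinearMap.id LinearMap.id =
      ∑ t, ∑ t', (F (b.coord (Sum.inr (Sum.inl t))) (b.coord (Sum.inr (Sum.inl t')))
          (b (Sum.inr (Sum.inl t))) (b (Sum.inr (Sum.inl t'))) +
        F (b.coord (Sum.inr (Sum.inl t))) (b.coord (Sum.inr (Sum.inl t')))
          (b (Sum.inr (Sum.inl t'))) (b (Sum.inr (Sum.inl t))))

/-- HBAS. Bases adapted to a square-zero operator. -/
def Stmt_HBAS : Prop :=
  ∀ (k V T τ : Type) [Field k] [AddCommGroup V] [Module k V] [FiniteDimensional k V]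
    [AddCommGroup T] [Module k T] [Fintype τ] (ζ : V →ₗ[k] V) (π : LinearMap.ker ζ →ₗ[k] T)
    (c : Basis τ k T), (∀ v, ζ (ζ v) = 0) → Function.Surjective π →
    (∀ v, π v = 0 ↔ (v : V) ∈ LinearMap.range ζ) →
    ∃ (σ : Type) (_ : Fintype σ) (b : Basis (σ ⊕ (τ ⊕ σ)) k V),
      Fintype.card σ = finrank k (LinearMap.range ζ) ∧
      (∀ s, ζ (b (Sum.inl s)) = b (Sum.inr (Sum.inr s))) ∧
      (∀ t, ζ (b (Sum.inr (Sum.inl t))) = 0) ∧
      (∀ s, ζ (b (Sum.inr (Sum.inr s))) = 0) ∧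
      ∀ t (h : b (Sum.inr (Sum.inl t)) ∈ LinearMap.ker ζ), π ⟨b (Sum.inr (Sum.inl t)), h⟩ = c t

/-- REL. The relations between the form on `V` and the extension data `(b, a)` of `V`. -/
def Stmt_REL : Prop :=
  ∀ (k V T Γ ι : Type) [Field k] [CharP k 2] [AddCommGroup V] [Module k V]
    [FiniteDimensional k V] [AddCommGroup T] [Module k T] [FiniteDimensional k T] [Fintype ι]
    (fr : Frame k V T) (g : Γ → V →ₗ[k] V) (r : Γ → T ≃ₗ[k] T) (b : Γ → T) (a : Γ → T →ₗ[k] k)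
    (c : Γ → k) (F : F4 k V) (B : Basis ι k T),
    (∀ γ, Elt fr (g γ) (r γ : T →ₗ[k] T) (b γ) (a γ) (c γ)) → Inv F (zz fr) →
    (∀ γ, Inv F (g γ)) →
    ∃ (Q : Module.End k T → Module.End k T) (N : Module.End k T),
      Com (fun γ => ((r γ : T →ₗ[k] T) : Module.End k T)) N ∧
      (∀ Y, Com (fun γ => ((r γ : T →ₗ[k] T) : Module.End k T)) Y →
        Com (fun γ => ((r γ : T →ₗ[k] T) : Module.End k T)) (Q Y)) ∧
      (∀ Y, Com (fun γ => ((r γ : T →ₗ[k] T) : Module.End k T)) Y → ∃ u : T, ∀ γ,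
        Q Y (b γ) = LinearMap.trace k T (N * Y) • b γ + N (Y (b γ)) + r γ u + u) ∧
      (∀ Y, Com (fun γ => ((r γ : T →ₗ[k] T) : Module.End k T)) Y → ∃ x : T →ₗ[k] k, ∀ γ t,
        a γ (Q Y t) = LinearMap.trace k T (N * Y) * a γ t + a γ (Y (N t)) + x (r γ t) + x t) ∧
      (∃ y : T, ∀ γ, N (b γ) = r γ y + y) ∧
      (∃ x : T →ₗ[k] k, ∀ γ t, a γ (N t) = x (r γ t) + x t) ∧
      ∀ Y Z : Module.End k T, LinearMap.trace k T (Q Y * Z) =
        TR B (pull F fr.i fr.j) Z Y + TR B (pull F fr.i fr.j) Y Z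

/-- IND. If `V` is indecomposable then an endomorphism of `T` killing both classes is nilpotent. -/
def Stmt_IND : Prop :=
  ∀ (k V T Γ : Type) [Field k] [CharP k 2] [AddCommGroup V] [Module k V]
    [FiniteDimensional k V] [AddCommGroup T] [Module k T] [FiniteDimensional k T]
    (fr : Frame k V T) (g : Γ → V →ₗ[k] V) (r : Γ → T →ₗ[k] T) (b : Γ → T) (a : Γ → T →ₗ[k] k)
    (c : Γ → k), (∀ γ, Elt fr (g γ) (r γ) (b γ) (a γ) (c γ)) →
    (∀ A B : Submodule k V, (∀ γ, ∀ v ∈ A, g γ v ∈ A) → (∀ v ∈ A, zz fr v ∈ A) →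
      (∀ γ, ∀ v ∈ B, g γ v ∈ B) → (∀ v ∈ B, zz fr v ∈ B) → IsCompl A B → A = ⊥ ∨ B = ⊥) →
    ∀ Y : Module.End k T, Com r Y → (∃ y : T, ∀ γ, Y (b γ) = r γ y + y) →
      (∃ x : T →ₗ[k] k, ∀ γ t, a γ (Y t) = x (r γ t) + x t) → IsNilpotent Y

/-- IDEM. A non-nilpotent `Y` has a nonzero idempotent multiple `W Y`, `W` a polynomial in `Y`. -/
def Stmt_IDEM : Prop :=
  ∀ (k V : Type) [Field k] [AddCommGroup V] [Module k V] [FiniteDimensional k V]
    (Y : Module.End k V), ¬ IsNilpotent Y →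
    ∃ W ∈ Algebra.adjoin k {Y}, (W * Y) * (W * Y) = W * Y ∧ W * Y ≠ 0

/-- PRIM. Decomposition of an idempotent of the commutant into primitive ones. -/
def Stmt_PRIM : Prop :=
  ∀ (k V Γ : Type) [Field k] [AddCommGroup V] [Module k V] [FiniteDimensional k V]
    (ρ : Γ → Module.End k V) (e : Module.End k V), Com ρ e → e * e = e →
    ∃ (n : ℕ) (ε : Fin n → Module.End k V), (∀ i, Prim ρ (ε i)) ∧
      (∀ i j, i ≠ j → ε i * ε j = 0) ∧ ∑ i, ε i = e

/-- LOC. The corner of a primitive idempotent is local with residue field `k`. -/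
def Stmt_LOC : Prop :=
  ∀ (k V Γ : Type) [Field k] [IsAlgClosed k] [AddCommGroup V] [Module k V]
    [FiniteDimensional k V] (ρ : Γ → Module.End k V) (e A : Module.End k V), Prim ρ e →
    Com ρ A → ∃ μ : k, IsNilpotent (e * A * e - μ • e)

/-- EVEN. Primitive idempotents of even rank do not contribute to the trace. -/
def Stmt_EVEN : Prop :=
  ∀ (k V Γ ι : Type) [Field k] [IsAlgClosed k] [CharP k 2] [AddCommGroup V] [Module k V]
    [FiniteDimensional k V] [Fintype ι] (ρ : Γ → V ≃ₗ[k] V) (F : F4 k V) (B : Basis ι k V)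
    (e Y : Module.End k V), (∀ γ, Inv F (ρ γ : V →ₗ[k] V)) →
    Prim (fun γ => ((ρ γ : V →ₗ[k] V) : Module.End k V)) e → Even (finrank k (LinearMap.range e)) →
    Com (fun γ => ((ρ γ : V →ₗ[k] V) : Module.End k V)) Y → TR B F Y e = 0 ∧ TR B F e Y = 0

/-- ALG. The algebra of the transvection step. -/
def Stmt_ALG : Prop :=
  ∀ (k T Γ : Type) [Field k] [CharP k 2] [AddCommGroup T] [Module k T] [FiniteDimensional k T]
    (r : Γ → T →ₗ[k] T) (b : Γ → T) (a : Γ → T →ₗ[k] k) (Q : Module.End k T → Module.End k T)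
    (N : Module.End k T),
    (∀ Y : Module.End k T, Com r Y → (∃ y : T, ∀ γ, Y (b γ) = r γ y + y) →
      (∃ x : T →ₗ[k] k, ∀ γ t, a γ (Y t) = x (r γ t) + x t) → IsNilpotent Y) →
    Com r N → (∀ Y, Com r Y → Com r (Q Y)) →
    (∀ Y, Com r Y → ∃ u : T, ∀ γ,
      Q Y (b γ) = LinearMap.trace k T (N * Y) • b γ + N (Y (b γ)) + r γ u + u) →
    (∀ Y, Com r Y → ∃ x : T →ₗ[k] k, ∀ γ t,
      a γ (Q Y t) = LinearMap.trace k T (N * Y) * a γ t + a γ (Y (N t)) + x (r γ t) + x t) →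
    (∃ y : T, ∀ γ, N (b γ) = r γ y + y) →
    (∃ x : T →ₗ[k] k, ∀ γ t, a γ (N t) = x (r γ t) + x t) →
    (∀ Y Z : Module.End k T,
      LinearMap.trace k T (Q Y * Z) = LinearMap.trace k T (Q Z * Y)) →
    ∃ (n : ℕ) (ε : Fin n → Module.End k T), (∀ i, Prim r (ε i)) ∧
      (∀ i j, i ≠ j → ε i * ε j = 0) ∧ ∑ i, ε i = 1 ∧
      ∀ i j, i ≠ j → LinearMap.trace k T (Q (ε i) * ε j) = 0

/-- CONV. The trace condition implies the conclusion of the conjecture. -/
def Stmt_CONV : Prop :=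
  ∀ (k G V : Type) [Field k] [CharP k 2] [Group G] [AddCommGroup V] [Module k V]
    [FiniteDimensional k V] (ρ : Representation k G V), Odd (finrank k V) →
    Star (fun g => ρ g) → Concl ρ

/-- CONV2. The conclusion of the conjecture implies the trace condition. -/
def Stmt_CONV2 : Prop :=
  ∀ (k G V : Type) [Field k] [IsAlgClosed k] [CharP k 2] [Group G] [AddCommGroup V] [Module k V]
    [FiniteDimensional k V] (ρ : Representation k G V), Odd (finrank k V) →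
    Concl ρ → Star (fun g => ρ g)

/-- CENT. A nontrivial representation of a 2-group has a central involution in its image. -/
def Stmt_CENT : Prop :=
  ∀ (k G V : Type) [Field k] [Group G] [Finite G] [AddCommGroup V] [Module k V]
    (ρ : Representation k G V), IsPGroup 2 G → (∃ g, ρ g ≠ 1) →
    ∃ z, CentInv ρ z ∧ ρ z ≠ 1

/-- HEX. The heart exists. -/
def Stmt_HEX : Prop :=
  ∀ (k G V : Type) [Field k] [Group G] [AddCommGroup V] [Module k V] [FiniteDimensional k V]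
    (ρ : Representation k G V) (z : G), CentInv ρ z →
    ∃ (T : Type) (_ : AddCommGroup T) (_ : Module k T) (_ : FiniteDimensional k T)
      (τ : Representation k G T), IsHeart ρ z τ

end Pool.BenStar
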