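import Pool.Agent.Work.MP_26c40d_31.Step

/-!
# MP_26c40d_al: the range of a primitive idempotent is an indecomposable summand (helper31)
-/

set_option autoImplicit false
set_option linter.unusedSectionVars false
set_option linter.unusedSimpArgs false

namespace Pool.BenStar

open Module

section
variable {k : Type} [Field k] {G : Type} [Group G] {V : Type} [AddCommGroup V] [Module k V]
variable {T : Type} [AddCommGroup T] [Module k T]

namespace PSUB

lemma com_apply {ρ : Representation k G V} {e : Module.End k V} (h : Com (fun g => ρ g) e)
    (g : G) (v : V) : e (ρ g v) = ρ g (e v) := by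
  have := congrArg (fun f => f v) (h g)
  simpa using this

lemma invSub_range {ρ : Representation k G V} {e : Module.End k V}
    (h : Com (fun g => ρ g) e) : InvSub ρ (LinearMap.range e) := by
  rintro g v ⟨w, rfl⟩
  exact ⟨ρ g w, com_apply h g w⟩

/-- The range of a primitive idempotent is indecomposable. -/
lemma indec_range {ρ : Representation k G V} {e : Module.End k V}
    (h : Prim (fun g => ρ g) e) :
    Indec (sub ρ (LinearMap.range e) (invSub_range h.1)) := by
  obtain ⟨hc, hi, h0, hp⟩ := h
  have hee : ∀ v, e (e v) = e v := fun v => congrArg (fun f => f v) hi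
  have heU : ∀ u : LinearMap.range e, e u = u := by
    rintro ⟨_, w, rfl⟩
    exact hee w
  refine ⟨?_, ?_⟩
  · by_contra hn
    rw [not_nontrivial_iff_subsingleton] at hn
    apply h0
    ext v
    have : (⟨e v, v, rfl⟩ : LinearMap.range e) = 0 := Subsingleton.elim _ _
    exact congrArg Subtype.val this
  · intro A B hA hB hAB
    -- the projection onto `A` along `B`
    let p : LinearMap.range e →ₗ[k] LinearMap.range e := A.subtype ∘ₗ A.projectionOnto B hAB
    have pA : ∀ a ∈ A, p a = a := by
      intro a ha
      have := Submodule.projectionOnto_apply_left hAB ⟨a, ha⟩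
      simp only [p, LinearMap.comp_apply, Submodule.subtype_apply]
      rw [this]
    have pB : ∀ b ∈ B, p b = 0 := by
      intro b hb
      have := (Submodule.projectionOnto_apply_eq_zero_iff hAB (x := b)).2 hb
      simp only [p, LinearMap.comp_apply, Submodule.subtype_apply]
      rw [this]
      rfl
    have dec : ∀ u : LinearMap.range e, ∃ a ∈ A, ∃ b ∈ B, a + b = u := by
      intro u
      have : u ∈ A ⊔ B := by rw [hAB.sup_eq_top]; trivial
      exact Submodule.mem_sup.1 this
    have pp : ∀ u, p (p u) = p u := by
      intro u
      obtain ⟨a, ha, b, hb, rfl⟩ := dec u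
      rw [map_add, pA a ha, pB b hb, add_zero, pA a ha]
    have pg : ∀ g u, p (sub ρ _ (invSub_range hc) g u) =
        sub ρ _ (invSub_range hc) g (p u) := by
      intro g u
      obtain ⟨a, ha, b, hb, rfl⟩ := dec u
      rw [map_add, map_add, map_add, pA a ha, pB b hb, pA _ (hA g a ha), pB _ (hB g b hb),
        add_zero, add_zero]
    let f : Module.End k V := (LinearMap.range e).subtype ∘ₗ p ∘ₗ e.rangeRestrict
    have fv : ∀ v, f v = p ⟨e v, v, rfl⟩ := fun v => rfl
    have fU : ∀ u : LinearMap.range e, f u = p u := by
      intro u
      rw [fv]
      congr 2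
      exact Subtype.ext (heU u)
    have hf : f = 0 ∨ f = e := by
      refine hp f ?_ ?_ ?_ ?_
      · intro g
        ext v
        change f (ρ g v) = ρ g (f v)
        rw [fv, fv, ← sub_apply ρ _ (invSub_range hc), ← pg]
        congr 2
        exact Subtype.ext (com_apply hc g v)
      · ext v
        change f (f v) = f v
        rw [fv v, fU, pp]
      · ext v
        change e (f v) = f v
        rw [fv, heU]
      · ext v
        change f (e v) = f v
        rw [fv, fv]
        congr 2
        exact Subtype.ext (hee v)
    rcases hf with hf | hf
    · left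
      rw [Submodule.eq_bot_iff]
      intro a ha
      have h1 := fU a
      rw [hf, pA a ha] at h1
      exact Subtype.ext h1.symm
    · right
      rw [Submodule.eq_bot_iff]
      intro b hb
      have h1 := fU b
      rw [hf, pB b hb, heU] at h1
      exact Subtype.ext h1

end PSUB

end

end Pool.BenStar
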