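import Pool.Agent.Work.MP_26c40d_31.Interface

/-!
# MP_26c40d_al: independence of the basis, restriction to summands (helper31)
-/

set_option autoImplicit false
set_option linter.unusedSectionVars false

namespace Pool.BenStar

open Module

section
variable {k : Type} [Field k] {V : Type} [AddCommGroup V] [Module k V]
variable {T : Type} [AddCommGroup T] [Module k T]

namespace STEP

variable {ι κ : Type} [Fintype ι] [Fintype κ]

/-- `q w ↦ F p q v w` -/
noncomputable def B1 (F : F4 k V) (p : V →ₗ[k] k) (v : V) : (V →ₗ[k] k) →ₗ[k] V →ₗ[k] k :=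
  LinearMap.mk₂ k (fun q w => F p q v w) (by intros; simp) (by intros; simp)
    (by intros; simp) (by intros; simp)

/-- `q w ↦ F p q w v` -/
noncomputable def B2 (F : F4 k V) (p : V →ₗ[k] k) (v : V) : (V →ₗ[k] k) →ₗ[k] V →ₗ[k] k :=
  LinearMap.mk₂ k (fun q w => F p q w v) (by intros; simp) (by intros; simp)
    (by intros; simp) (by intros; simp)

/-- `p v ↦ F p q v w` -/
noncomputable def B3 (F : F4 k V) (q : V →ₗ[k] k) (w : V) : (V →ₗ[k] k) →ₗ[k] V →ₗ[k] k :=
  LinearMap.mk₂ k (fun p v => F p q v w) (by intros; simp) (by intros; simp)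
    (by intros; simp) (by intros; simp)

/-- `p v ↦ F p q w v` -/
noncomputable def B4 (F : F4 k V) (q : V →ₗ[k] k) (w : V) : (V →ₗ[k] k) →ₗ[k] V →ₗ[k] k :=
  LinearMap.mk₂ k (fun p v => F p q w v) (by intros; simp) (by intros; simp)
    (by intros; simp) (by intros; simp)

/-- the trace of `F (1+τ) (ij ⊗ ij)` is the trace of the pulled back form -/
lemma TR_pull (hC : Stmt_CTR) (b : Basis ι k V) (c : Basis κ k T) (F : F4 k V)
    (i : T →ₗ[k] V) (j : V →ₗ[k] T) :
    TR b F (i ∘ₗ j) (i ∘ₗ j) = TR c (pull F i j) LinearMap.id LinearMap.id := by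
  -- contraction of one pair
  have key : ∀ (G : (V →ₗ[k] k) →ₗ[k] V →ₗ[k] k),
      ∑ x, G (b.coord x) (i (j (b x))) = ∑ y, G (c.coord y ∘ₗ j) (i (c y)) :=
    fun G => hC k V T ι κ b c i j G
  have e1 : ∑ x, ∑ y, F (b.coord x) (b.coord y) (i (j (b x))) (i (j (b y))) =
      ∑ x, ∑ y, F (c.coord x ∘ₗ j) (c.coord y ∘ₗ j) (i (c x)) (i (c y)) := by
    calc ∑ x, ∑ y, F (b.coord x) (b.coord y) (i (j (b x))) (i (j (b y)))
        = ∑ x, ∑ y, F (b.coord x) (c.coord y ∘ₗ j) (i (j (b x))) (i (c y)) :=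
          Finset.sum_congr rfl fun x _ => key (B1 F (b.coord x) (i (j (b x))))
      _ = ∑ y, ∑ x, F (b.coord x) (c.coord y ∘ₗ j) (i (j (b x))) (i (c y)) :=
          Finset.sum_comm
      _ = ∑ y, ∑ x, F (c.coord x ∘ₗ j) (c.coord y ∘ₗ j) (i (c x)) (i (c y)) :=
          Finset.sum_congr rfl fun y _ => key (B3 F (c.coord y ∘ₗ j) (i (c y)))
      _ = _ := Finset.sum_comm
  have e2 : ∑ x, ∑ y, F (b.coord x) (b.coord y) (i (j (b y))) (i (j (b x))) =
      ∑ x, ∑ y, F (c.coord x ∘ₗ j) (c.coord y ∘ₗ j) (i (c y)) (i (c x)) := by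
    calc ∑ x, ∑ y, F (b.coord x) (b.coord y) (i (j (b y))) (i (j (b x)))
        = ∑ x, ∑ y, F (b.coord x) (c.coord y ∘ₗ j) (i (c y)) (i (j (b x))) :=
          Finset.sum_congr rfl fun x _ => key (B2 F (b.coord x) (i (j (b x))))
      _ = ∑ y, ∑ x, F (b.coord x) (c.coord y ∘ₗ j) (i (c y)) (i (j (b x))) :=
          Finset.sum_comm
      _ = ∑ y, ∑ x, F (c.coord x ∘ₗ j) (c.coord y ∘ₗ j) (i (c y)) (i (c x)) :=
          Finset.sum_congr rfl fun y _ => key (B4 F (c.coord y ∘ₗ j) (i (c y)))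
      _ = _ := Finset.sum_comm
  simp only [TR, Finset.sum_add_distrib, LinearMap.comp_apply, pull_apply, LinearMap.id_apply]
  rw [e1, e2]

/-- the trace does not depend on the basis -/
lemma TR_basis (hC : Stmt_CTR) (b : Basis ι k V) (c : Basis κ k V) (F : F4 k V) :
    TR b F LinearMap.id LinearMap.id = TR c F LinearMap.id LinearMap.id := by
  have h := TR_pull hC b c F LinearMap.id LinearMap.id
  have e : pull F (LinearMap.id : V →ₗ[k] V) LinearMap.id = F := by
    ext p q v w
    rfl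
  rw [e] at h
  simpa using h

/-- additivity -/
lemma TR_add_left (b : Basis ι k V) (F : F4 k V) (Y Y' Z : V →ₗ[k] V) :
    TR b F (Y + Y') Z = TR b F Y Z + TR b F Y' Z := by
  simp only [TR, LinearMap.add_apply, map_add, ← Finset.sum_add_distrib]
  refine Finset.sum_congr rfl fun x _ => Finset.sum_congr rfl fun y _ => ?_
  ring

lemma TR_add_right (b : Basis ι k V) (F : F4 k V) (Y Z Z' : V →ₗ[k] V) :
    TR b F Y (Z + Z') = TR b F Y Z + TR b F Y Z' := by
  simp only [TR, LinearMap.add_apply, map_add, ← Finset.sum_add_distrib]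
  refine Finset.sum_congr rfl fun x _ => Finset.sum_congr rfl fun y _ => ?_
  ring

lemma TR_zero_left (b : Basis ι k V) (F : F4 k V) (Z : V →ₗ[k] V) :
    TR b F 0 Z = 0 := by
  simp [TR]

lemma TR_zero_right (b : Basis ι k V) (F : F4 k V) (Z : V →ₗ[k] V) :
    TR b F Z 0 = 0 := by
  simp [TR]

lemma TR_sum_left (b : Basis ι k V) (F : F4 k V) {n : Type} (s : Finset n)
    (Y : n → V →ₗ[k] V) (Z : V →ₗ[k] V) :
    TR b F (∑ x ∈ s, Y x) Z = ∑ x ∈ s, TR b F (Y x) Z := by
  classical
  induction s using Finset.induction_on with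
  | empty => simp [TR_zero_left]
  | insert a s ha ih => rw [Finset.sum_insert ha, Finset.sum_insert ha, TR_add_left, ih]

lemma TR_sum_right (b : Basis ι k V) (F : F4 k V) {n : Type} (s : Finset n)
    (Y : n → V →ₗ[k] V) (Z : V →ₗ[k] V) :
    TR b F Z (∑ x ∈ s, Y x) = ∑ x ∈ s, TR b F Z (Y x) := by
  classical
  induction s using Finset.induction_on with
  | empty => simp [TR_zero_right]
  | insert a s ha ih => rw [Finset.sum_insert ha, Finset.sum_insert ha, TR_add_right, ih]

end STEP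

end

/-! ### Representations -/

section
variable {k : Type} [Field k] {G : Type} [Group G] {V : Type} [AddCommGroup V] [Module k V]
variable {T : Type} [AddCommGroup T] [Module k T]

/-- The restriction of a representation to an invariant subspace. -/
noncomputable def sub (ρ : Representation k G V) (W : Submodule k V) (hW : InvSub ρ W) :
    Representation k G W where
  toFun g := (ρ g).restrict (hW g)
  map_one' := by
    ext v
    simp [LinearMap.restrict_apply]
  map_mul' g h := by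
    ext v
    simp [LinearMap.restrict_apply]

@[simp] lemma sub_apply (ρ : Representation k G V) (W : Submodule k V) (hW : InvSub ρ W) (g : G)
    (w : W) : ((sub ρ W hW g w : W) : V) = ρ g w := rfl

namespace STEP

/-- invariance of the pulled back form -/
lemma inv_pull {F : F4 k V} {g : V →ₗ[k] V} (hF : Inv F g) (i : T →ₗ[k] V) (j : V →ₗ[k] T)
    (t : T →ₗ[k] T) (hi : ∀ x, g (i x) = i (t x)) (hj : ∀ v, j (g v) = t (j v)) :
    Inv (pull F i j) t := by
  intro p q v w
  have e : ∀ p : T →ₗ[k] k, (p ∘ₗ t) ∘ₗ j = (p ∘ₗ j) ∘ₗ g := by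
    intro p
    ext v
    simp [hj]
  rw [pull_apply, pull_apply, e, e, hF, hi, hi]

/-- the trace condition passes from `T` to the part `i j` of the trace -/
lemma star_pull (hC : Stmt_CTR) [FiniteDimensional k T] {ρ : Representation k G V}
    {τ : Representation k G T} (hτ : Star (fun g => τ g)) (F : F4 k V)
    (hF : ∀ g, Inv F (ρ g)) (i : T →ₗ[k] V) (j : V →ₗ[k] T)
    (hi : ∀ g x, ρ g (i x) = i (τ g x)) (hj : ∀ g v, j (ρ g v) = τ g (j v))
    {ι : Type} [Fintype ι] (b : Basis ι k V) :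
    TR b F (i ∘ₗ j) (i ∘ₗ j) = 0 := by
  rw [TR_pull hC b (finBasis k T)]
  exact hτ _ _ _ fun g => inv_pull (hF g) i j (τ g) (hi g) (hj g)

end STEP

end

end Pool.BenStar
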