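import Pool.Agent.Work.MP_26c40d_31.Heart
import Pool.Agent.Work.MP_26c40d_31.PrimSub

/-!
# MP_26c40d_al: the transvection step (helper31)
-/

set_option autoImplicit false
set_option linter.unusedSectionVars false
set_option linter.unusedSimpArgs false

namespace Pool.BenStar

open Module

section
variable {k : Type} [Field k] {G : Type} [Group G] {V : Type} [AddCommGroup V] [Module k V]
variable {T : Type} [AddCommGroup T] [Module k T]

namespace TRANS

/-- the operators of a representation as equivalences -/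
noncomputable def eqv (τ : Representation k G T) (g : G) : T ≃ₗ[k] T :=
  LinearEquiv.ofLinearMap (τ g) (τ g⁻¹)
    (by
      have h : τ g * τ g⁻¹ = 1 := by rw [← map_mul, mul_inv_cancel, map_one]
      exact h)
    (by
      have h : τ g⁻¹ * τ g = 1 := by rw [← map_mul, inv_mul_cancel, map_one]
      exact h)

lemma eqv_coe (τ : Representation k G T) (g : G) : (eqv τ g : T →ₗ[k] T) = τ g := rfl

/-- primitive idempotents of even rank do not contribute -/
lemma TR_even (hE : Stmt_EVEN) [IsAlgClosed k] [CharP k 2] [FiniteDimensional k T]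
    {τ : Representation k G T} {F : F4 k T} (hF : ∀ g, Inv F (τ g)) {ι : Type} [Fintype ι]
    (B : Basis ι k T) {e Y : Module.End k T} (he : Prim (fun g => τ g) e)
    (hev : Even (finrank k (LinearMap.range e))) (hY : Com (fun g => τ g) Y) :
    TR B F Y e = 0 ∧ TR B F e Y = 0 :=
  hE k T G ι (eqv τ) F B e Y hF he hev hY

/-- the part of an odd summand -/
lemma TR_odd (hC : Stmt_CTR) [FiniteDimensional k T]
    {τ : Representation k G T} {F : F4 k T} (hF : ∀ g, Inv F (τ g)) {ι : Type} [Fintype ι]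
    (B : Basis ι k T) {e : Module.End k T} (hc : Com (fun g => τ g) e)
    (hs : Star (fun g => sub τ (LinearMap.range e) (PSUB.invSub_range hc) g)) :
    TR B F e e = 0 := by
  have he : e = (LinearMap.range e).subtype ∘ₗ e.rangeRestrict := by
    ext v; rfl
  have h := STEP.star_pull hC hs F hF (LinearMap.range e).subtype e.rangeRestrict
    (fun g x => rfl) (fun g v => Subtype.ext (PSUB.com_apply hc g v)) B
  rw [← he] at h
  exact h

/-- the off-diagonal terms cancel in pairs -/
lemma offdiag [CharP k 2] {n : ℕ} (f : Fin n → Fin n → k)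
    (h : ∀ x y, x ≠ y → f x y + f y x = 0) : ∑ x, ∑ y, f x y = ∑ x, f x x := by
  classical
  have e1 : ∑ x, ∑ y, f x y = ∑ x, f x x + ∑ x, ∑ y ∈ Finset.univ.erase x, f x y := by
    rw [← Finset.sum_add_distrib]
    refine Finset.sum_congr rfl fun x _ => ?_
    rw [Finset.add_sum_erase _ _ (Finset.mem_univ x)]
  have e2 : ∑ x, ∑ y ∈ Finset.univ.erase x, f x y = 0 := by
    rw [Finset.sum_sigma']
    refine Finset.sum_involution (fun a _ => ⟨a.2, a.1⟩) ?_ ?_ ?_ ?_
    · rintro ⟨x, y⟩ hxy
      simp only [Finset.mem_sigma, Finset.mem_univ, true_and, Finset.mem_erase, and_true] at hxy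
      exact h x y (Ne.symm hxy)
    · rintro ⟨x, y⟩ hxy _ he
      simp only [Finset.mem_sigma, Finset.mem_univ, true_and, Finset.mem_erase, and_true] at hxy
      simp only [Sigma.mk.injEq, heq_eq_eq] at he
      exact hxy he.1
    · rintro ⟨x, y⟩ hxy
      simp only [Finset.mem_sigma, Finset.mem_univ, true_and, Finset.mem_erase, and_true] at hxy ⊢
      exact Ne.symm hxy
    · rintro ⟨x, y⟩ hxy
      rfl
  rw [e1, e2, add_zero]

/-- the scalar of a 2-group -/
lemma scalar_one [CharP k 2] (hG : IsPGroup 2 G) {ρ : Representation k G V} {o : V} (ho : o ≠ 0)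
    (χ : G → k) (h : ∀ g, ρ g o = χ g • o) (g : G) : χ g = 1 := by
  have hpow : ∀ n : ℕ, ρ (g ^ n) o = (χ g) ^ n • o := by
    intro n
    induction n with
    | zero => simp
    | succ n ih =>
      rw [pow_succ', map_mul, Module.End.mul_apply, ih, map_smul, h, smul_smul, pow_succ]
  obtain ⟨m, hm⟩ := hG g
  have h1 := hpow (2 ^ m)
  rw [hm, map_one, Module.End.one_apply] at h1
  have h2 : ((χ g) ^ (2 ^ m) - 1) • o = 0 := by
    rw [sub_smul, one_smul, ← h1, sub_self]
  have h3 : (χ g) ^ (2 ^ m) - 1 = 0 := by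
    rcases smul_eq_zero.1 h2 with h3 | h3
    · exact h3
    · exact absurd h3 ho
  have h4 : (χ g - 1) ^ (2 ^ m) = 0 := by
    have : Fact (Nat.Prime 2) := ⟨Nat.prime_two⟩
    have : ExpChar k 2 := ExpChar.prime Nat.prime_two
    rw [sub_pow_expChar_pow, one_pow, h3]
  exact sub_eq_zero.1 (pow_eq_zero_iff (pow_ne_zero _ two_ne_zero) |>.1 h4)

/-- the frame of a transvection -/
lemma exists_frame (hH : Stmt_HBAS) [CharP k 2] [FiniteDimensional k V] [FiniteDimensional k T]
    (hG : IsPGroup 2 G) {ρ : Representation k G V} {z : G} (hz : CentInv ρ z)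
    (h1 : finrank k (LinearMap.range (ρ z - 1)) = 1) {τ : Representation k G T}
    (hh : IsHeart ρ z τ) {κ : Type} [Fintype κ] (c : Basis κ k T) :
    ∃ (σ : Type) (_ : Fintype σ) (b : Basis (σ ⊕ (κ ⊕ σ)) k V) (fr : Frame k V T)
      (bb : G → T) (a : G → T →ₗ[k] k) (cc : G → k),
      (∀ s, (ρ z - 1) (b (Sum.inl s)) = b (Sum.inr (Sum.inr s))) ∧
      (∀ t, (ρ z - 1) (b (Sum.inr (Sum.inl t))) = 0) ∧
      (∀ s, (ρ z - 1) (b (Sum.inr (Sum.inr s))) = 0) ∧
      (∀ t, fr.i (c t) = b (Sum.inr (Sum.inl t))) ∧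
      (∀ t, (c.coord t) ∘ₗ fr.j = b.coord (Sum.inr (Sum.inl t))) ∧
      HEART.Ad ρ (ρ z - 1) τ fr.i fr.j ∧ zz fr = ρ z ∧
      ∀ g, Elt fr (ρ g) (τ g) (bb g) (a g) (cc g) := by
  classical
  obtain ⟨σ, hσ, b, i, j, hcard, hb1, hb2, hb3, hi, hj, had⟩ := HEART.exists_ad hH hz hh c
  rw [h1, Fintype.card_eq_one_iff] at hcard
  obtain ⟨s0, hs0⟩ := hcard
  -- the parts of the frame
  have thi : ∀ t, b.coord (Sum.inl s0) (i t) = 0 := by
    have : b.coord (Sum.inl s0) ∘ₗ i = 0 := by
      refine c.ext fun t => ?_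
      simp [hi]
    intro t
    exact congrArg (fun f => f t) this
  have omi : ∀ t, b.coord (Sum.inr (Sum.inr s0)) (i t) = 0 := by
    have : b.coord (Sum.inr (Sum.inr s0)) ∘ₗ i = 0 := by
      refine c.ext fun t => ?_
      simp [hi]
    intro t
    exact congrArg (fun f => f t) this
  have je : j (b (Sum.inl s0)) = 0 := by
    refine c.ext_elem fun t => ?_
    have := congrArg (fun f => f (b (Sum.inl s0))) (hj t)
    simpa using this
  have jo : j (b (Sum.inr (Sum.inr s0))) = 0 := by
    refine c.ext_elem fun t => ?_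
    have := congrArg (fun f => f (b (Sum.inr (Sum.inr s0)))) (hj t)
    simpa using this
  have jt : ∀ t, j (b (Sum.inr (Sum.inl t))) = c t := by
    intro t
    rw [← hi, had.ji]
  have hdec : ∀ v, v = b.coord (Sum.inl s0) v • b (Sum.inl s0) + i (j v) +
      b.coord (Sum.inr (Sum.inr s0)) v • b (Sum.inr (Sum.inr s0)) := by
    have : LinearMap.id = (b.coord (Sum.inl s0)).smulRight (b (Sum.inl s0)) + i ∘ₗ j +
        (b.coord (Sum.inr (Sum.inr s0))).smulRight (b (Sum.inr (Sum.inr s0))) := by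
      refine b.ext fun x => ?_
      rcases x with s | t | s
      · rw [hs0 s]
        simp [je]
      · simp [jt, hi]
      · rw [hs0 s]
        simp [jo]
    intro v
    exact congrArg (fun f => f v) this
  let fr : Frame k V T :=
    { e := b (Sum.inl s0)
      o := b (Sum.inr (Sum.inr s0))
      th := b.coord (Sum.inl s0)
      om := b.coord (Sum.inr (Sum.inr s0))
      i := i
      j := j
      th_e := by simp
      th_o := by simp
      th_i := thi
      om_e := by simp
      om_o := by simp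
      om_i := omi
      j_e := je
      j_o := jo
      j_i := had.ji
      dec := hdec }
  -- the transvection
  have hζ : ∀ v, (ρ z - 1) v = b.coord (Sum.inl s0) v • b (Sum.inr (Sum.inr s0)) := by
    have : (ρ z - 1 : V →ₗ[k] V) =
        (b.coord (Sum.inl s0)).smulRight (b (Sum.inr (Sum.inr s0))) := by
      refine b.ext fun x => ?_
      rcases x with s | t | s
      · rw [hs0 s, hb1]
        simp
      · rw [hb2]
        simp
      · rw [hb3]
        simp
    intro v
    exact congrArg (fun f => f v) this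
  have hzz : zz fr = ρ z := by
    ext v
    rw [zz_apply]
    have := hζ v
    simp only [LinearMap.sub_apply, Module.End.one_apply] at this
    change v + b.coord (Sum.inl s0) v • b (Sum.inr (Sum.inr s0)) = ρ z v
    rw [← this]
    exact add_sub_cancel _ _
  have ho : b (Sum.inr (Sum.inr s0)) ≠ 0 := b.ne_zero _
  -- the scalar is trivial
  have hgo : ∀ g, ρ g (b (Sum.inr (Sum.inr s0))) =
      b.coord (Sum.inl s0) (ρ g (b (Sum.inl s0))) • b (Sum.inr (Sum.inr s0)) := by
    intro g
    rw [← hb1 s0, ← HEART.comm hz, hζ, hb1]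
  have hχ : ∀ g, b.coord (Sum.inl s0) (ρ g (b (Sum.inl s0))) = 1 :=
    fun g => scalar_one hG ho (fun g => b.coord (Sum.inl s0) (ρ g (b (Sum.inl s0)))) hgo g
  refine ⟨σ, hσ, b, fr, fun g => j (ρ g (b (Sum.inl s0))),
    fun g => b.coord (Sum.inr (Sum.inr s0)) ∘ₗ ρ g ∘ₗ i,
    fun g => b.coord (Sum.inr (Sum.inr s0)) (ρ g (b (Sum.inl s0))),
    hb1, hb2, hb3, hi, hj, had, hzz, ?_⟩
  intro g
  refine ⟨?_, ?_, ?_⟩
  · change ρ g (b (Sum.inl s0)) = b (Sum.inl s0) + i (j (ρ g (b (Sum.inl s0)))) +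
      b.coord (Sum.inr (Sum.inr s0)) (ρ g (b (Sum.inl s0))) • b (Sum.inr (Sum.inr s0))
    conv_lhs => rw [hdec (ρ g (b (Sum.inl s0))), hχ, one_smul]
  · intro t
    change ρ g (i t) = i (τ g t) +
      b.coord (Sum.inr (Sum.inr s0)) (ρ g (i t)) • b (Sum.inr (Sum.inr s0))
    obtain ⟨v, hv⟩ := had.gi g t
    rw [hv, hζ, map_add, omi, map_smul, zero_add]
    simp
  · change ρ g (b (Sum.inr (Sum.inr s0))) = b (Sum.inr (Sum.inr s0))
    rw [hgo, hχ, one_smul]

end TRANS

/-- The transvection theorem, with the trace condition for the odd summands of the heart. -/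
theorem star_of_transvection (hC : Stmt_CTR) (hT : Stmt_TATE) (hH : Stmt_HBAS) (hR : Stmt_REL)
    (hI : Stmt_IND) (hA : Stmt_ALG) (hE : Stmt_EVEN) [IsAlgClosed k] [CharP k 2]
    [FiniteDimensional k V] [FiniteDimensional k T] (hG : IsPGroup 2 G)
    {ρ : Representation k G V} (hρ : Indec ρ) {z : G} (hz : CentInv ρ z)
    (h1 : finrank k (LinearMap.range (ρ z - 1)) = 1) {τ : Representation k G T}
    (hh : IsHeart ρ z τ)
    (hs : ∀ (e : Module.End k T) (he : Prim (fun g => τ g) e),
      Odd (finrank k (LinearMap.range e)) →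
      Star (fun g => sub τ (LinearMap.range e) (PSUB.invSub_range he.1) g)) :
    Star (fun g => ρ g) := by
  classical
  intro ι _ B F hF
  obtain ⟨σ, hσ, b, fr, bb, a, cc, hb1, hb2, hb3, hi, hj, had, hzz, hElt⟩ :=
    TRANS.exists_frame hH hG hz h1 hh (finBasis k T)
  rw [HEART.TR_eq hC hT hb1 hb2 hb3 hi hj hF B]
  set c := finBasis k T with hc
  have hFT : ∀ g, Inv (pull F fr.i fr.j) (τ g) :=
    fun g => had.inv_pull (HEART.comm hz) F (HEART.inv_z hF) hF g
  obtain ⟨Q, N, hN, hQ, hQb, hQa, hNb, hNa, htr⟩ := hR k V T G _ fr (fun g => ρ g)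
    (TRANS.eqv τ) bb a cc F c hElt (by rw [hzz]; exact hF z) hF
  have hnil := hI k V T G fr (fun g => ρ g) (fun g => τ g) bb a cc hElt (by
    intro A A' hA1 _ hA2 _ hAA
    exact hρ.2 A A' hA1 hA2 hAA)
  obtain ⟨n, ε, hε, horth, hsum, hoff⟩ := hA k T G (fun g => τ g) bb a Q N hnil hN hQ hQb hQa
    hNb hNa (by
      intro Y Z
      rw [htr, htr, add_comm])
  have e1 : (LinearMap.id : T →ₗ[k] T) = ∑ x, ε x := by rw [hsum]; rfl
  rw [e1, STEP.TR_sum_left]
  simp only [STEP.TR_sum_right]
  rw [TRANS.offdiag (fun x y => TR c (pull F fr.i fr.j) (ε x) (ε y)) (by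
    intro x y hxy
    have h := hoff y x hxy.symm
    rw [htr] at h
    exact h)]
  refine Finset.sum_eq_zero fun x _ => ?_
  rcases Nat.even_or_odd (finrank k (LinearMap.range (ε x))) with hev | hodd
  · exact (TRANS.TR_even hE hFT c (hε x) hev (hε x).1).1
  · exact TRANS.TR_odd hC hFT c (hε x).1 (hs _ (hε x) hodd)

end

end Pool.BenStar
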